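import Pool.Agent.Helper13.OPG.E1
import Pool.Agent.Helper10.UL.ChoiceW

/-!
# Project OPG, uniform version: the finite data over the small field
-/

universe u v w

namespace Pool.Agent.OPG

open IntermediateField Pool.Agent.OPN Pool.Agent.Helper37.UL

/-- independence over the image of a field -/
theorem ind_range {F : Type u} {A : Type v} [Field F] [Field A] [Algebra F A] {ι : Type*}
    {x : ι → A} :
    AlgebraicIndependent (algebraMap F A).fieldRange x ↔ AlgebraicIndependent F x := by
  let e : F ≃+* (algebraMap F A).fieldRange :=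
    RingEquiv.ofBijective (algebraMap F A).rangeRestrictField
      ⟨(algebraMap F A).rangeRestrictField.injective, fun ⟨_, c, hc⟩ => ⟨c, Subtype.ext hc⟩⟩
  exact algebraicIndependent_ringHom_iff_of_comp_eq e (RingHom.id A) Function.injective_id
    (RingHom.ext fun _ => rfl)

/-- the image of an independent family under an embedding -/
theorem ind_map {A : Type u} {B : Type v} [Field A] [Field B] (σ : A →+* B) {K : Subfield A}
    {ι : Type*} {x : ι → A} (hx : AlgebraicIndependent K x) :
    AlgebraicIndependent (K.map σ) (fun i => σ (x i)) := by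
  let e : K ≃+* K.map σ :=
    RingEquiv.ofBijective ((σ.comp K.subtype).codRestrict (K.map σ).toSubring fun x => ⟨x, x.2, rfl⟩)
      ⟨RingHom.injective _, fun ⟨_, c, hc, h⟩ => ⟨⟨c, hc⟩, Subtype.ext h⟩⟩
  exact (algebraicIndependent_ringHom_iff_of_comp_eq e σ σ.injective
    (RingHom.ext fun _ => rfl)).2 hx

theorem alg_map' {A : Type u} {B : Type v} [Field A] [Field B] (σ : A →+* B) {K : Subfield A}
    {L : Subfield B} (h : ∀ x ∈ K, σ x ∈ L) {x : A} (hx : IsAlgebraic K x) :
    IsAlgebraic L (σ x) := by
  obtain ⟨P, hP0, hP⟩ := hx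
  let φ : K →+* L := (σ.comp K.subtype).codRestrict L.toSubring fun x => h x x.2
  refine ⟨P.map φ, (Polynomial.map_ne_zero_iff φ.injective).2 hP0, ?_⟩
  have h3 := congrArg σ hP
  rw [map_zero, Polynomial.aeval_def, Polynomial.hom_eval₂] at h3
  rw [Polynomial.aeval_def, Polynomial.eval₂_map]
  exact h3

/-- fields generated in two steps -/
theorem adjoin_sub {F A : Type u} [Field F] [Field A] [Algebra F A] (X : Set A) :
    (adjoin F X).toSubfield = ad (algebraMap F A).fieldRange X := by
  rw [adjoin_toSubfield]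
  rfl

theorem adjoin_adjoin_sub {F A : Type u} [Field F] [Field A] [Algebra F A] (X Y : Set A) :
    (adjoin (adjoin F X) Y).toSubfield = ad (ad (algebraMap F A).fieldRange X) Y := by
  rw [adjoin_sub]
  congr 1
  rw [← adjoin_sub X]
  ext z
  constructor
  · rintro ⟨c, rfl⟩
    exact c.2
  · intro hz
    exact ⟨⟨z, hz⟩, rfl⟩

/-- **The finite data over the small field.** -/
theorem fin_data {F₀ k₀ : Type u} [Field F₀] [CharZero F₀] [Field k₀] [Algebra F₀ k₀]
    (hk₀ : ∃ S : Finset k₀, Subfield.closure (S : Set k₀) = ⊤) {T u : k₀}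
    (hTu : AlgebraicIndependent F₀ ![T, u]) {m : ℕ} (w : Fin (m + 1) → k₀) (hw : w 0 ≠ 0) :
    ∃ (n : ℕ) (s : Fin n → k₀) (c : ℕ) (q : k₀),
      IsTranscendenceBasis F₀ (Sum.elim s ![u, T]) ∧
      IsAlgebraic (ad (ad (gn (algebraMap F₀ k₀).fieldRange s) {u}) {T}) q ∧
      ad (ad (gn (algebraMap F₀ k₀).fieldRange s) {u}) {T, q} = ⊤ ∧
      ∀ κ₀ : Subfield (AlgebraicClosure k₀), (∀ z, z ∈ κ₀ ↔ IsAlgebraic
        ((ad (gn (algebraMap F₀ k₀).fieldRange s) {u}).map
          (algebraMap k₀ (AlgebraicClosure k₀))) z) →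
        TH.SplitW κ₀ (algebraMap k₀ (AlgebraicClosure k₀) (T - c))
          (algebraMap k₀ (AlgebraicClosure k₀) q)
          (fun l => algebraMap k₀ (AlgebraicClosure k₀) (w l)) := by
  classical
  set F₀' : Subfield k₀ := (algebraMap F₀ k₀).fieldRange with hF₀'
  have hk0 : CharZero k₀ := charZero_of_injective_algebraMap (algebraMap F₀ k₀).injective
  -- the tower
  have hu1 : AlgebraicIndependent F₀ ![u] := by
    have h1 := hTu.comp (fun _ : Fin 1 => (1 : Fin 2)) (fun a b _ => Subsingleton.elim a b)
    convert h1 using 1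
    funext i
    fin_cases i
    rfl
  let Fu : IntermediateField F₀ k₀ := adjoin F₀ {u}
  have hFu0 : CharZero Fu := charZero_of_injective_algebraMap (algebraMap F₀ Fu).injective
  have hTF : AlgebraicIndependent F₀' ![T, u] := ind_range.2 hTu
  have hTu' : Transcendental (ad F₀' {u}) T ∧ Transcendental F₀' u := by
    have h1 : AlgebraicIndependent F₀' (Sum.elim (fun _ : Unit => T) (fun _ : Unit => u)) := by
      have h2 := hTF.comp (Sum.elim (fun _ => 0) (fun _ => 1) : Unit ⊕ Unit → Fin 2) (by
        rintro (a | a) (b | b) hab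
        · rfl
        · simp at hab
        · simp at hab
        · rfl)
      convert h2 using 1
      funext i
      rcases i with i | i <;> rfl
    obtain ⟨h2, h3⟩ := indep_sum_iff.1 h1
    rw [gn_one] at h3
    exact ⟨indep_one.1 h3, indep_one.1 h2⟩
  have hadu : Fu.toSubfield = ad F₀' {u} := adjoin_sub _
  have htr : ∀ {K L : Subfield k₀} (_ : K = L) {z : k₀}, Transcendental K z ↔ Transcendental L z := by
    rintro K L rfl z
    rfl
  have hTFu : Transcendental Fu T := (htr hadu).2 hTu'.1
  obtain ⟨n, s, hs, hTs, hfd⟩ := RR.exists_tower hk₀ hTFu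
  let F₁ : IntermediateField Fu k₀ := adjoin Fu (Set.range s)
  have hF₁0 : CharZero F₁ := charZero_of_injective_algebraMap (algebraMap Fu F₁).injective
  have hF₁s : F₁.toSubfield = ad (gn F₀' s) {u} := by
    change (adjoin (adjoin F₀ {u}) (Set.range s)).toSubfield = _
    rw [adjoin_adjoin_sub]
    exact ad_comm
  let C₀ := AlgebraicClosure k₀
  let κ : Subfield C₀ := (algebraicClosure F₁ C₀).toSubfield
  have hκ : ∀ c : C₀, c ∈ κ ↔ IsAlgebraic F₁ c := fun c => mem_algebraicClosure_iff
  obtain ⟨c, q, htop, hq, hsp⟩ := UL.exists_splitW (C := C₀) hTs hκ w hw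
  have hmapF₁ : (algebraMap F₁ C₀).fieldRange = (ad (gn F₀' s) {u}).map (algebraMap k₀ C₀) := by
    rw [← hF₁s]
    ext z
    constructor
    · rintro ⟨c, rfl⟩
      exact ⟨c, c.2, rfl⟩
    · rintro ⟨c, hc, rfl⟩
      exact ⟨⟨c, hc⟩, rfl⟩
  refine ⟨n, s, c, q, ?_, ?_, ?_, ?_⟩
  · -- the transcendence basis
    have h1 : AlgebraicIndependent (ad F₀' {u}) s := by
      have h2 : AlgebraicIndependent Fu.toSubfield s := hs
      exact indep_congr hadu h2
    have h2 : Transcendental (gn (ad F₀' {u}) s) T := by
      have h3 : gn (ad F₀' {u}) s = F₁.toSubfield := by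
        rw [hF₁s]
        exact ad_comm
      exact (htr h3).2 hTs
    have h3 : AlgebraicIndependent F₀' (Sum.elim s fun _ : Unit => u) :=
      indep_sum_iff.2 ⟨indep_one.2 hTu'.2, by rw [gn_one]; exact h1⟩
    have h4 : AlgebraicIndependent F₀' (Sum.elim (fun _ : Unit => T)
        (Sum.elim s fun _ : Unit => u)) := by
      refine indep_sum_iff.2 ⟨h3, indep_one.2 ?_⟩
      have h5 : gn F₀' (Sum.elim s fun _ : Unit => u) = gn (ad F₀' {u}) s := by
        rw [← gn_gn, gn_one]
        exact ad_comm
      exact (htr h5).2 h2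
    have h5 : AlgebraicIndependent F₀' (Sum.elim s ![u, T]) := by
      let g : Fin n ⊕ Fin 2 → Unit ⊕ (Fin n ⊕ Unit) :=
        Sum.elim (fun i => Sum.inr (Sum.inl i)) ![Sum.inr (Sum.inr ()), Sum.inl ()]
      have hg : Function.Injective g := by
        rintro (i | i) (j | j) hij
        · have h6 : (Sum.inr (Sum.inl i) : Unit ⊕ (Fin n ⊕ Unit)) = Sum.inr (Sum.inl j) := hij
          rw [Sum.inl_injective (Sum.inr_injective h6)]
        · fin_cases j
          · exact absurd (Sum.inr_injective
              (show (Sum.inr (Sum.inl i) : Unit ⊕ (Fin n ⊕ Unit)) = Sum.inr (Sum.inr ()) from hij))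
              Sum.inl_ne_inr
          · exact absurd
              (show (Sum.inr (Sum.inl i) : Unit ⊕ (Fin n ⊕ Unit)) = Sum.inl () from hij)
              Sum.inr_ne_inl
        · fin_cases i
          · exact absurd (Sum.inr_injective
              (show (Sum.inr (Sum.inr ()) : Unit ⊕ (Fin n ⊕ Unit)) = Sum.inr (Sum.inl j) from hij))
              Sum.inr_ne_inl
          · exact absurd
              (show (Sum.inl () : Unit ⊕ (Fin n ⊕ Unit)) = Sum.inr (Sum.inl j) from hij)
              Sum.inl_ne_inr
        · fin_cases i <;> fin_cases j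
          · rfl
          · exact absurd
              (show (Sum.inr (Sum.inr ()) : Unit ⊕ (Fin n ⊕ Unit)) = Sum.inl () from hij)
              Sum.inr_ne_inl
          · exact absurd
              (show (Sum.inl () : Unit ⊕ (Fin n ⊕ Unit)) = Sum.inr (Sum.inr ()) from hij)
              Sum.inl_ne_inr
          · rfl
      have h6 := h4.comp g hg
      convert h6 using 1
      funext i
      rcases i with i | i
      · rfl
      · fin_cases i <;> rfl
    have h6 : AlgebraicIndependent F₀ (Sum.elim s ![u, T]) := ind_range.1 h5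
    rw [h6.isTranscendenceBasis_iff_isAlgebraic, ← isAlgebraic_adjoin_iff_top]
    refine ⟨fun x => ?_⟩
    have h7 : IsAlgebraic (adjoin F₁ {T}) x := Algebra.IsAlgebraic.isAlgebraic x
    have h8 : (adjoin F₁ {T}).toSubfield = (adjoin F₀ (Set.range (Sum.elim s ![u, T]))).toSubfield := by
      rw [adjoin_sub, adjoin_sub, Set.Sum.elim_range, Matrix.range_cons, Matrix.range_cons,
        Matrix.range_empty, Set.union_empty]
      have h9 : (algebraMap F₁ k₀).fieldRange = ad (ad F₀' (Set.range s)) {u} := by
        have h10 : (algebraMap F₁ k₀).fieldRange = F₁.toSubfield := by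
          ext z
          constructor
          · rintro ⟨c, rfl⟩
            exact c.2
          · intro hz
            exact ⟨⟨z, hz⟩, rfl⟩
        rw [h10, hF₁s]
        rfl
      rw [h9, ad_ad, ad_ad]
    have h9 : ∀ {K L : Subfield k₀} (_ : K = L), IsAlgebraic K x → IsAlgebraic L x := by
      rintro K L rfl hx
      exact hx
    exact h9 h8 h7
  · have h8 : (adjoin F₁ {T}).toSubfield = ad (ad (gn F₀' s) {u}) {T} := by
      rw [adjoin_sub]
      have h10 : (algebraMap F₁ k₀).fieldRange = F₁.toSubfield := by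
        ext z
        constructor
        · rintro ⟨c, rfl⟩
          exact c.2
        · intro hz
          exact ⟨⟨z, hz⟩, rfl⟩
      rw [h10, hF₁s]
    have h9 : ∀ {K L : Subfield k₀} (_ : K = L), IsAlgebraic K q → IsAlgebraic L q := by
      rintro K L rfl hx
      exact hx
    exact h9 h8 hq
  · have h8 : (adjoin F₁ {T, q}).toSubfield = ad (ad (gn F₀' s) {u}) {T, q} := by
      rw [adjoin_sub]
      have h10 : (algebraMap F₁ k₀).fieldRange = F₁.toSubfield := by
        ext z
        constructor
        · rintro ⟨c, rfl⟩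
          exact c.2
        · intro hz
          exact ⟨⟨z, hz⟩, rfl⟩
      rw [h10, hF₁s]
    rw [← h8, htop]
    rfl
  · intro κ₀ hκ₀
    have h1 : κ₀ = κ := by
      ext z
      rw [hκ₀, hκ, ← hmapF₁]
      exact Pool.Agent.TD.isAlgebraic_range_iff
    rw [h1]
    exact hsp

end Pool.Agent.OPG
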