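import Pool.Agent.Helper13.OPG.F1
import Pool.Agent.Helper13.OPN.C

/-!
# Project OPG: representatives with values in subfields
-/

universe u v w

namespace Pool.Agent.OPG

open Pool.Agent.Helper37.UL UL Pool.Agent.OPN Pool.Agent.PL

section rep

variable {J : Type v} {U : Ultrafilter J} {k C : Type u} [Field k] [Field C] [Algebra k C]
  {S : Type w} [Field S] {π : (J → C) →+* S} (h : UP U π) (Kb : J → Subfield k)

/-- the elements which are represented by functions with values in the subfields `Kb a` -/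
def repF : Subfield S where
  carrier := {s | ∃ g : J → k, (∀ a, g a ∈ Kb a) ∧ (π fun a => algebraMap k C (g a)) = s}
  mul_mem' := by
    rintro _ _ ⟨f, hf, rfl⟩ ⟨g, hg, rfl⟩
    refine ⟨f * g, fun a => (Kb a).mul_mem (hf a) (hg a), ?_⟩
    rw [← map_mul]
    congr 1
    funext a
    exact map_mul _ _ _
  one_mem' := by
    refine ⟨1, fun a => (Kb a).one_mem, ?_⟩
    rw [← map_one π]
    congr 1
    funext a
    exact map_one _
  add_mem' := by
    rintro _ _ ⟨f, hf, rfl⟩ ⟨g, hg, rfl⟩
    refine ⟨f + g, fun a => (Kb a).add_mem (hf a) (hg a), ?_⟩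
    rw [← map_add]
    congr 1
    funext a
    exact map_add _ _ _
  zero_mem' := by
    refine ⟨0, fun a => (Kb a).zero_mem, ?_⟩
    rw [← map_zero π]
    congr 1
    funext a
    exact map_zero _
  neg_mem' := by
    rintro _ ⟨f, hf, rfl⟩
    refine ⟨-f, fun a => (Kb a).neg_mem (hf a), ?_⟩
    rw [← map_neg]
    congr 1
    funext a
    exact map_neg _ _
  inv_mem' := by
    rintro _ ⟨f, hf, rfl⟩
    refine ⟨f⁻¹, fun a => (Kb a).inv_mem (hf a), ?_⟩
    rw [← h.map_inv]
    congr 1
    funext a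
    exact map_inv₀ _ _

variable {Kb}

theorem mem_repF {s : S} : s ∈ repF h Kb ↔
    ∃ g : J → k, (∀ a, g a ∈ Kb a) ∧ (π fun a => algebraMap k C (g a)) = s := Iff.rfl

theorem lift_repF {I : Type*} {c : I → S} (hc : ∀ i, c i ∈ repF h Kb) :
    ∃ f : J → I → k, (∀ a i, f a i ∈ Kb a) ∧ ∀ i, (π fun a => algebraMap k C (f a i)) = c i := by
  choose f hf1 hf2 using hc
  exact ⟨fun a i => f i a, fun a i => hf1 i a, hf2⟩

theorem ev_alg {k00 : Subfield S} (hk : k00 ≤ repF h Kb) {g : J → C}
    (hg : IsAlgebraic k00 (π g)) :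
    ∀ᶠ a in (U : Filter J), IsAlgebraic ((Kb a).map (algebraMap k C)) (g a) := by
  obtain ⟨n, c, hc, hc0, hid⟩ := isAlgebraic_iff.1 hg
  obtain ⟨f, hf1, hf2⟩ := lift_repF h fun i => hk (hc i)
  obtain ⟨l, hl⟩ := Function.ne_iff.1 hc0
  have h1 : ∀ᶠ a in (U : Filter J), algebraMap k C (f a l) ≠ 0 := by
    rw [Pi.zero_apply, ← hf2, h.ne0] at hl
    exact hl
  have h2 : ∀ᶠ a in (U : Filter J), ∑ i : Fin (n + 1), algebraMap k C (f a i) * g a ^ (i : ℕ) = 0 := by
    have h3 : (π fun a => ∑ i : Fin (n + 1), algebraMap k C (f a i) * g a ^ (i : ℕ)) = 0 := by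
      rw [← hid]
      have h4 : (fun a => ∑ i : Fin (n + 1), algebraMap k C (f a i) * g a ^ (i : ℕ)) =
          ∑ i : Fin (n + 1), (fun a => algebraMap k C (f a i)) * g ^ (i : ℕ) := by
        funext a
        rw [Finset.sum_apply]
        rfl
      rw [h4, map_sum]
      refine Finset.sum_congr rfl fun i _ => ?_
      rw [map_mul, map_pow, hf2]
    exact (h.eq0 _).1 h3
  filter_upwards [h1, h2] with a ha1 ha2
  refine isAlgebraic_iff.2 ⟨n, fun i => algebraMap k C (f a i), fun i => ⟨_, hf1 a i, rfl⟩, ?_, ha2⟩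
  intro h0
  exact ha1 (congrFun h0 l)

end rep

section indep

variable {S : Type u} [Field S]

/-- adjoining a transcendental element to the field of constants -/
theorem indep_ad {K : Subfield S} {ι : Type v} {x : ι → S} {t : S}
    (hx : AlgebraicIndependent K x) (ht : Transcendental (gn K x) t) :
    AlgebraicIndependent (ad K {t}) x := by
  have h1 : AlgebraicIndependent K (Sum.elim (fun _ : Unit => t) x) :=
    indep_sum_iff.2 ⟨hx, indep_one.2 ht⟩
  have h2 := (indep_sum_iff.1 (indep_swap h1)).2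
  rw [gn_one] at h2
  exact h2

/-- the independence of the parameters over `κ(T, q)` -/
theorem indep_E {K κ M : Subfield S} {ι : Type v} {x : ι → S} {t q : S}
    (hK : ∀ y ∈ κ, IsAlgebraic K y) (hx : AlgebraicIndependent K x) (hκM : κ ≤ M)
    (hxM : ∀ i, x i ∈ M) (ht : Transcendental M t)
    (hq : IsAlgebraic (Subfield.closure ((κ : Set S) ∪ {t})) q) :
    AlgebraicIndependent (Subfield.closure ((κ : Set S) ∪ {t, q})) x := by
  have h1 : AlgebraicIndependent κ x := indep_mono (fun y hy => mem_acl.2 (hK y hy)) (indep_acl hx)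
  have h2 : AlgebraicIndependent (ad κ {t}) x := indep_ad h1 (tr_mono (gn_le hκM hxM) ht)
  refine indep_mono (L := acl (ad κ {t})) ?_ (indep_acl h2)
  rw [Subfield.closure_le]
  rintro y (hy | hy | hy)
  · exact le_acl (le_ad hy)
  · rw [hy]
    exact le_acl (mem_ad rfl)
  · rw [Set.mem_singleton_iff.1 hy]
    exact mem_acl.2 hq

end indep

end Pool.Agent.OPG
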