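import Pool.Agent.Helper13.OPG.Key
import Pool.Agent.Helper13.OPN.D

/-!
# Project OPG: the algebraic functions of generic parameters on a pencil
-/

universe u v w

namespace Pool.Agent.OPG

open Pool.Agent.Helper37.UL UL Pool.Agent.OPN

/-- **The algebraic functions of generic parameters on a pencil.** -/
theorem wr {J : Type v} {Uf : Ultrafilter J} {C : Type u} [Field C] [CharZero C] [IsAlgClosed C]
    {S : Type w} [Field S] {π : (J → C) →+* S} (h : UP Uf π) {Fh Ω : Subfield C} (hΩ : Fh ≤ Ω)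
    {u : C} (hu : Transcendental Ω u) {I : Type} [Finite I] {m : ℕ}
    {a' : I × Fin (m + 3) → S} (haΩ : ∀ p, a' p ∈ h.gsub Ω)
    (ha : AlgebraicIndependent (Fh.map (UP.cst π)) a') {c : S} (hc : c ∈ Fh.map (UP.cst π))
    {κ : Subfield C} (hκ : Subfield.closure ((Fh : Set C) ∪ {u}) ≤ κ)
    {x' : I × Fin (m + 2) → S}
    (hx0 : ∀ i, x' (i, 0) = a' (i, 0) + c * a' (i, 1) + UP.cst π u * a' (i, Fin.last _))
    (hx1 : ∀ (i : I) (e : Fin (m + 1)), x' (i, e.succ) = a' (i, e.succ.castSucc))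
    {z : S} (hz : z ∈ h.gsub (Subfield.closure ((Ω : Set C) ∪ {u})))
    (hza : IsAlgebraic (gn ((Subfield.closure ((Fh : Set C) ∪ {u})).map (UP.cst π)) x') z) :
    z ∈ gn (acl (hi (κ.map (UP.cst π)) x')) x' := by
  classical
  have hSa : IsAlgClosed S := h.isAlgClosed
  have hS0 : CharZero S := h.charZero
  set Φ : Subfield S := h.gsub Ω with hΦ
  set u' : S := UP.cst π u with hu'
  set FS : Subfield S := Fh.map (UP.cst π) with hFS
  set Fs : Subfield S := (Subfield.closure ((Fh : Set C) ∪ {u})).map (UP.cst π) with hFs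
  have hind : AlgebraicIndependent Ω ![u] := by
    rw [algebraicIndependent_unique_type_iff]
    exact hu
  have hτ : (fun i => UP.cst π ((![u] : Fin 1 → C) i)) = ![u'] := by
    funext i
    fin_cases i
    rfl
  have huΦ : Transcendental Φ u' := (h.algInd hind).transcendental 0
  have hFSΦ : FS ≤ Φ := by
    rintro _ ⟨y, hy, rfl⟩
    exact h.const_mem_gsub.mpr (hΩ hy)
  have hFs' : ∀ M : Subfield S, FS ≤ M → u' ∈ M → Fs ≤ M := by
    intro M h1 h2
    have h3 : Subfield.closure ((Fh : Set C) ∪ {u}) ≤ M.comap (UP.cst π) := by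
      rw [Subfield.closure_le]
      rintro y (hy | hy)
      · exact h1 ⟨y, hy, rfl⟩
      · rw [Set.mem_singleton_iff.1 hy]
        exact h2
    rintro _ ⟨y, hy, rfl⟩
    exact h3 hy
  have hx'M : ∀ M : Subfield S, FS ≤ M → u' ∈ M → (∀ p, a' p ∈ M) → gn Fs x' ≤ M := by
    intro M h1 h2 h3
    refine gn_le (hFs' M h1 h2) ?_
    rintro ⟨i, e⟩
    rcases Fin.eq_zero_or_eq_succ e with rfl | ⟨e, rfl⟩
    · rw [hx0]
      exact M.add_mem (M.add_mem (h3 _) (M.mul_mem (h1 hc) (h3 _))) (M.mul_mem h2 (h3 _))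
    · rw [hx1]
      exact h3 _
  -- the internal rational functions
  have h1 : z ∈ ad Φ {u'} := by
    have e1 : Subfield.closure ((Ω : Set C) ∪ {u}) = gen Ω ![u] := by
      unfold gen
      rw [Matrix.range_cons, Matrix.range_empty, Set.union_empty]
    rw [e1] at hz
    have h2 := h.gen_relAlgClosed hind hz (by
      rw [hτ, gen_one]
      refine isAlgebraic_mono (hx'M _ (hFSΦ.trans le_ad) mem_adE fun p => le_ad (haΩ p)) hza)
    rw [hτ, gen_one] at h2
    exact h2
  -- the small closed field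
  set b : I × Fin (m + 1) → S := fun p => a' (p.1, p.2.succ.castSucc) with hb
  set E₂ : Subfield S := acl (gn FS b) with hE₂
  have hE₂cl : ∀ y : S, IsAlgebraic E₂ y → y ∈ E₂ := fun y hy => acl_closed hy
  have hFSE₂ : FS ≤ E₂ := le_gn.trans le_acl
  have hbE₂ : ∀ p, b p ∈ E₂ := fun p => le_acl (mem_gn p)
  set a0 : I → S := fun i => a' (i, 0) + c * a' (i, 1) with ha0
  set a1 : I → S := fun i => a' (i, Fin.last _) with ha1
  have hone : ∀ i : I, a' (i, 1) = b (i, 0) := by
    intro i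
    rfl
  have hind2 : AlgebraicIndependent E₂ (Sum.elim a0 a1) := by
    let g : (I ⊕ I) ⊕ (I × Fin (m + 1)) → I × Fin (m + 3) :=
      Sum.elim (Sum.elim (fun i => (i, 0)) fun i => (i, Fin.last _))
        fun p => (p.1, p.2.succ.castSucc)
    have hg : Function.Injective g := by
      rintro ((i | i) | ⟨i, e⟩) ((j | j) | ⟨j, e'⟩) hij
      · rw [(Prod.mk.inj hij).1]
      · exact absurd (Prod.mk.inj hij).2 (Fin.last_pos.ne)
      · exact absurd (congrArg Fin.val (Prod.mk.inj hij).2) (by simp)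
      · exact absurd (Prod.mk.inj hij).2 (Fin.last_pos.ne')
      · rw [(Prod.mk.inj hij).1]
      · exact absurd (Prod.mk.inj hij).2 (Fin.castSucc_lt_last _).ne'
      · exact absurd (congrArg Fin.val (Prod.mk.inj hij).2) (by simp)
      · exact absurd (Prod.mk.inj hij).2 (Fin.castSucc_lt_last _).ne
      · have h2 : i = j := (Prod.mk.inj hij).1
        have h3 : e = e' := Fin.succ_injective _ (Fin.castSucc_injective _ (Prod.mk.inj hij).2)
        rw [h2, h3]
    have h2 := ha.comp g hg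
    have h3 : a' ∘ g = Sum.elim (Sum.elim (fun i => a' (i, 0)) a1) b := by
      funext i
      rcases i with (i | i) | i <;> rfl
    rw [h3] at h2
    have h4 : AlgebraicIndependent E₂ (Sum.elim (fun i => a' (i, 0)) a1) :=
      indep_acl (indep_sum_iff.1 h2).2
    have h5 := indep_add h4 (d := Sum.elim (fun i => c * a' (i, 1)) fun _ => 0) (by
      rintro (i | i)
      · exact E₂.mul_mem (hFSE₂ hc) (by rw [hone]; exact hbE₂ _)
      · exact E₂.zero_mem)
    convert h5 using 1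
    funext i
    rcases i with i | i
    · rfl
    · exact (add_zero _).symm
  have hEΦ : E₂ ≤ acl Φ := acl_mono (gn_le hFSΦ fun p => haΩ _)
  have hgnΦ : gn E₂ (Sum.elim a0 a1) ≤ acl Φ := by
    refine gn_le hEΦ ?_
    rintro (i | i)
    · exact le_acl (Φ.add_mem (haΩ _) (Φ.mul_mem (hFSΦ hc) (haΩ _)))
    · exact le_acl (haΩ _)
  have htr : Transcendental (gn E₂ (Sum.elim a0 a1)) u' := tr_mono hgnΦ (tr_acl huΦ)
  have hxp : gn Fs x' ≤ gn (ad E₂ {u'}) (fun i => a0 i + u' * a1 i) := by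
    refine gn_le (hFs' _ (hFSE₂.trans (le_ad.trans le_gn)) (le_gn mem_adE)) ?_
    rintro ⟨i, e⟩
    rcases Fin.eq_zero_or_eq_succ e with rfl | ⟨e, rfl⟩
    · rw [hx0]
      exact mem_gn (x := fun i => a0 i + u' * a1 i) i
    · rw [hx1]
      exact le_gn (le_ad (hbE₂ (i, e)))
  have hK : gn (ad E₂ {u'}) (fun i => a0 i + u' * a1 i) ≤
      ad (acl (gn E₂ (Sum.elim a0 a1))) {u'} := by
    refine gn_le (ad_mono (le_gn.trans le_acl) le_rfl) fun i => ?_
    exact Subfield.add_mem _ (le_ad (le_acl (mem_gn (x := Sum.elim a0 a1) (Sum.inl i))))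
      (Subfield.mul_mem _ mem_adE (le_ad (le_acl (mem_gn (x := Sum.elim a0 a1) (Sum.inr i)))))
  have h2 : z ∈ ad (acl (gn E₂ (Sum.elim a0 a1))) {u'} :=
    gauss_ad (acl_le hgnΦ) (fun y _ hy => acl_closed hy) (tr_acl huΦ) z
      (ad_mono le_acl le_rfl h1) (isAlgebraic_mono (hxp.trans hK) hza)
  have h3 := planeI hE₂cl hind2 htr h2 (isAlgebraic_mono hxp hza)
  have hFhκ : FS ≤ κ.map (UP.cst π) := by
    rintro _ ⟨y, hy, rfl⟩
    exact ⟨y, hκ (Subfield.subset_closure (Or.inl hy)), rfl⟩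
  have hhi : κ.map (UP.cst π) ≤ hi (κ.map (UP.cst π)) x' := fun y hy =>
    Subfield.subset_closure (Or.inl hy)
  have hE₂hi : E₂ ≤ acl (hi (κ.map (UP.cst π)) x') := by
    refine acl_mono (gn_le (hFhκ.trans hhi) fun p => ?_)
    rw [hb]
    dsimp only
    rw [← hx1]
    exact Subfield.subset_closure (Or.inr ⟨p, rfl⟩)
  refine (gn_le (ad_le (hE₂hi.trans le_gn) ?_) fun i => ?_) h3
  · intro y hy
    rw [Set.mem_singleton_iff.1 hy]
    exact le_gn (le_acl (hhi ⟨u, hκ (Subfield.subset_closure (Or.inr rfl)), rfl⟩))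
  · have h4 : a0 i + u' * a1 i = x' (i, 0) := (hx0 i).symm
    rw [h4]
    exact mem_gn (x := x') (i, 0)

end Pool.Agent.OPG
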