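import Pool.Agent.Helper13.OPG.E2
import Pool.Agent.Helper13.OPG.F2
import Pool.Agent.Helper13.OPG.WR

/-!
# Project OPG, uniform version: independence of the generic parameters
-/

universe u v w

namespace Pool.Agent.OPG

open IntermediateField Pool.Agent.OPN Pool.Agent.Helper37.UL UL

/-- **The generic parameters are independent over the small field.** -/
theorem gen_ind {J : Type v} {Uf : Ultrafilter J} {F₀ C : Type u} [Field F₀] [Field C]
    [Algebra F₀ C] {S : Type w} [Field S] {π : (J → C) →+* S} (h : UP Uf π) {Ω₀ : Subfield C}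
    (hΩ₀ : (algebraMap F₀ C).fieldRange ≤ Ω₀) {n : ℕ} {σ : Fin n → C}
    (hσ : AlgebraicIndependent Ω₀ σ) {P : Type} {b : J → P → C} (hb : ∀ j p, b j p ∈ Ω₀)
    (hU : ∀ Φ : MvPolynomial P F₀, Φ ≠ 0 → ∀ᶠ j in (Uf : Filter J), MvPolynomial.aeval (b j) Φ ≠ 0) :
    AlgebraicIndependent ((gn (algebraMap F₀ C).fieldRange σ).map (UP.cst π))
      (fun p => π fun j => b j p) := by
  classical
  let _ : Algebra F₀ S := ((UP.cst π).comp (algebraMap F₀ C)).toAlgebra
  have hind : AlgebraicIndependent F₀ (fun p => π fun j => b j p) := by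
    rw [algebraicIndependent_iff]
    intro Φ hΦ
    by_contra h0
    have h1 : ∀ p : MvPolynomial P F₀, MvPolynomial.aeval (fun p => π fun j => b j p) p =
        π fun j => MvPolynomial.aeval (b j) p := by
      intro p
      induction p using MvPolynomial.induction_on with
      | C a =>
        rw [MvPolynomial.aeval_C]
        simp only [MvPolynomial.aeval_C]
        rfl
      | add p q hp hq =>
        rw [map_add, hp, hq, ← map_add]
        congr 1
        funext j
        rw [Pi.add_apply, map_add]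
      | mul_X p i hp =>
        rw [map_mul, hp, MvPolynomial.aeval_X, ← map_mul]
        congr 1
        funext j
        rw [Pi.mul_apply, map_mul, MvPolynomial.aeval_X]
    rw [h1] at hΦ
    have h2 := hU Φ h0
    rw [← h.ne0] at h2
    exact h2 hΦ
  have hK : (algebraMap F₀ S).fieldRange = (algebraMap F₀ C).fieldRange.map (UP.cst π) := by
    ext z
    constructor
    · rintro ⟨c, rfl⟩
      exact ⟨_, ⟨c, rfl⟩, rfl⟩
    · rintro ⟨_, ⟨c, rfl⟩, rfl⟩
      exact ⟨c, rfl⟩
  set K : Subfield S := (algebraMap F₀ C).fieldRange.map (UP.cst π) with hKdef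
  have h1 : AlgebraicIndependent K (fun p => π fun j => b j p) := by
    rw [← hK]
    exact ind_range.2 hind
  have hKM : K ≤ h.gsub Ω₀ := by
    rintro _ ⟨z, hz, rfl⟩
    exact h.const_mem_gsub.mpr (hΩ₀ hz)
  have h2 : AlgebraicIndependent (gn K fun p => π fun j => b j p) (fun i => UP.cst π (σ i)) :=
    indep_mono (gn_le hKM fun p => ⟨_, fun j => hb j p, rfl⟩) (h.algInd hσ)
  have h3 := (indep_sum_iff.1 (indep_swap (indep_sum_iff.2 ⟨h1, h2⟩))).2
  refine indep_mono ?_ h3
  rintro _ ⟨z, hz, rfl⟩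
  have h4 : gn (algebraMap F₀ C).fieldRange σ ≤
      (gn K fun i => UP.cst π (σ i)).comap (UP.cst π) :=
    gn_le (fun z hz => le_gn ⟨z, hz, rfl⟩) fun i => mem_gn (x := fun i => UP.cst π (σ i)) i
  exact h4 hz

/-- the parameters on a pencil -/
theorem pencil_ind {S : Type u} [Field S] {K M : Subfield S} (hKM : K ≤ M) {u : S}
    (hu : Transcendental M u) {I : Type} {m : ℕ} {a' : I × Fin (m + 3) → S} (haM : ∀ p, a' p ∈ M)
    (ha : AlgebraicIndependent K a') {c : S} (hc : c ∈ K) {x' : I × Fin (m + 2) → S}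
    (hx0 : ∀ i, x' (i, 0) = a' (i, 0) + c * a' (i, 1) + u * a' (i, Fin.last _))
    (hx1 : ∀ (i : I) (e : Fin (m + 1)), x' (i, e.succ) = a' (i, e.succ.castSucc)) :
    AlgebraicIndependent (ad K {u}) x' := by
  classical
  have h1 : AlgebraicIndependent (ad K {u}) a' := indep_ad ha (tr_mono (gn_le hKM haM) hu)
  set L := ad K {u} with hL
  have h2 : AlgebraicIndependent L (Sum.elim (fun i : I => a' (i, 0))
      (fun p : I × Fin (m + 2) => a' (p.1, p.2.succ))) := by
    have h3 := h1.comp (Sum.elim (fun i : I => (i, (0 : Fin (m + 3))))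
      fun p : I × Fin (m + 2) => (p.1, p.2.succ)) (by
      rintro (i | ⟨i, e⟩) (j | ⟨j, e'⟩) hij
      · rw [(Prod.mk.inj hij).1]
      · exact absurd (Prod.mk.inj hij).2 (Fin.succ_ne_zero _).symm
      · exact absurd (Prod.mk.inj hij).2 (Fin.succ_ne_zero _)
      · have h4 : i = j := (Prod.mk.inj hij).1
        have h5 : e = e' := Fin.succ_injective _ (Prod.mk.inj hij).2
        rw [h4, h5])
    convert h3 using 1
    funext i
    rcases i with i | i <;> rfl
  set K2 := gn L (fun p : I × Fin (m + 2) => a' (p.1, p.2.succ)) with hK2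
  have h3 : AlgebraicIndependent K2 (fun i : I => a' (i, 0)) := (indep_sum_iff.1 h2).2
  have hLK2 : L ≤ K2 := le_gn
  have h4 : AlgebraicIndependent K2 (fun i : I => x' (i, 0)) := by
    have h5 := indep_add h3 (d := fun i => c * a' (i, 1) + u * a' (i, Fin.last _)) (by
      intro i
      refine K2.add_mem (K2.mul_mem (hLK2 (le_ad hc)) ?_) (K2.mul_mem (hLK2 mem_adE) ?_)
      · exact mem_gn (x := fun p : I × Fin (m + 2) => a' (p.1, p.2.succ)) (i, 0)
      · exact mem_gn (x := fun p : I × Fin (m + 2) => a' (p.1, p.2.succ)) (i, Fin.last _))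
    convert h5 using 1
    funext i
    rw [hx0]
    ring
  have h5 : AlgebraicIndependent L (fun p : I × Fin (m + 1) => x' (p.1, p.2.succ)) := by
    have h6 := h1.comp (fun p : I × Fin (m + 1) => (p.1, p.2.succ.castSucc)) (by
      rintro ⟨i, e⟩ ⟨j, e'⟩ hij
      have h4 : i = j := (Prod.mk.inj hij).1
      have h5 : e = e' := Fin.succ_injective _ (Fin.castSucc_injective _ (Prod.mk.inj hij).2)
      rw [h4, h5])
    convert h6 using 1
    funext p
    exact hx1 _ _
  have h6 : AlgebraicIndependent L (Sum.elim (fun i : I => x' (i, 0))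
      (fun p : I × Fin (m + 1) => x' (p.1, p.2.succ))) := by
    refine indep_sum_iff.2 ⟨h5, indep_mono (gn_le hLK2 fun p => ?_) h4⟩
    rw [hx1]
    exact mem_gn (x := fun p : I × Fin (m + 2) => a' (p.1, p.2.succ)) (p.1, p.2.castSucc)
  have h7 := h6.comp (fun p : I × Fin (m + 2) =>
    (Fin.cases (Sum.inl p.1) (fun e => Sum.inr (p.1, e)) p.2 : I ⊕ (I × Fin (m + 1)))) (by
    rintro ⟨i, e⟩ ⟨j, e'⟩ hij
    rcases Fin.eq_zero_or_eq_succ e with rfl | ⟨e, rfl⟩ <;>
      rcases Fin.eq_zero_or_eq_succ e' with rfl | ⟨e', rfl⟩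
    · have h8 : (Sum.inl i : I ⊕ (I × Fin (m + 1))) = Sum.inl j := hij
      rw [Sum.inl_injective h8]
    · have h8 : (Sum.inl i : I ⊕ (I × Fin (m + 1))) = Sum.inr (j, e') := hij
      exact absurd h8 Sum.inl_ne_inr
    · have h8 : (Sum.inr (i, e) : I ⊕ (I × Fin (m + 1))) = Sum.inl j := hij
      exact absurd h8 Sum.inr_ne_inl
    · have h8 : (Sum.inr (i, e) : I ⊕ (I × Fin (m + 1))) = Sum.inr (j, e') := hij
      have h9 := Prod.mk.inj (Sum.inr_injective h8)
      rw [h9.1, h9.2])
  convert h7 using 1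
  funext p
  obtain ⟨i, e⟩ := p
  rcases Fin.eq_zero_or_eq_succ e with rfl | ⟨e, rfl⟩
  · rfl
  · rfl

end Pool.Agent.OPG
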