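import Pool.Agent.Helper13.OPG.Defs
import Pool.Agent.Helper13.OPN.A
import Pool.Agent.Helper13.PL.S1

/-!
# Project OPG, uniform version: the key statement
-/

universe u v

namespace Pool.Agent.OPG

open IntermediateField Pool.Agent.Helper37.UL UL Pool.Agent.OPN Pool.Agent.BT

/-- The vector `f` of elements of `k` (a field of constants `F ≤ k`, an algebraic closure `C` of `k`, an
embedding `ι : k₀ → k`) comes from a vector with the property `P` over a finitely generated field `k'`, whose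
image in `C` is the image of the subfield `Kb` of `k`. -/
def Mod {k₀ : Type u} [Field k₀] {F k C : Type u} [Field F] [Field k] [Algebra F k] [Field C]
    [Algebra k C] (ι : k₀ →+* k) (Kb : Subfield k) {I : Type}
    (P : ∀ (k' : Type u) [Field k'], (k₀ →+* k') → (I → k') → Prop) (f : I → k) : Prop :=
  ∃ (k₁ k' : Type u) (_ : Field k₁) (_ : CharZero k₁) (_ : Field k') (_ : Algebra k₁ k') (T' : k')
    (ψ : AlgebraicClosure k' →+* C) (ι' : k₀ →+* k') (f' : I → k'),
    (∃ S : Finset k₁, Subfield.closure (S : Set k₁) = ⊤) ∧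
    FiniteDimensional (adjoin k₁ {T'}) k' ∧
    Kb.map (algebraMap k C) = (ψ.comp (algebraMap k' (AlgebraicClosure k'))).fieldRange ∧
    (∀ a : k₁, ∃ b : F, algebraMap k C (algebraMap F k b) =
      ψ (algebraMap k' (AlgebraicClosure k') (algebraMap k₁ k' a))) ∧
    (∀ x, algebraMap k C (ι x) = ψ (algebraMap k' (AlgebraicClosure k') (ι' x))) ∧
    (∀ i, algebraMap k C (f i) = ψ (algebraMap k' (AlgebraicClosure k') (f' i))) ∧
    P k' ι' f'

/-- **The key statement, uniform version**: the hypotheses of `no_familyO`, and every curve of the family comes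
from a curve with the property `P` over a finitely generated field. -/
def KeyG (k₀ : Type u) [Field k₀] {I : Type}
    (P : ∀ (k' : Type u) [Field k'], (k₀ →+* k') → (I → k') → Prop) : Prop :=
  ∀ {J F k C : Type u} [Field F] [CharZero F] [Field k] [Algebra F k] [Field C]
    [Algebra k C] [Algebra F C] [IsScalarTower F k C] [IsAlgClosure k C]
    (ι : k₀ →+* k) {T q : k} (_ : Transcendental F T) (_ : adjoin F {T, q} = ⊤)
    {κ : Subfield C} (_ : ∀ c : C, c ∈ κ ↔ IsAlgebraic F c)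
    {Fs κs : Subfield C} (_ : Fs ≤ (algebraMap F C).fieldRange)
    (_ : ∀ c : C, c ∈ κs ↔ IsAlgebraic Fs c)
    (_ : IsAlgebraic (gen Fs ![algebraMap k C T]) (algebraMap k C q))
    (_ : ∀ a : k₀, algebraMap k C (ι a) ∈
      Subfield.closure ((Fs : Set C) ∪ {algebraMap k C T, algebraMap k C q}))
    (_ : TH.SplitAt κs (algebraMap k C T) (algebraMap k C q)) {m : ℕ}
    {w : Fin (m + 2) → k₀} (_ : w 0 = 1) (_ : ι (w 1) = T)
    {Uf : Ultrafilter J} {S : Type u} [Field S] {π : (J → C) →+* S} (h : UP Uf π)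
    {vv : J → I × Fin (m + 2) → F}
    (_ : AlgebraicIndependent (Fs.map (UP.cst π)) (xg π fun j i => algebraMap F C (vv j i)))
    (_ : ∀ z ∈ h.gsub (algebraMap F C).fieldRange,
      IsAlgebraic (gn (Fs.map (UP.cst π)) (xg π fun j i => algebraMap F C (vv j i))) z →
      z ∈ gn (acl (hi (κs.map (UP.cst π)) (xg π fun j i => algebraMap F C (vv j i))))
        (xg π fun j i => algebraMap F C (vv j i)))
    {Kb : J → Subfield k} (_ : ∀ a (y : k), algebraMap k C y ∈ Fs → y ∈ Kb a)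
    (_ : ∀ a, T ∈ Kb a) (_ : ∀ a, q ∈ Kb a) (_ : ∀ a i, algebraMap F k (vv a i) ∈ Kb a)
    (_ : ∀ j, Mod (F := F) (C := C) ι (Kb j) P (PL.sysW (ι ∘ w) (vv j))), False

/-- **The key statement, uniform version**, for `w 0 ≠ 0` instead of `w 0 = 1`. -/
def KeyGW (k₀ : Type u) [Field k₀] {I : Type}
    (P : ∀ (k' : Type u) [Field k'], (k₀ →+* k') → (I → k') → Prop) : Prop :=
  ∀ {J F k C : Type u} [Field F] [CharZero F] [Field k] [Algebra F k] [Field C]
    [Algebra k C] [Algebra F C] [IsScalarTower F k C] [IsAlgClosure k C]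
    (ι : k₀ →+* k) {T q : k} (_ : Transcendental F T) (_ : adjoin F {T, q} = ⊤)
    {κ : Subfield C} (_ : ∀ c : C, c ∈ κ ↔ IsAlgebraic F c)
    {Fs κs : Subfield C} (_ : Fs ≤ (algebraMap F C).fieldRange)
    (_ : ∀ c : C, c ∈ κs ↔ IsAlgebraic Fs c)
    (_ : IsAlgebraic (gen Fs ![algebraMap k C T]) (algebraMap k C q))
    (_ : ∀ a : k₀, algebraMap k C (ι a) ∈
      Subfield.closure ((Fs : Set C) ∪ {algebraMap k C T, algebraMap k C q})) {m : ℕ}
    {w : Fin (m + 2) → k₀}
    (_ : TH.SplitW κs (algebraMap k C T) (algebraMap k C q) (fun l => algebraMap k C (ι (w l))))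
    (_ : w 0 ≠ 0) (_ : ι (w 1) = T * ι (w 0))
    {Uf : Ultrafilter J} {S : Type u} [Field S] {π : (J → C) →+* S} (h : UP Uf π)
    {vv : J → I × Fin (m + 2) → F}
    (_ : AlgebraicIndependent (Fs.map (UP.cst π)) (xg π fun j i => algebraMap F C (vv j i)))
    (_ : ∀ z ∈ h.gsub (algebraMap F C).fieldRange,
      IsAlgebraic (gn (Fs.map (UP.cst π)) (xg π fun j i => algebraMap F C (vv j i))) z →
      z ∈ gn (acl (hi (κs.map (UP.cst π)) (xg π fun j i => algebraMap F C (vv j i))))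
        (xg π fun j i => algebraMap F C (vv j i)))
    {Kb : J → Subfield k} (_ : ∀ a (y : k), algebraMap k C y ∈ Fs → y ∈ Kb a)
    (_ : ∀ a, T ∈ Kb a) (_ : ∀ a, q ∈ Kb a) (_ : ∀ a i, algebraMap F k (vv a i) ∈ Kb a)
    (_ : ∀ j, Mod (F := F) (C := C) ι (Kb j) P (PL.sysW (ι ∘ w) (vv j))), False

theorem keyGW_of_keyG {k₀ : Type u} [Field k₀] {I : Type}
    {P : ∀ (k' : Type u) [Field k'], (k₀ →+* k') → (I → k') → Prop}
    (hP : ∀ (k' : Type u) [Field k'] (ι : k₀ →+* k') (c : k') (f : I → k'), c ≠ 0 → P k' ι f →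
      P k' ι fun q => c * f q) (key : KeyG k₀ P) : KeyGW k₀ P := by
  intro J F k C _ _ _ _ _ _ _ _ _ ι T q hT htop κ hκ Fs κs hFs hκs hq hι m w hs hw0 hw1 Uf S _ π h vv
    hx hwr Kb hKF hKT hKq hKv hmod
  refine key ι hT htop hκ hFs hκs hq hι hs.splitAt (w := fun e => (w 0)⁻¹ * w e)
    (inv_mul_cancel₀ hw0) ?_ h hx hwr hKF hKT hKq hKv fun j => ?_
  · have h0 : ι (w 0) ≠ 0 := (map_ne_zero ι).2 hw0
    rw [map_mul, map_inv₀, hw1, mul_comm, mul_assoc, mul_inv_cancel₀ h0, mul_one]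
  · obtain ⟨k₁, k', i1, i2, i3, i4, T', ψ, ι', f', h1, h2, h3, h4, h5, h6, h7⟩ := hmod j
    refine ⟨k₁, k', i1, i2, i3, i4, T', ψ, ι', fun i => ι' (w 0)⁻¹ * f' i, h1, h2, h3, h4, h5,
      fun i => ?_, hP k' ι' _ f' ((map_ne_zero ι').2 (inv_ne_zero hw0)) h7⟩
    rw [map_mul, map_mul, ← h5, ← h6, ← map_mul]
    congr 1
    unfold PL.sysW
    rw [Finset.mul_sum]
    refine Finset.sum_congr rfl fun e _ => ?_
    simp only [Function.comp_apply, map_mul]
    ring

end Pool.Agent.OPG
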