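import Pool.Agent.Helper13.OPG.E5

/-!
# Project OPG, uniform version: the reduction to the key statement
-/

universe u

namespace Pool.Agent.OPG

open IntermediateField Pool.Agent.OPN Pool.Agent.Helper37.UL UL

/-- an ultrafilter which avoids all hypersurfaces -/
theorem exists_dense {F₀ C : Type u} [Field F₀] [Field C] [Algebra F₀ C] {Q : Type} {J : Type u}
    (b : J → Q → C)
    (hS : ∀ Ψ : MvPolynomial Q F₀, Ψ ≠ 0 → ∃ j, MvPolynomial.aeval (b j) Ψ ≠ 0) :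
    ∃ U : Ultrafilter J, ∀ Ψ : MvPolynomial Q F₀, Ψ ≠ 0 →
      ∀ᶠ j in (U : Filter J), MvPolynomial.aeval (b j) Ψ ≠ 0 := by
  classical
  obtain ⟨U, hU⟩ := Ultrafilter.exists_ultrafilter_of_finite_inter_nonempty
    {A : Set J | ∃ Ψ : MvPolynomial Q F₀, Ψ ≠ 0 ∧ A = {j | MvPolynomial.aeval (b j) Ψ ≠ 0}} (by
    intro T hT
    have hT' : ∀ A ∈ T, ∃ Ψ : MvPolynomial Q F₀, Ψ ≠ 0 ∧
      A = {j | MvPolynomial.aeval (b j) Ψ ≠ 0} := fun A hA => hT hA
    choose! Ψ hΨ0 hΨ using hT'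
    obtain ⟨j, ha0⟩ := hS (∏ A ∈ T, Ψ A) (Finset.prod_ne_zero_iff.mpr hΨ0)
    rw [map_prod, Finset.prod_ne_zero_iff] at ha0
    refine ⟨j, ?_⟩
    rw [Set.mem_sInter]
    intro A hA
    rw [hΨ A hA]
    exact ha0 A hA)
  exact ⟨U, fun Ψ hΨ => hU ⟨Ψ, hΨ, rfl⟩⟩

/-- a permutation with given values at `0`, `1` and the last index -/
theorem exists_perm3 {m : ℕ} {i j l : Fin (m + 3)} (hil : i ≠ l) (hjl : j ≠ l) (hij : i ≠ j) :
    ∃ g : Fin (m + 3) ≃ Fin (m + 3), g 0 = l ∧ g 1 = i ∧ g (Fin.last _) = j := by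
  classical
  have h01 : (0 : Fin (m + 3)) ≠ 1 := by
    intro h
    have := congrArg Fin.val h
    simp at this
  have h0l : (0 : Fin (m + 3)) ≠ Fin.last _ := by
    intro h
    have := congrArg Fin.val h
    simp at this
  have h1l : (1 : Fin (m + 3)) ≠ Fin.last _ := by
    intro h
    have := congrArg Fin.val h
    simp at this
  let i' : Fin (m + 3) := Equiv.swap 0 l i
  have hi' : i' ≠ 0 := by
    intro h
    have h1 : Equiv.swap 0 l i' = i := Equiv.swap_apply_self 0 l i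
    rw [h, Equiv.swap_apply_left] at h1
    exact hil h1.symm
  let g₂ : Fin (m + 3) ≃ Fin (m + 3) := (Equiv.swap 1 i').trans (Equiv.swap 0 l)
  have hg0 : g₂ 0 = l := by
    change Equiv.swap 0 l (Equiv.swap 1 i' 0) = l
    rw [Equiv.swap_apply_of_ne_of_ne h01 (Ne.symm hi'), Equiv.swap_apply_left]
  have hg1 : g₂ 1 = i := by
    change Equiv.swap 0 l (Equiv.swap 1 i' 1) = i
    rw [Equiv.swap_apply_left]
    exact Equiv.swap_apply_self 0 l i
  let j' : Fin (m + 3) := g₂.symm j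
  have hj0 : (0 : Fin (m + 3)) ≠ j' := by
    intro h
    apply hjl
    rw [← hg0, h, Equiv.apply_symm_apply]
  have hj1 : (1 : Fin (m + 3)) ≠ j' := by
    intro h
    apply hij
    rw [← hg1, h, Equiv.apply_symm_apply]
  refine ⟨(Equiv.swap (Fin.last _) j').trans g₂, ?_, ?_, ?_⟩
  · change g₂ (Equiv.swap (Fin.last _) j' 0) = l
    rw [Equiv.swap_apply_of_ne_of_ne h0l hj0, hg0]
  · change g₂ (Equiv.swap (Fin.last _) j' 1) = i
    rw [Equiv.swap_apply_of_ne_of_ne h1l hj1, hg1]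
  · change g₂ (Equiv.swap (Fin.last _) j' (Fin.last _)) = j
    rw [Equiv.swap_apply_left]
    exact Equiv.apply_symm_apply g₂ j

/-- The reduction for the indices `0`, `1`, `m + 2`. -/
theorem closed_norm_of_keyGW {F₀ k₀ : Type u} [Field F₀] [CharZero F₀] [Field k₀] [Algebra F₀ k₀]
    {I : Type} [Finite I] {P : ∀ (k' : Type u) [Field k'], (k₀ →+* k') → (I → k') → Prop}
    (key : KeyGW k₀ P)
    (hk₀ : ∃ S : Finset k₀, Subfield.closure (S : Set k₀) = ⊤) {m : ℕ} {w : Fin (m + 3) → k₀}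
    (hw0 : w 0 ≠ 0) (hT : AlgebraicIndependent F₀ ![w 1 / w 0, w (Fin.last _) / w 0]) :
    ∃ Ψ : MvPolynomial (I × Fin (m + 3)) F₀, Ψ ≠ 0 ∧
      ∀ (F k : Type u) [Field F] [Field k] [Algebra F₀ F] [Algebra F k] [Algebra k₀ k]
        [Algebra F₀ k] [IsScalarTower F₀ F k] [IsScalarTower F₀ k₀ k],
        (∃ S : Finset F, Subfield.closure (S : Set F) = ⊤) →
        adjoin F (Set.range (algebraMap k₀ k)) = ⊤ →
        (∀ {n : ℕ} {x : Fin n → k₀}, AlgebraicIndependent F₀ x →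
          AlgebraicIndependent F (algebraMap k₀ k ∘ x)) →
        ∀ a : I × Fin (m + 3) → F,
          P k (algebraMap k₀ k) (PL.sysW (algebraMap k₀ k ∘ w) a) → MvPolynomial.aeval a Ψ = 0 := by
  classical
  by_contra hcon
  push Not at hcon
  obtain ⟨n, s, c, q, hb, hq, htop, hsplit⟩ :=
    fin_data hk₀ hT (m := m + 1) (fun e : Fin (m + 2) => w e.castSucc) hw0
  obtain ⟨C, _, _, y, _, hy⟩ := exists_std F₀ (ℕ ⊕ (Fin n ⊕ Fin 2))
  let J : Type u := {Ψ : MvPolynomial (I × Fin (m + 3)) F₀ // Ψ ≠ 0}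
  have hloc : ∀ j : J, ∃ (σ : k₀ →+* C) (b : I × Fin (m + 3) → C) (Kc : Subfield C),
      (∀ c : F₀, σ (algebraMap F₀ k₀ c) = algebraMap F₀ C c) ∧
      (∀ i, σ (Sum.elim s ![w (Fin.last _) / w 0, w 1 / w 0] i) = y (Sum.inr i)) ∧
      MvPolynomial.aeval b j.1 ≠ 0 ∧
      Loc (acl (gn (algebraMap F₀ C).fieldRange fun i : ℕ => y (Sum.inl i)))
        (ad (acl (gn (acl (gn (algebraMap F₀ C).fieldRange fun i : ℕ => y (Sum.inl i)))
          fun i : Fin n => y (Sum.inr (Sum.inl i)))) {y (Sum.inr (Sum.inr 0))}) w P σ b Kc := by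
    intro j
    obtain ⟨F, k, _, _, _, _, _, _, _, _, hF, hk, hfree, a, hP, ha⟩ := hcon j.1 j.2
    exact exists_loc hb hq htop hy.1 hF hk hfree hP ha
  choose σ b Kc h0 hb1 hne hL using hloc
  obtain ⟨Uf, hU⟩ := exists_dense b (fun Ψ hΨ => ⟨(⟨Ψ, hΨ⟩ : J), hne _⟩)
  exact core_false hq htop hsplit hy hw0 (div_mul_cancel₀ _ hw0).symm
    (div_mul_cancel₀ _ hw0).symm key Uf h0 hb1 hL hU

/-- **(D') The reduction to the key statement, uniform version**, for `KeyGW`. -/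
theorem closed_of_keyGW {F₀ k₀ : Type u} [Field F₀] [CharZero F₀] [Field k₀] [Algebra F₀ k₀]
    {I : Type} [Finite I] {P : ∀ (k' : Type u) [Field k'], (k₀ →+* k') → (I → k') → Prop}
    (key : KeyGW k₀ P)
    (hk₀ : ∃ S : Finset k₀, Subfield.closure (S : Set k₀) = ⊤) {m : ℕ} {w : Fin (m + 1) → k₀}
    {i j l : Fin (m + 1)} (hT : AlgebraicIndependent F₀ ![w i / w l, w j / w l]) :
    ∃ Ψ : MvPolynomial (I × Fin (m + 1)) F₀, Ψ ≠ 0 ∧
      ∀ (F k : Type u) [Field F] [Field k] [Algebra F₀ F] [Algebra F k] [Algebra k₀ k]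
        [Algebra F₀ k] [IsScalarTower F₀ F k] [IsScalarTower F₀ k₀ k],
        (∃ S : Finset F, Subfield.closure (S : Set F) = ⊤) →
        adjoin F (Set.range (algebraMap k₀ k)) = ⊤ →
        (∀ {n : ℕ} {x : Fin n → k₀}, AlgebraicIndependent F₀ x →
          AlgebraicIndependent F (algebraMap k₀ k ∘ x)) →
        ∀ a : I × Fin (m + 1) → F,
          P k (algebraMap k₀ k) (PL.sysW (algebraMap k₀ k ∘ w) a) → MvPolynomial.aeval a Ψ = 0 := by
  classical
  have hT0 : Transcendental F₀ (w i / w l) := hT.transcendental 0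
  have hT1 : Transcendental F₀ (w j / w l) := hT.transcendental 1
  have hl : w l ≠ 0 := by
    intro h0
    rw [h0, div_zero] at hT0
    exact hT0 isAlgebraic_zero
  have hil : i ≠ l := by
    rintro rfl
    rw [div_self hl] at hT0
    exact hT0 isAlgebraic_one
  have hjl : j ≠ l := by
    rintro rfl
    rw [div_self hl] at hT1
    exact hT1 isAlgebraic_one
  have hij : i ≠ j := by
    rintro rfl
    have h1 := hT.injective (a₁ := 0) (a₂ := 1) rfl
    simp at h1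
  obtain ⟨m', rfl⟩ : ∃ m', m = m' + 2 := by
    refine ⟨m - 2, ?_⟩
    have h1 := i.2
    have h2 := j.2
    have h3 := l.2
    have h4 : (i : ℕ) ≠ l := fun h => hil (Fin.ext h)
    have h5 : (j : ℕ) ≠ l := fun h => hjl (Fin.ext h)
    have h6 : (i : ℕ) ≠ j := fun h => hij (Fin.ext h)
    omega
  obtain ⟨g, hg0, hg1, hgl⟩ := exists_perm3 hil hjl hij
  obtain ⟨Ψ, hΨ, h1⟩ := closed_norm_of_keyGW key hk₀ (w := w ∘ g) (by
    change w (g 0) ≠ 0
    rw [hg0]; exact hl) (by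
    change AlgebraicIndependent F₀ ![w (g 1) / w (g 0), w (g (Fin.last _)) / w (g 0)]
    rw [hg0, hg1, hgl]; exact hT)
  refine ⟨MvPolynomial.rename (Equiv.prodCongr (Equiv.refl I) g) Ψ, fun h0 => hΨ ?_, ?_⟩
  · exact (map_eq_zero_iff _ (MvPolynomial.rename_injective _ (Equiv.injective _))).1 h0
  · intro F k _ _ _ _ _ _ _ _ hF hk hfree a ha
    rw [MvPolynomial.aeval_rename]
    refine h1 F k hF hk hfree _ ?_
    have h2 := PL.sysW_reindex (algebraMap k₀ k ∘ w) g a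
    rw [← h2] at ha
    exact ha

/-- **(D') The reduction to the key statement, uniform version.** -/
theorem closed_of_keyG {F₀ k₀ : Type u} [Field F₀] [CharZero F₀] [Field k₀] [Algebra F₀ k₀]
    {I : Type} [Finite I] {P : ∀ (k' : Type u) [Field k'], (k₀ →+* k') → (I → k') → Prop}
    (hP : ∀ (k' : Type u) [Field k'] (ι : k₀ →+* k') (c : k') (f : I → k'), c ≠ 0 → P k' ι f →
      P k' ι fun q => c * f q) (key : KeyG k₀ P)
    (_ : ∃ S : Finset F₀, Subfield.closure (S : Set F₀) = ⊤)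
    (hk₀ : ∃ S : Finset k₀, Subfield.closure (S : Set k₀) = ⊤) {m : ℕ} {w : Fin (m + 1) → k₀}
    {i j l : Fin (m + 1)} (hT : AlgebraicIndependent F₀ ![w i / w l, w j / w l]) :
    ∃ Ψ : MvPolynomial (I × Fin (m + 1)) F₀, Ψ ≠ 0 ∧
      ∀ (F k : Type u) [Field F] [Field k] [Algebra F₀ F] [Algebra F k] [Algebra k₀ k]
        [Algebra F₀ k] [IsScalarTower F₀ F k] [IsScalarTower F₀ k₀ k],
        (∃ S : Finset F, Subfield.closure (S : Set F) = ⊤) →
        adjoin F (Set.range (algebraMap k₀ k)) = ⊤ →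
        (∀ {n : ℕ} {x : Fin n → k₀}, AlgebraicIndependent F₀ x →
          AlgebraicIndependent F (algebraMap k₀ k ∘ x)) →
        ∀ a : I × Fin (m + 1) → F,
          P k (algebraMap k₀ k) (PL.sysW (algebraMap k₀ k ∘ w) a) → MvPolynomial.aeval a Ψ = 0 :=
  closed_of_keyGW (keyGW_of_keyG hP key) hk₀ hT

end Pool.Agent.OPG
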