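import Pool.Agent.Helper13.OPG.E3
import Pool.Agent.Helper13.PL.S1

/-!
# Project OPG, uniform version: the data of one curve in the common field
-/

universe u v w

namespace Pool.Agent.OPG

open IntermediateField Pool.Agent.OPN Pool.Agent.Helper37.UL UL

/-- What a curve over a composite field gives in the common algebraically closed field `C`. -/
def Loc {k₀ C : Type u} [Field k₀] [Field C] (Ω₀ FB : Subfield C) {I : Type} {m : ℕ}
    (w : Fin (m + 1) → k₀) (P : ∀ (k' : Type u) [Field k'], (k₀ →+* k') → (I → k') → Prop)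
    (σ : k₀ →+* C) (b : I × Fin (m + 1) → C) (Kc : Subfield C) : Prop :=
  (∀ p, b p ∈ Ω₀) ∧ (∀ x, σ x ∈ Kc) ∧ (∀ p, b p ∈ Kc) ∧ Kc ≤ ad Ω₀ (Set.range σ) ∧
  ∃ (k₁ k' : Type u) (_ : Field k₁) (_ : CharZero k₁) (_ : Field k') (_ : Algebra k₁ k') (T' : k')
    (ψ : AlgebraicClosure k' →+* C) (ι' : k₀ →+* k') (f' : I → k'),
    (∃ S : Finset k₁, Subfield.closure (S : Set k₁) = ⊤) ∧
    FiniteDimensional (adjoin k₁ {T'}) k' ∧
    Kc = (ψ.comp (algebraMap k' (AlgebraicClosure k'))).fieldRange ∧
    (∀ a : k₁, ψ (algebraMap k' (AlgebraicClosure k') (algebraMap k₁ k' a)) ∈ FB) ∧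
    (∀ x, σ x = ψ (algebraMap k' (AlgebraicClosure k') (ι' x))) ∧
    (∀ i, ∑ e, b (i, e) * σ (w e) = ψ (algebraMap k' (AlgebraicClosure k') (f' i))) ∧
    P k' ι' f'

/-- **The data of one curve.** -/
theorem exists_loc {F₀ k₀ : Type u} [Field F₀] [CharZero F₀] [Field k₀] [Algebra F₀ k₀] {n : ℕ}
    {s : Fin n → k₀} {u T q : k₀} (hb : IsTranscendenceBasis F₀ (Sum.elim s ![u, T]))
    (hq : IsAlgebraic (ad (ad (gn (algebraMap F₀ k₀).fieldRange s) {u}) {T}) q)
    (htop : ad (ad (gn (algebraMap F₀ k₀).fieldRange s) {u}) {T, q} = ⊤)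
    {C : Type u} [Field C] [Algebra F₀ C] [IsAlgClosed C] {y : ℕ ⊕ (Fin n ⊕ Fin 2) → C}
    (hy : AlgebraicIndependent F₀ y) {I : Type} {m : ℕ} {w : Fin (m + 1) → k₀}
    {P : ∀ (k' : Type u) [Field k'], (k₀ →+* k') → (I → k') → Prop}
    {F k : Type u} [Field F] [Field k] [Algebra F₀ F] [Algebra F k] [Algebra k₀ k] [Algebra F₀ k]
    [IsScalarTower F₀ F k] [IsScalarTower F₀ k₀ k]
    (hF : ∃ S : Finset F, Subfield.closure (S : Set F) = ⊤)
    (hk : adjoin F (Set.range (algebraMap k₀ k)) = ⊤)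
    (hfree : ∀ {n : ℕ} {x : Fin n → k₀}, AlgebraicIndependent F₀ x →
      AlgebraicIndependent F (algebraMap k₀ k ∘ x)) {a : I × Fin (m + 1) → F}
    (hP : P k (algebraMap k₀ k) (PL.sysW (algebraMap k₀ k ∘ w) a))
    {Ψ : MvPolynomial (I × Fin (m + 1)) F₀} (hΨ : MvPolynomial.aeval a Ψ ≠ 0) :
    ∃ (σ : k₀ →+* C) (b : I × Fin (m + 1) → C) (Kc : Subfield C),
      (∀ c : F₀, σ (algebraMap F₀ k₀ c) = algebraMap F₀ C c) ∧
      (∀ i, σ (Sum.elim s ![u, T] i) = y (Sum.inr i)) ∧ MvPolynomial.aeval b Ψ ≠ 0 ∧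
      Loc (acl (gn (algebraMap F₀ C).fieldRange fun i : ℕ => y (Sum.inl i)))
        (ad (acl (gn (acl (gn (algebraMap F₀ C).fieldRange fun i : ℕ => y (Sum.inl i)))
          fun i : Fin n => y (Sum.inr (Sum.inl i)))) {y (Sum.inr (Sum.inr 0))}) w P σ b Kc := by
  classical
  have hfree' : AlgebraicIndependent F (algebraMap k₀ k ∘ Sum.elim s ![u, T]) := by
    have h1 : AlgebraicIndependent F₀ (Sum.elim s ![u, T] ∘ finSumFinEquiv.symm) :=
      hb.1.comp _ finSumFinEquiv.symm.injective
    have h2 := (hfree h1).comp finSumFinEquiv finSumFinEquiv.injective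
    convert h2 using 1
    funext i
    simp only [Function.comp_apply, Equiv.symm_apply_apply]
  obtain ⟨ψ, hψ0, hψF, hψb⟩ := per hb hy hF hk hfree'
  set Ω₀ : Subfield C := acl (gn (algebraMap F₀ C).fieldRange fun i : ℕ => y (Sum.inl i)) with hΩ₀
  set Ω : Subfield C := acl (gn Ω₀ fun i : Fin n => y (Sum.inr (Sum.inl i))) with hΩ
  let ψk : k →+* C := ψ.comp (algebraMap k (AlgebraicClosure k))
  let ψF : F →+* C := ψk.comp (algebraMap F k)
  let σ : k₀ →+* C := ψk.comp (algebraMap k₀ k)
  have hσ0 : ∀ c : F₀, σ (algebraMap F₀ k₀ c) = algebraMap F₀ C c := by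
    intro c
    change ψ (algebraMap k (AlgebraicClosure k) (algebraMap k₀ k (algebraMap F₀ k₀ c))) = _
    rw [← IsScalarTower.algebraMap_apply F₀ k₀ k]
    exact hψ0 c
  have hk0 : CharZero k := charZero_of_injective_algebraMap (algebraMap F₀ k).injective
  have hbot : (⊤ : Subfield k) = ad (algebraMap F k).fieldRange (Set.range (algebraMap k₀ k)) := by
    rw [← adjoin_sub, hk]
    rfl
  refine ⟨σ, fun p => ψF (a p), ψk.fieldRange, hσ0, fun i => hψb i, ?_, fun p => hψF (a p),
    fun x => ⟨_, rfl⟩, fun p => ⟨_, rfl⟩, ?_, ?_⟩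
  · have h1 : MvPolynomial.aeval (fun p => ψF (a p)) Ψ = ψF (MvPolynomial.aeval a Ψ) := by
      rw [MvPolynomial.aeval_def, MvPolynomial.aeval_def, MvPolynomial.eval₂_comp_left]
      congr 1
      refine RingHom.ext fun c => ?_
      change algebraMap F₀ C c = ψ (algebraMap k (AlgebraicClosure k) (algebraMap F k
        (algebraMap F₀ F c)))
      rw [← IsScalarTower.algebraMap_apply F₀ F k]
      exact (hψ0 c).symm
    rw [h1]
    exact (map_ne_zero ψF).2 hΨ
  · rintro _ ⟨x, rfl⟩
    have h1 : ad (algebraMap F k).fieldRange (Set.range (algebraMap k₀ k)) ≤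
        (ad Ω₀ (Set.range σ)).comap ψk := by
      refine ad_le ?_ ?_
      · rintro _ ⟨c, rfl⟩
        exact le_ad (hψF c)
      · rintro _ ⟨c, rfl⟩
        exact mem_ad ⟨c, rfl⟩
    rw [← hbot] at h1
    exact h1 (Subfield.mem_top x)
  · let g : Fin (n + 1) → k := algebraMap k₀ k ∘ (Fin.cons u s : Fin (n + 1) → k₀)
    let k₁ : IntermediateField F k := adjoin F (Set.range g)
    have hk₁ := RR.fg_adjoin hF g
    have hF0 : CharZero F := charZero_of_injective_algebraMap (algebraMap F₀ F).injective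
    have hk₁0 : CharZero k₁ := charZero_of_injective_algebraMap (algebraMap F k₁).injective
    let T' : k := algebraMap k₀ k T
    let q' : k := algebraMap k₀ k q
    have hrg : ∀ z, z ∈ Set.range g ↔ z = algebraMap k₀ k u ∨ ∃ i, z = algebraMap k₀ k (s i) := by
      intro z
      constructor
      · rintro ⟨i, rfl⟩
        rcases Fin.eq_zero_or_eq_succ i with rfl | ⟨i, rfl⟩
        · exact Or.inl rfl
        · exact Or.inr ⟨i, rfl⟩
      · rintro (rfl | ⟨i, rfl⟩)
        · exact ⟨0, rfl⟩
        · exact ⟨i.succ, rfl⟩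
    have hk₁sub : k₁.toSubfield = ad (algebraMap F k).fieldRange (Set.range g) := adjoin_sub _
    -- the image of the small field
    have hA : ∀ x ∈ ad (gn (algebraMap F₀ k₀).fieldRange s) {u}, algebraMap k₀ k x ∈ k₁ := by
      intro x hx
      have h1 : ad (gn (algebraMap F₀ k₀).fieldRange s) {u} ≤ k₁.toSubfield.comap (algebraMap k₀ k) := by
        refine ad_le (gn_le ?_ ?_) ?_
        · rintro _ ⟨c, rfl⟩
          change algebraMap k₀ k (algebraMap F₀ k₀ c) ∈ k₁
          rw [← IsScalarTower.algebraMap_apply F₀ k₀ k, IsScalarTower.algebraMap_apply F₀ F k]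
          exact k₁.algebraMap_mem _
        · intro i
          exact subset_adjoin F _ ((hrg _).2 (Or.inr ⟨i, rfl⟩))
        · rintro _ rfl
          exact subset_adjoin F _ ((hrg _).2 (Or.inl rfl))
      exact h1 hx
    let KT : IntermediateField k₁ k := adjoin k₁ {T'}
    have hA2 : ∀ x ∈ ad (ad (gn (algebraMap F₀ k₀).fieldRange s) {u}) {T},
        algebraMap k₀ k x ∈ KT.toSubfield := by
      intro x hx
      have h1 : ad (ad (gn (algebraMap F₀ k₀).fieldRange s) {u}) {T} ≤
          KT.toSubfield.comap (algebraMap k₀ k) := by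
        refine ad_le (fun z hz => ?_) ?_
        · exact KT.algebraMap_mem ⟨_, hA z hz⟩
        · rintro _ rfl
          exact mem_adjoin_simple_self k₁ T'
      exact h1 hx
    have hq' : IsAlgebraic KT q' := alg_map' (algebraMap k₀ k) hA2 hq
    have htop' : adjoin KT {q'} = ⊤ := by
      rw [eq_top_iff]
      intro x _
      have h2 : ∀ z : k₀, algebraMap k₀ k z ∈ adjoin KT {q'} := by
        intro z
        have h3 : ad (ad (gn (algebraMap F₀ k₀).fieldRange s) {u}) {T, q} ≤
            (adjoin KT {q'}).toSubfield.comap (algebraMap k₀ k) := by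
          refine ad_le (fun z hz => ?_) ?_
          · exact (adjoin KT {q'}).algebraMap_mem ⟨_, KT.algebraMap_mem ⟨_, hA z hz⟩⟩
          · rintro z (rfl | hz)
            · exact (adjoin KT {q'}).algebraMap_mem ⟨T', mem_adjoin_simple_self k₁ T'⟩
            · rw [Set.mem_singleton_iff.1 hz]
              exact mem_adjoin_simple_self KT q'
        rw [htop] at h3
        exact h3 (Subfield.mem_top z)
      have h4 : ad (algebraMap F k).fieldRange (Set.range (algebraMap k₀ k)) ≤
          (adjoin KT {q'}).toSubfield := by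
        refine ad_le ?_ ?_
        · rintro _ ⟨c, rfl⟩
          exact (adjoin KT {q'}).algebraMap_mem ⟨_, KT.algebraMap_mem (algebraMap F k₁ c)⟩
        · rintro _ ⟨z, rfl⟩
          exact h2 z
      rw [← hbot] at h4
      exact h4 (Subfield.mem_top x)
    have hfd : FiniteDimensional KT k := by
      have h1 : FiniteDimensional KT (adjoin KT {q'}) :=
        adjoin.finiteDimensional hq'.isIntegral
      rw [htop'] at h1
      exact (topEquiv (F := KT) (E := k)).toLinearEquiv.finiteDimensional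
    refine ⟨k₁, k, inferInstance, hk₁0, inferInstance, inferInstance, T', ψ, algebraMap k₀ k,
      PL.sysW (algebraMap k₀ k ∘ w) a, hk₁, hfd, rfl, fun c => ?_, fun x => rfl, fun i => ?_, hP⟩
    · have h1 : k₁.toSubfield ≤ (ad Ω {y (Sum.inr (Sum.inr 0))}).comap ψk := by
        rw [hk₁sub]
        refine ad_le ?_ ?_
        · rintro _ ⟨z, rfl⟩
          exact le_ad (le_acl (le_gn (hψF z)))
        · intro z hz
          rcases (hrg z).1 hz with rfl | ⟨i, rfl⟩
          · change ψ (algebraMap k (AlgebraicClosure k) (algebraMap k₀ k u)) ∈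
              ad Ω {y (Sum.inr (Sum.inr 0))}
            have h2 := hψb (Sum.inr 0)
            rw [Sum.elim_inr] at h2
            change ψ (algebraMap k (AlgebraicClosure k) (algebraMap k₀ k u)) = _ at h2
            rw [h2]
            exact mem_adE
          · change ψ (algebraMap k (AlgebraicClosure k) (algebraMap k₀ k (s i))) ∈
              ad Ω {y (Sum.inr (Sum.inr 0))}
            have h2 := hψb (Sum.inl i)
            rw [Sum.elim_inl] at h2
            rw [h2]
            exact le_ad (le_acl (mem_gn (x := fun i : Fin n => y (Sum.inr (Sum.inl i))) i))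
      exact h1 c.2
    · change ∑ e, ψF (a (i, e)) * σ (w e) = ψk (∑ e, algebraMap F k (a (i, e)) * algebraMap k₀ k (w e))
      rw [map_sum]
      refine Finset.sum_congr rfl fun e _ => ?_
      rw [map_mul]
      rfl

end Pool.Agent.OPG
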