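import Pool.Agent.Helper37.BT.Defs

/-!
# Project OPG: definitions
-/

universe u v

namespace Pool.Agent.OPG

open MvPolynomial Pool.Agent.BT

/-- the field generated over `κ` by the coordinates `x (i, e)` with `e ≠ 0` -/
def hi {S : Type u} [Field S] {I : Type} {m : ℕ} (κ : Subfield S) (x : I × Fin (m + 2) → S) :
    Subfield S :=
  Subfield.closure ((κ : Set S) ∪ Set.range fun i : I × Fin (m + 1) => x (i.1, i.2.succ))

/-- The conclusion of GEO for two quadrics; `ρ` fixes moreover everything which is algebraic over `hi κ x`. -/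
def GeoQ' {S : Type u} [Field S] (κ K0 : Subfield S) (T : S) {N t m : ℕ} {ds : Fin t → ℕ}
    (x : IxV (N + 2) 2 ds × Fin (m + 2) → S) (w : Fin (m + 2) → S) {U : Type} [Fintype U]
    {e : U → ℕ} (h : ∀ u, MonV (N + 2) (e u) → S) : Prop :=
    ∃ (n M : ℕ) (G : Fin 4 → MonV (N + 2) n → S) (W W₂ : MonV (N + 2) (1 * n) → S)
      (H H₂ : MonV (N + 2) M → S) (H' H₂' : Fin t ⊕ U → MonV (N + 2) M → S)
      (D D' : Fin 4 → MonV (N + 2) M → S) (D'' : Fin 4 → Fin t ⊕ U → MonV (N + 2) M → S)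
      (c : Fin 4 → Fin (M + 1) → S) (τ ρ : S ≃+* S),
      n ≤ M ∧ 1 ≤ M ∧
      -- algebraicity
      (∀ i a, IsAlgebraic K0 (G i a)) ∧ (∀ a, IsAlgebraic K0 (W a)) ∧ (∀ a, IsAlgebraic K0 (W₂ a)) ∧
      (∀ a, IsAlgebraic K0 (H a)) ∧ (∀ a, IsAlgebraic K0 (H₂ a)) ∧
      (∀ u a, IsAlgebraic K0 (H' u a)) ∧ (∀ u a, IsAlgebraic K0 (H₂' u a)) ∧
      (∀ i a, IsAlgebraic K0 (D i a)) ∧ (∀ i a, IsAlgebraic K0 (D' i a)) ∧
      (∀ i u a, IsAlgebraic K0 (D'' i u a)) ∧ (∀ i a, IsAlgebraic K0 (c i a)) ∧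
      -- the identities
      pol (G 0) * pol (G 1) = C T * pol W ^ 2 + comb (mainV x w) (relS (othV x w) h) H H' ∧
      pol (G 2) * pol (G 3) = pol W₂ ^ 2 + comb (mainV x w) (relS (othV x w) h) H₂ H₂' ∧
      (∃ (FA FB : MonV (N + 2) M → MonV (N + 2) (M - 1) → S) (FH : MonV (N + 2) M → MonV (N + 2) M → S)
        (FH' : MonV (N + 2) M → Fin t ⊕ U → MonV (N + 2) M → S),
        (∀ q a, FA q a ∈ K0) ∧ (∀ q a, FB q a ∈ K0) ∧ (∀ q a, FH q a ∈ K0) ∧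
        (∀ q u a, FH' q u a ∈ K0) ∧
        ∀ q, pol (FA q) * X 0 + pol (FB q) +
          comb (mainV x w) (relS (othV x w) h) (FH q) (FH' q) = monomial q.1 1) ∧
      Cop (G 0) (G 1) (mainV x w) (relS (othV x w) h) M ∧
      Cop (G 2) (G 3) (mainV x w) (relS (othV x w) h) M ∧
      (∀ i, c i ≠ 0 ∧ pol (D i) * pol (G i) +
        comb (mainV x w) (relS (othV x w) h) (D' i) (D'' i) = polX (c i)) ∧
      -- the automorphism `τ`
      (∀ y ∈ K0, τ y = y) ∧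
      (∀ y, IsAlgebraic (Subfield.closure ((κ : Set S) ∪ Set.range x)) y → τ y = y) ∧
      (∀ i a, τ (G i a) = G i a) ∧ (∀ a, τ (W a) = W a) ∧
      (∀ α : S, α ^ 2 = T → τ α ≠ α) ∧
      -- the transposition
      (∀ y ∈ K0, ρ y = y) ∧ (∀ y, IsAlgebraic (hi κ x) y → ρ y = y) ∧
      (∀ a, ρ (G 0 a) = G 1 a) ∧ (∀ a, ρ (G 2 a) = G 2 a) ∧
      ∀ y, IsAlgebraic K0 y → τ (ρ y) = ρ (τ y)

end Pool.Agent.OPG
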