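import Pool.Agent.Helper13.OPG.E4
import Pool.Agent.Helper13.OPG.KeyG
import Pool.Agent.Helper10.RR.ValW
import Pool.Agent.Helper10.RR.SubstW

/-!
# Project OPG, uniform version: the contradiction
-/

universe u v w

namespace Pool.Agent.OPG

open IntermediateField Pool.Agent.OPN Pool.Agent.Helper37.UL UL

/-- transport of a model to another algebraically closed field -/
theorem splitW_trans {k₀ : Type u} [Field k₀] {A : Subfield k₀} {T q : k₀} {m : ℕ}
    {w : Fin (m + 1) → k₀}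
    (hsplit : ∀ κ₀ : Subfield (AlgebraicClosure k₀), (∀ z, z ∈ κ₀ ↔ IsAlgebraic
        (A.map (algebraMap k₀ (AlgebraicClosure k₀))) z) →
        TH.SplitW κ₀ (algebraMap k₀ (AlgebraicClosure k₀) T)
          (algebraMap k₀ (AlgebraicClosure k₀) q)
          (fun l => algebraMap k₀ (AlgebraicClosure k₀) (w l)))
    {C : Type u} [Field C] [IsAlgClosed C] (σ : k₀ →+* C) {Fs : Subfield C} (hFs : A.map σ = Fs) :
    TH.SplitW (acl Fs) (σ T) (σ q) (fun l => σ (w l)) := by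
  subst hFs
  let _ : Algebra k₀ C := σ.toAlgebra
  let θ : AlgebraicClosure k₀ →ₐ[k₀] C := IsAlgClosed.lift
  have hθ : ∀ x : k₀, θ.toRingHom (algebraMap k₀ (AlgebraicClosure k₀) x) = σ x :=
    fun x => θ.commutes x
  obtain ⟨A₀, hA₀⟩ : ∃ A₀ : Subfield (AlgebraicClosure k₀),
    A₀ = A.map (algebraMap k₀ (AlgebraicClosure k₀)) := ⟨_, rfl⟩
  have h1 := hsplit (acl A₀) fun z => by rw [← hA₀]; exact mem_acl
  have h2 := TH.SplitW.map θ.toRingHom h1
  have h3 : (acl A₀).map θ.toRingHom = acl (A.map σ) := by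
    apply le_antisymm
    · rintro _ ⟨z, hz, rfl⟩
      refine mem_acl.2 (alg_map' θ.toRingHom ?_ (mem_acl.1 hz))
      intro x hx
      rw [hA₀] at hx
      obtain ⟨x, hx, rfl⟩ := hx
      rw [hθ]
      exact ⟨x, hx, rfl⟩
    · intro z hz
      refine PL.map_closed (fun x hx => acl_closed hx) θ.toRingHom
        (isAlgebraic_mono ?_ (mem_acl.1 hz))
      rintro _ ⟨x, hx, rfl⟩
      rw [← hθ]
      exact ⟨_, le_acl (by rw [hA₀]; exact ⟨x, hx, rfl⟩), rfl⟩
  rw [h3, hθ, hθ] at h2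
  simp only [hθ] at h2
  exact h2

/-- an ultrafilter picks one of finitely many embeddings -/
theorem pigeon {J : Type v} (Uf : Ultrafilter J) {k₀ : Type u} {C : Type w} [Field k₀] [Field C]
    {A : Subfield k₀} {q : k₀} (hq : IsAlgebraic A q) (htop : ad A {q} = ⊤) {σ : J → k₀ →+* C}
    (hσ : ∀ i j, ∀ x ∈ A, σ i x = σ j x) : ∃ j₁, ∀ᶠ j in (Uf : Filter J), σ j = σ j₁ := by
  classical
  have hne : Nonempty J := Uf.nonempty_of_mem Filter.univ_mem |>.to_type
  obtain ⟨j₀⟩ := hne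
  obtain ⟨P, hP0, hP⟩ := hq
  let α : ∀ j, A →+* C := fun j => (σ j).comp A.subtype
  have hα : ∀ j, α j = α j₀ := fun j => RingHom.ext fun x => hσ j j₀ x x.2
  let Q : Polynomial C := P.map (α j₀)
  have hQ0 : Q ≠ 0 := (Polynomial.map_ne_zero_iff (α j₀).injective).2 hP0
  have hroot : ∀ j, σ j q ∈ Q.roots.toFinset := by
    intro j
    rw [Multiset.mem_toFinset, Polynomial.mem_roots hQ0, Polynomial.IsRoot.def, Polynomial.eval_map,
      ← hα j]
    have h1 := congrArg (σ j) hP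
    rw [map_zero, Polynomial.aeval_def, Polynomial.hom_eval₂] at h1
    exact h1
  have h1 : ∀ᶠ j in (Uf : Filter J), ∃ r ∈ (Q.roots.toFinset : Set C), σ j q = r :=
    Filter.Eventually.of_forall fun j => ⟨_, hroot j, rfl⟩
  obtain ⟨r, -, hr⟩ := (Ultrafilter.eventually_exists_mem_iff (Finset.finite_toSet _)).1 h1
  obtain ⟨j₁, hj₁⟩ := hr.exists
  refine ⟨j₁, ?_⟩
  filter_upwards [hr] with j hj
  have h2 : ad A {q} ≤ (σ j).eqLocusField (σ j₁) := by
    refine ad_le (fun x hx => hσ j j₁ x hx) ?_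
    intro z hz
    rw [Set.mem_singleton_iff.1 hz]
    exact hj.trans hj₁.symm
  rw [htop] at h2
  exact RingHom.ext fun x => h2 (Subfield.mem_top x)

/-- the system of curves on a pencil -/
theorem sum_pencil {R : Type u} [CommRing R] {m : ℕ} {b w : Fin (m + 3) → R}
    {v w' : Fin (m + 2) → R} {c u : R} (hv0 : v 0 = b 0 + c * b 1 + u * b (Fin.last _))
    (hv : ∀ e : Fin (m + 1), v e.succ = b e.succ.castSucc)
    (hw' : ∀ e, w' e = if e = 1 then w e.castSucc - c * w 0 else w e.castSucc)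
    (hwl : w (Fin.last _) = u * w 0) : ∑ e, v e * w' e = ∑ e, b e * w e := by
  rw [Fin.sum_univ_castSucc (n := m + 2), Fin.sum_univ_succ, Fin.sum_univ_succ,
    Fin.sum_univ_succ (n := m + 1), Fin.sum_univ_succ (n := m), hwl, hv0, hv, hw', hw',
    if_neg (by simp), if_pos (by simp)]
  have h1 : ∀ e : Fin m, v e.succ.succ * w' e.succ.succ =
      b e.succ.succ.castSucc * w e.succ.succ.castSucc := by
    intro e
    have h2 : e.succ.succ ≠ (1 : Fin (m + 2)) := by
      intro h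
      have h3 : e.succ = (0 : Fin (m + 1)) := Fin.succ_injective _ h
      exact Fin.succ_ne_zero _ h3
    rw [hv, hw', if_neg h2]
  rw [Finset.sum_congr rfl fun e _ => h1 e]
  have h2 : (0 : Fin (m + 2)).castSucc = (0 : Fin (m + 3)) := rfl
  have h3 : (Fin.succ (0 : Fin (m + 1))).castSucc = (1 : Fin (m + 3)) := rfl
  rw [h2, h3]
  ring

/-- **The contradiction.** -/
theorem core_false {F₀ k₀ : Type u} [Field F₀] [CharZero F₀] [Field k₀] [Algebra F₀ k₀] {n : ℕ}
    {s : Fin n → k₀} {u T q : k₀} {c : ℕ} {m : ℕ} {w : Fin (m + 3) → k₀}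
    (hq : IsAlgebraic (ad (ad (gn (algebraMap F₀ k₀).fieldRange s) {u}) {T}) q)
    (htop : ad (ad (gn (algebraMap F₀ k₀).fieldRange s) {u}) {T, q} = ⊤)
    (hsplit : ∀ κ₀ : Subfield (AlgebraicClosure k₀), (∀ z, z ∈ κ₀ ↔ IsAlgebraic
        ((ad (gn (algebraMap F₀ k₀).fieldRange s) {u}).map
          (algebraMap k₀ (AlgebraicClosure k₀))) z) →
        TH.SplitW κ₀ (algebraMap k₀ (AlgebraicClosure k₀) (T - c))
          (algebraMap k₀ (AlgebraicClosure k₀) q)
          (fun l => algebraMap k₀ (AlgebraicClosure k₀) (w (Fin.castSucc l))))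
    {C : Type u} [Field C] [Algebra F₀ C] [IsAlgClosed C] {y : ℕ ⊕ (Fin n ⊕ Fin 2) → C}
    (hy : IsTranscendenceBasis F₀ y) {I : Type} [Finite I]
    (hw0 : w 0 ≠ 0) (hw1 : w 1 = T * w 0) (hwl : w (Fin.last _) = u * w 0)
    {P : ∀ (k' : Type u) [Field k'], (k₀ →+* k') → (I → k') → Prop} (key : KeyGW k₀ P)
    {J : Type u} (Uf : Ultrafilter J) {σ : J → k₀ →+* C} {b : J → I × Fin (m + 3) → C}
    {Kc : J → Subfield C} (hσ0 : ∀ j (c : F₀), σ j (algebraMap F₀ k₀ c) = algebraMap F₀ C c)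
    (hσb : ∀ j i, σ j (Sum.elim s ![u, T] i) = y (Sum.inr i))
    (hloc : ∀ j, Loc (acl (gn (algebraMap F₀ C).fieldRange fun i : ℕ => y (Sum.inl i)))
        (ad (acl (gn (acl (gn (algebraMap F₀ C).fieldRange fun i : ℕ => y (Sum.inl i)))
          fun i : Fin n => y (Sum.inr (Sum.inl i)))) {y (Sum.inr (Sum.inr 0))}) w P (σ j) (b j)
          (Kc j))
    (hU : ∀ Φ : MvPolynomial (I × Fin (m + 3)) F₀, Φ ≠ 0 →
      ∀ᶠ j in (Uf : Filter J), MvPolynomial.aeval (b j) Φ ≠ 0) : False := by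
  classical
  set F₀' : Subfield k₀ := (algebraMap F₀ k₀).fieldRange with hF₀'
  set FC : Subfield C := (algebraMap F₀ C).fieldRange with hFC
  set Ω₀ : Subfield C := acl (gn FC fun i : ℕ => y (Sum.inl i)) with hΩ₀
  set ys : Fin n → C := fun i => y (Sum.inr (Sum.inl i)) with hys
  set Ω : Subfield C := acl (gn Ω₀ ys) with hΩ
  set uC : C := y (Sum.inr (Sum.inr 0)) with huC
  set TC : C := y (Sum.inr (Sum.inr 1)) with hTC
  set FB : Subfield C := ad Ω {uC} with hFB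
  have hC0 : CharZero C := charZero_of_injective_algebraMap (algebraMap F₀ C).injective
  have hk0 : CharZero k₀ := charZero_of_injective_algebraMap (algebraMap F₀ k₀).injective
  have hσs : ∀ j i, σ j (s i) = ys i := fun j i => hσb j (Sum.inl i)
  have hσu : ∀ j, σ j u = uC := fun j => hσb j (Sum.inr 0)
  have hσT : ∀ j, σ j T = TC := fun j => hσb j (Sum.inr 1)
  -- the embeddings agree on the small field
  set A : Subfield k₀ := ad (gn F₀' s) {u} with hA
  have hagree : ∀ i j, ∀ x ∈ ad A {T}, σ i x = σ j x := by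
    intro i j x hx
    have h1 : ad A {T} ≤ (σ i).eqLocusField (σ j) := by
      refine ad_le (ad_le (gn_le ?_ ?_) ?_) ?_
      · rintro _ ⟨c, rfl⟩
        exact (hσ0 i c).trans (hσ0 j c).symm
      · exact fun l => (hσs i l).trans (hσs j l).symm
      · intro z hz
        rw [Set.mem_singleton_iff.1 hz]
        exact (hσu i).trans (hσu j).symm
      · intro z hz
        rw [Set.mem_singleton_iff.1 hz]
        exact (hσT i).trans (hσT j).symm
    exact h1 hx
  have htop2 : ad (ad A {T}) {q} = ⊤ := by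
    rw [ad_ad, Set.singleton_union]
    exact htop
  obtain ⟨j₁, hj₁⟩ := pigeon Uf hq htop2 hagree
  set σ₀ : k₀ →+* C := σ j₁ with hσ₀
  let ρ : J → J := fun j => if σ j = σ₀ then j else j₁
  have hρσ : ∀ j, σ (ρ j) = σ₀ := by
    intro j
    by_cases hj : σ j = σ₀
    · have h1 : ρ j = j := if_pos hj
      rw [h1, hj]
    · have h1 : ρ j = j₁ := if_neg hj
      rw [h1]
  have hρ : ∀ᶠ j in (Uf : Filter J), ρ j = j := by
    filter_upwards [hj₁] with j hj
    exact if_pos hj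
  -- independence in `C`
  have hyC : AlgebraicIndependent FC y := ind_range.2 hy.1
  have hy1 : AlgebraicIndependent Ω₀ (fun i => y (Sum.inr i)) := by
    have h1 : AlgebraicIndependent FC (Sum.elim (fun i => y (Sum.inr i)) fun i => y (Sum.inl i)) := by
      have h2 := hyC.comp Sum.swap Sum.swap_leftInverse.injective
      convert h2 using 1
      funext i
      rcases i with i | i <;> rfl
    exact indep_acl (indep_sum_iff.1 h1).2
  have hy2 : AlgebraicIndependent Ω₀ (Sum.elim (fun i => y (Sum.inr (Sum.inr i))) ys) := by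
    have h2 := hy1.comp Sum.swap Sum.swap_leftInverse.injective
    convert h2 using 1
    funext i
    rcases i with i | i <;> rfl
  obtain ⟨hysΩ₀, hy3⟩ := indep_sum_iff.1 hy2
  have hy4 : AlgebraicIndependent Ω (fun i => y (Sum.inr (Sum.inr i))) := indep_acl hy3
  have hy5 : AlgebraicIndependent Ω (Sum.elim (fun _ : Unit => TC) fun _ : Unit => uC) := by
    have h2 := hy4.comp (Sum.elim (fun _ => 1) (fun _ => 0) : Unit ⊕ Unit → Fin 2) (by
      rintro (a | a) (b | b) hab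
      · rfl
      · simp at hab
      · simp at hab
      · rfl)
    convert h2 using 1
    funext i
    rcases i with i | i <;> rfl
  obtain ⟨huΩ, hTΩ⟩ := indep_sum_iff.1 hy5
  rw [gn_one] at hTΩ
  have huΩ' : Transcendental Ω uC := indep_one.1 huΩ
  have hTFB : Transcendental FB TC := indep_one.1 hTΩ
  -- the fields
  have hFCΩ₀ : FC ≤ Ω₀ := le_gn.trans le_acl
  have hΩ₀Ω : Ω₀ ≤ Ω := le_gn.trans le_acl
  have hΩFB : Ω ≤ FB := le_ad
  have huFB : uC ∈ FB := mem_adE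
  have hyΩ₀ : ∀ i : ℕ, y (Sum.inl i) ∈ Ω₀ := fun i =>
    le_acl (mem_gn (x := fun i : ℕ => y (Sum.inl i)) i)
  have hysΩ : ∀ i, ys i ∈ Ω := fun i => le_acl (mem_gn (x := ys) i)
  clear_value FB Ω Ω₀ FC
  have hcC : ((c : ℕ) : C) ∈ FB := natCast_mem FB c
  set Tc : C := TC - c with hTc
  have hTcFB : Transcendental FB Tc := by
    have h1 := tr_add hTFB (FB.neg_mem hcC)
    rwa [← sub_eq_add_neg] at h1
  set qC : C := σ₀ q with hqC
  obtain ⟨kB, hkB⟩ : ∃ kB : Subfield C, kB = ad FB {Tc, qC} := ⟨_, rfl⟩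
  have hFBkB : FB ≤ kB := by
    rw [hkB]
    exact le_ad
  have hTk : Tc ∈ kB := by
    rw [hkB]
    exact mem_ad (Or.inl rfl)
  have hqk : qC ∈ kB := by
    rw [hkB]
    exact mem_ad (Or.inr rfl)
  have hkBle : ∀ M : Subfield C, FB ≤ M → Tc ∈ M → qC ∈ M → kB ≤ M := by
    intro M h1 h2 h3
    rw [hkB]
    refine ad_le h1 ?_
    rintro z (hz | hz)
    · rw [hz]
      exact h2
    · rw [Set.mem_singleton_iff.1 hz]
      exact h3
  clear_value Tc qC
  let _ : Algebra FB kB := (Subfield.inclusion hFBkB).toAlgebra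
  have hst : IsScalarTower FB kB C := IsScalarTower.of_algebraMap_eq fun _ => rfl
  have hTCk : TC ∈ kB := by
    have h1 : TC = Tc + c := by rw [hTc, sub_add_cancel]
    rw [h1]
    exact kB.add_mem hTk (hFBkB hcC)
  have hcl : IsAlgClosure kB C := by
    refine ⟨inferInstance, ⟨fun x => ?_⟩⟩
    have h1 : IsAlgebraic (adjoin F₀ (Set.range y)) x := hy.isAlgebraic_field.isAlgebraic x
    have h2 : (adjoin F₀ (Set.range y)).toSubfield ≤ kB := by
      rw [adjoin_sub]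
      refine ad_le (hFC ▸ hFCΩ₀.trans (hΩ₀Ω.trans (hΩFB.trans hFBkB))) ?_
      rintro _ ⟨i | (i | i), rfl⟩
      · exact hFBkB (hΩFB (hΩ₀Ω (hyΩ₀ i)))
      · exact hFBkB (hΩFB (hysΩ i))
      · fin_cases i
        · exact hFBkB huFB
        · exact hTCk
    exact isAlgebraic_mono h2 h1
  let Tk : kB := ⟨Tc, hTk⟩
  let qk : kB := ⟨qC, hqk⟩
  have hFBr : (algebraMap FB C).fieldRange = FB := by
    ext z
    constructor
    · rintro ⟨c, rfl⟩
      exact c.2
    · intro hz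
      exact ⟨⟨z, hz⟩, rfl⟩
  have hTtr : Transcendental FB Tk := by
    intro h1
    apply hTcFB
    exact h1.algebraMap (A := C)
  have htopk : adjoin FB {Tk, qk} = ⊤ := by
    rw [eq_top_iff]
    rintro ⟨x, hx⟩ -
    have h1 : kB ≤ (adjoin FB {Tk, qk}).toSubfield.map kB.subtype :=
      hkBle _ (fun z hz => ⟨⟨z, hFBkB hz⟩, (adjoin FB {Tk, qk}).algebraMap_mem ⟨z, hz⟩, rfl⟩)
        ⟨Tk, subset_adjoin FB _ (Or.inl rfl), rfl⟩ ⟨qk, subset_adjoin FB _ (Or.inr rfl), rfl⟩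
    obtain ⟨z, hz, hzx⟩ := h1 hx
    have h2 : z = ⟨x, hx⟩ := Subtype.ext hzx
    rw [← h2]
    exact hz
  -- the small fields
  obtain ⟨Fh, hFh⟩ : ∃ Fh : Subfield C, Fh = gn FC ys := ⟨_, rfl⟩
  have hFCFh : FC ≤ Fh := by
    rw [hFh]
    exact le_gn
  have hysFh : ∀ i, ys i ∈ Fh := by
    intro i
    rw [hFh]
    exact mem_gn i
  have hFhle : ∀ M : Subfield C, FC ≤ M → (∀ i, ys i ∈ M) → Fh ≤ M := by
    intro M h1 h2
    rw [hFh]
    exact gn_le h1 h2
  obtain ⟨Fs, hFs⟩ : ∃ Fs : Subfield C, Fs = ad Fh {uC} := ⟨_, rfl⟩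
  have hFhFs : Fh ≤ Fs := by
    rw [hFs]
    exact le_ad
  have huFs : uC ∈ Fs := by
    rw [hFs]
    exact mem_adE
  have hFsle : ∀ M : Subfield C, Fh ≤ M → uC ∈ M → Fs ≤ M := by
    intro M h1 h2
    rw [hFs]
    refine ad_le h1 ?_
    intro z hz
    rw [Set.mem_singleton_iff.1 hz]
    exact h2
  have hFhΩ : Fh ≤ Ω := hFhle _ (hFCΩ₀.trans hΩ₀Ω) hysΩ
  have hFsFB : Fs ≤ FB := hFsle _ (hFhΩ.trans hΩFB) huFB
  have hσ₀A : ∀ x ∈ A, σ₀ x ∈ Fs := by
    intro x hx
    have h1 : A ≤ Fs.comap σ₀ := by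
      refine ad_le (gn_le ?_ ?_) ?_
      · rintro _ ⟨c, rfl⟩
        change σ₀ (algebraMap F₀ k₀ c) ∈ Fs
        rw [hσ₀, hσ0]
        exact hFhFs (hFCFh (hFC ▸ ⟨c, rfl⟩))
      · intro i
        change σ₀ (s i) ∈ Fs
        rw [hσ₀, hσs]
        exact hFhFs (hysFh i)
      · intro z hz
        rw [Set.mem_singleton_iff.1 hz]
        change σ₀ u ∈ Fs
        rw [hσ₀, hσu]
        exact huFs
    exact h1 hx
  have hTcs : ∀ M : Subfield C, Fs ≤ M → Tc ∈ M → TC ∈ M := by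
    intro M h1 h2
    have h3 : TC = Tc + c := by rw [hTc, sub_add_cancel]
    rw [h3]
    exact M.add_mem h2 (natCast_mem M c)
  have hσ₀k : ∀ x, σ₀ x ∈ Subfield.closure ((Fs : Set C) ∪ {Tc, qC}) := by
    intro x
    have h1 : ad A {T, q} ≤ (ad Fs {Tc, qC}).comap σ₀ := by
      refine ad_le (fun z hz => le_ad (hσ₀A z hz)) ?_
      rintro z (hz | hz)
      · rw [hz]
        change σ₀ T ∈ ad Fs {Tc, qC}
        rw [hσ₀, hσT]
        exact hTcs _ le_ad (mem_ad (Or.inl rfl))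
      · rw [Set.mem_singleton_iff.1 hz]
        change σ₀ q ∈ ad Fs {Tc, qC}
        rw [← hqC]
        exact mem_ad (Or.inr rfl)
    rw [htop] at h1
    exact h1 (Subfield.mem_top x)
  have hclk : Subfield.closure ((Fs : Set C) ∪ {Tc, qC}) ≤ kB := by
    rw [hkB]
    exact ad_mono hFsFB le_rfl
  let ι : k₀ →+* kB := σ₀.codRestrict kB.toSubring fun x => hclk (hσ₀k x)
  have hqs : IsAlgebraic (gen Fs ![Tc]) qC := by
    rw [gen_one, hqC]
    refine alg_map' σ₀ (fun x hx => ?_) hq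
    have h1 : ad A {T} ≤ (ad Fs {Tc}).comap σ₀ := by
      refine ad_le (fun z hz => le_ad (hσ₀A z hz)) ?_
      intro z hz
      rw [Set.mem_singleton_iff.1 hz]
      change σ₀ T ∈ ad Fs {Tc}
      rw [hσ₀, hσT]
      exact hTcs _ le_ad mem_adE
    exact h1 hx
  have hAmap : A.map σ₀ = Fs := by
    apply le_antisymm
    · rintro _ ⟨x, hx, rfl⟩
      exact hσ₀A x hx
    · refine hFsle _ (hFhle _ ?_ ?_) ?_
      · intro z hz
        rw [hFC] at hz
        obtain ⟨c, rfl⟩ := hz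
        refine ⟨algebraMap F₀ k₀ c, le_ad (le_gn ⟨c, rfl⟩), ?_⟩
        rw [hσ₀]
        exact hσ0 _ c
      · intro i
        refine ⟨s i, le_ad (mem_gn i), ?_⟩
        rw [hσ₀]
        exact hσs _ i
      · refine ⟨u, mem_adE, ?_⟩
        rw [hσ₀]
        exact hσu _
  have hσu' : σ₀ u = uC := by rw [hσ₀, hσu]
  have hσTc : σ₀ (T - c) = Tc := by rw [map_sub, map_natCast, hσ₀, hσT, hTc]
  have hsp := splitW_trans hsplit σ₀ hAmap
  rw [hσTc, ← hqC] at hsp
  have h10 : (1 : Fin (m + 2)) ≠ 0 := by simp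
  have hcκ : ((c : ℕ) : C) ∈ acl Fs := natCast_mem (acl Fs) c
  have hsp2 := hsp.subst h10 hcκ
  clear hsplit hsp
  -- the ultrapower
  obtain ⟨S, _, π, h⟩ := exists_up.{u, u} Uf C
  let b' : J → I × Fin (m + 3) → C := fun j => b (ρ j)
  have hb' : ∀ j p, b' j p ∈ Ω₀ := fun j p => (hloc (ρ j)).1 p
  have hU' : ∀ Φ : MvPolynomial (I × Fin (m + 3)) F₀, Φ ≠ 0 →
      ∀ᶠ j in (Uf : Filter J), MvPolynomial.aeval (b' j) Φ ≠ 0 := by
    intro Φ hΦ
    filter_upwards [hU Φ hΦ, hρ] with j h1 h2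
    change MvPolynomial.aeval (b (ρ j)) Φ ≠ 0
    rw [h2]
    exact h1
  let a' : I × Fin (m + 3) → S := fun p => π fun j => b' j p
  have ha' : AlgebraicIndependent (Fh.map (UP.cst π)) a' := by
    rw [hFh, hFC]
    exact gen_ind h (hFC ▸ hFCΩ₀) hysΩ₀ hb' hU'
  have haΩ : ∀ p, a' p ∈ h.gsub Ω := fun p => ⟨_, fun j => hΩ₀Ω (hb' j p), rfl⟩
  have hvm : ∀ j i, b' j (i, 0) + c * b' j (i, 1) + uC * b' j (i, Fin.last _) ∈ FB := fun j i =>
    FB.add_mem (FB.add_mem (hΩFB (hΩ₀Ω (hb' j _))) (FB.mul_mem hcC (hΩFB (hΩ₀Ω (hb' j _)))))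
      (FB.mul_mem huFB (hΩFB (hΩ₀Ω (hb' j _))))
  let vv : J → I × Fin (m + 2) → FB := fun j p =>
    Fin.cases (⟨_, hvm j p.1⟩ : FB)
      (fun e => (⟨b' j (p.1, e.succ.castSucc), hΩFB (hΩ₀Ω (hb' j _))⟩ : FB)) p.2
  have hvv0 : ∀ j i, ((vv j (i, 0) : FB) : C) =
      b' j (i, 0) + c * b' j (i, 1) + uC * b' j (i, Fin.last _) := fun _ _ => rfl
  have hvv1 : ∀ j i (e : Fin (m + 1)), ((vv j (i, e.succ) : FB) : C) =
      b' j (i, e.succ.castSucc) := fun _ _ _ => rfl
  obtain ⟨x', hx'⟩ : ∃ x' : I × Fin (m + 2) → S, x' = xg π fun j i => algebraMap FB C (vv j i) :=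
    ⟨_, rfl⟩
  have hx0 : ∀ i, x' (i, 0) = a' (i, 0) + UP.cst π c * a' (i, 1) + UP.cst π uC *
      a' (i, Fin.last _) := by
    intro i
    rw [hx']
    change (π fun j => ((vv j (i, 0) : FB) : C)) = π _ + (π fun _ => (c : C)) * π _ +
      (π fun _ => uC) * π _
    rw [← map_mul, ← map_mul, ← map_add, ← map_add]
    rfl
  have hx1 : ∀ (i : I) (e : Fin (m + 1)), x' (i, e.succ) = a' (i, e.succ.castSucc) := by
    intro i e
    rw [hx']
    rfl
  have hcS : UP.cst π (c : C) ∈ Fh.map (UP.cst π) := ⟨_, natCast_mem Fh c, rfl⟩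
  have huS : Transcendental (h.gsub Ω) (UP.cst π uC) := by
    have h1 : AlgebraicIndependent Ω ![uC] := by
      rw [algebraicIndependent_unique_type_iff]
      exact huΩ'
    exact (h.algInd h1).transcendental 0
  have hFsS : Fs.map (UP.cst π) ≤ ad (Fh.map (UP.cst π)) {UP.cst π uC} := by
    rintro _ ⟨z, hz, rfl⟩
    have h1 : Fs ≤ (ad (Fh.map (UP.cst π)) {UP.cst π uC}).comap (UP.cst π) :=
      hFsle _ (fun z hz => le_ad ⟨z, hz, rfl⟩) mem_adE
    exact h1 hz
  have hFhS : Fh.map (UP.cst π) ≤ h.gsub Ω := by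
    rintro _ ⟨z, hz, rfl⟩
    exact h.const_mem_gsub.mpr (hFhΩ hz)
  have hxind : AlgebraicIndependent (Fs.map (UP.cst π)) x' :=
    indep_mono hFsS (pencil_ind (M := h.gsub Ω) hFhS huS haΩ ha' hcS hx0 hx1)
  have hcla : Subfield.closure ((Fh : Set C) ∪ {uC}) ≤ acl Fs := by
    rw [hFs]
    exact le_acl
  have hwr : ∀ z ∈ h.gsub (algebraMap FB C).fieldRange,
      IsAlgebraic (gn (Fs.map (UP.cst π)) x') z →
      z ∈ gn (acl (hi ((acl Fs).map (UP.cst π)) x')) x' := by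
    intro z hz hza
    rw [hFBr] at hz
    rw [hFB] at hz
    have hza' : IsAlgebraic (gn ((Subfield.closure ((Fh : Set C) ∪ {uC})).map (UP.cst π)) x') z := by
      rw [hFs] at hza
      exact hza
    exact wr h hFhΩ huΩ' haΩ ha' hcS hcla hx0 hx1 hz hza'
  rw [hx'] at hxind hwr
  -- the coefficients
  let w' : Fin (m + 2) → k₀ := fun e => if e = 1 then w e.castSucc - c * w 0 else w e.castSucc
  have h01 : (0 : Fin (m + 2)) ≠ 1 := by simp
  have hw'0 : w' 0 = w 0 := by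
    change (if (0 : Fin (m + 2)) = 1 then _ else w (0 : Fin (m + 2)).castSucc) = w 0
    rw [if_neg h01]
    rfl
  have hw'1 : w' 1 = (T - c) * w 0 := by
    change (if (1 : Fin (m + 2)) = 1 then w (1 : Fin (m + 2)).castSucc - c * w 0 else _) = _
    rw [if_pos rfl]
    have h1 : (1 : Fin (m + 2)).castSucc = (1 : Fin (m + 3)) := rfl
    rw [h1, hw1]
    ring
  have hιw : ι (w' 1) = Tk * ι (w' 0) := by
    apply Subtype.ext
    change σ₀ (w' 1) = Tc * σ₀ (w' 0)
    rw [hw'1, hw'0, map_mul, hσTc]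
  have hspw : TH.SplitW (acl Fs) Tc qC (fun l => algebraMap kB C (ι (w' l))) := by
    convert hsp2 using 2 with e
    change σ₀ (if e = 1 then w e.castSucc - c * w 0 else w e.castSucc) = _
    split_ifs with he
    · rw [map_sub, map_mul, map_natCast]
      rfl
    · rfl
  let Kb : J → Subfield kB := fun j => (Kc (ρ j)).comap kB.subtype
  have hσKc : ∀ j x, σ₀ x ∈ Kc (ρ j) := by
    intro j x
    rw [← hρσ j]
    exact (hloc (ρ j)).2.1 x
  have huK : ∀ j, uC ∈ Kc (ρ j) := by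
    intro j
    rw [← hσu j₁]
    exact hσKc j u
  have hTK : ∀ j, Tc ∈ Kc (ρ j) := by
    intro j
    rw [← hσTc]
    exact hσKc j _
  have hFsK : ∀ j, Fs ≤ Kc (ρ j) := by
    intro j
    refine hFsle _ (hFhle _ ?_ ?_) (huK j)
    · intro z hz
      rw [hFC] at hz
      obtain ⟨z, rfl⟩ := hz
      rw [← hσ0 j₁]
      exact hσKc j _
    · intro i
      rw [← hσs j₁]
      exact hσKc j _
  have hKcB : ∀ j, Kc (ρ j) ≤ kB := by
    intro j
    refine ((hloc (ρ j)).2.2.2.1).trans (ad_le (hΩ₀Ω.trans (hΩFB.trans hFBkB)) ?_)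
    rintro _ ⟨x, rfl⟩
    rw [hρσ j]
    exact hclk (hσ₀k x)
  have hbK : ∀ j p, b' j p ∈ Kc (ρ j) := fun j => (hloc (ρ j)).2.2.1
  -- the models
  have hmod : ∀ j, Mod (F := FB) (C := C) ι (Kb j) P (PL.sysW (ι ∘ w') (vv j)) := by
    intro j
    obtain ⟨-, -, -, -, k₁, k', i1, i2, i3, i4, T', ψ, ι', f', h1, h2, h3, h4, h5, h6, h7⟩ :=
      hloc (ρ j)
    refine ⟨k₁, k', i1, i2, i3, i4, T', ψ, ι', f', h1, h2, ?_, ?_, ?_, ?_, h7⟩
    · rw [← h3]
      ext z
      constructor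
      · rintro ⟨x, hx, rfl⟩
        exact hx
      · intro hz
        exact ⟨⟨z, hKcB j hz⟩, hz, rfl⟩
    · intro z
      exact ⟨⟨_, h4 z⟩, rfl⟩
    · intro x
      change σ₀ x = _
      rw [← hρσ j]
      exact h5 x
    · intro i
      rw [← h6 i, hρσ j]
      change algebraMap kB C (∑ e : Fin (m + 2), algebraMap FB kB (vv j (i, e)) * ι (w' e)) = _
      rw [map_sum]
      refine Eq.trans (Finset.sum_congr rfl fun e _ => map_mul (algebraMap kB C) _ _) ?_
      refine sum_pencil (b := fun e => b' j (i, e)) (w := fun e => σ₀ (w e)) (c := (c : C))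
        (u := uC) (v := fun e => algebraMap kB C (algebraMap FB kB (vv j (i, e))))
        (w' := fun e => algebraMap kB C (ι (w' e))) ?_ ?_ ?_ ?_
      · exact hvv0 j i
      · exact hvv1 j i
      · intro e
        change σ₀ (if e = 1 then w e.castSucc - c * w 0 else w e.castSucc) = _
        split_ifs with he
        · rw [map_sub, map_mul, map_natCast]
        · rfl
      · change σ₀ (w (Fin.last _)) = uC * σ₀ (w 0)
        rw [hwl, map_mul, hσu' ]
  -- MARKKEY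
  refine key (F := FB) (k := kB) (C := C) ι (T := Tk) (q := qk) hTtr htopk (κ := acl FB)
    (fun z => mem_acl) (Fs := Fs) (κs := acl Fs) (by rw [hFBr]; exact hFsFB) (fun z => mem_acl)
    hqs hσ₀k (w := w') hspw (by rw [hw'0]; exact hw0) hιw h (vv := vv) hxind hwr (Kb := Kb)
    ?_ ?_ ?_ ?_ hmod
  · intro j z hz
    exact hFsK j hz
  · intro j
    exact hTK j
  · intro j
    change qC ∈ Kc (ρ j)
    rw [hqC]
    exact hσKc j q
  · rintro j ⟨i, e⟩
    change ((vv j (i, e) : FB) : C) ∈ Kc (ρ j)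
    rcases Fin.eq_zero_or_eq_succ e with rfl | ⟨e, rfl⟩
    · rw [hvv0]
      exact (Kc (ρ j)).add_mem ((Kc (ρ j)).add_mem (hbK j _) ((Kc (ρ j)).mul_mem
        (natCast_mem _ c) (hbK j _))) ((Kc (ρ j)).mul_mem (huK j) (hbK j _))
    · rw [hvv1]
      exact hbK j _

end Pool.Agent.OPG
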