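import Pool.Agent.Helper13.SX.Lev
import Pool.Agent.Helper10.TQ.Defs

/-!
# Project OPG: the constants attached to a curve, for certificates over a subfield
-/

universe u v

set_option linter.unusedSectionVars false

namespace Pool.Agent.OPG

open Polynomial Pool.Agent.Helper37.UL Pool.Agent.Helper91.Sect Pool.Agent.LT Pool.Agent.GC
  Pool.Agent.SC Pool.Agent.BT

/-- The constants `z i j` and the inertia groups at the places which are good for the given data. -/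
def LevAt (k₁ : Type u) {k C : Type u} [Field k₁] [Field k] [Field C] [Algebra k₁ k] [Algebra k C]
    {N d n M M₁ M₂ M₃ : ℕ} {ρ : Fin (N + 2) → ℕ} (S : ∀ v, Fin (ρ v) → Fin (M₂ + 1) → k)
    (R V V' : Fin (M₁ + 1) → k) (B : Fin (N + 2) → Fin (M₂ + 1) → Fin (M₂ + 1) → k)
    (G : Fin d → MonV (N + 2) n → C) (D : Fin d → MonV (N + 2) M → C)
    (c : Fin d → Fin (M₃ + 1) → C) (z : Fin d → Fin d → C) : Prop :=
  ∀ P : ValuationSubring C, P ≠ ⊤ → (∀ a : k₁, algebraMap k C (algebraMap k₁ k a) ∈ P) →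
    GoodV P S R V V' B →
    ∀ i j, i ≠ j → (∀ q, G i q ∈ P) → (∀ q, G j q ∈ P) → (∀ q, D i q ∈ P) → (∀ q, D j q ∈ P) →
    (∃ l, c i l ≠ 0 ∧ (c i l)⁻¹ ∈ P) → (∃ l, c j l ≠ 0 ∧ (c j l)⁻¹ ∈ P) →
    ∀ σ : C ≃+* C, Inert (algebraMap k C).fieldRange P σ → (∀ q, σ (G i q) = G i q) →
      (∀ q, σ (G j q) = G j q) → σ (z i j) = z i j

/-- `LevAt` for all data over the subfield `Kb`. -/
def LevG (k₁ : Type u) {k C : Type u} [Field k₁] [Field k] [Field C] [Algebra k₁ k] [Algebra k C]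
    (Kb : Subfield k) {N df d n M M₃ : ℕ} {U : Type} [Fintype U] {e : U → ℕ}
    (f : MonV (N + 2) df → k) (rel : ∀ u, MonV (N + 2) (e u) → k) (G : Fin d → MonV (N + 2) n → C)
    (D : Fin d → MonV (N + 2) M → C) (c : Fin d → Fin (M₃ + 1) → C) (z : Fin d → Fin d → C) :
    Prop :=
  ∀ {M₁ M₂ m e₁ e₂ : ℕ} {ρ : Fin (N + 2) → ℕ} {S : ∀ v, Fin (ρ v) → Fin (M₂ + 1) → k}
    {R V V' : Fin (M₁ + 1) → k} {A B : Fin (N + 2) → Fin (M₂ + 1) → Fin (M₂ + 1) → k}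
    {H : Fin (N + 2) → MonV (N + 2) m → k} {H' : Fin (N + 2) → U → MonV (N + 2) m → k},
    (∀ v j i, S v j i ∈ Kb) → (∀ i, R i ∈ Kb) → (∀ i, V i ∈ Kb) → (∀ i, V' i ∈ Kb) →
    (∀ v j i, A v j i ∈ Kb) → (∀ v j i, B v j i ∈ Kb) →
    DiscV S R V V' A B e₁ →
    (∀ v, subV N v (monYX (S v)) ^ e₂ = comb f rel (H v) (H' v)) →
    LevAt k₁ S R V V' B G D c z

theorem levG_of_levIV {k₁ k C : Type u} [Field k₁] [Field k] [Field C] [Algebra k₁ k] [Algebra k C]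
    (Kb : Subfield k) {N df d n M M₃ : ℕ} {U : Type} [Fintype U] {e : U → ℕ}
    {f : MonV (N + 2) df → k} {rel : ∀ u, MonV (N + 2) (e u) → k} {G : Fin d → MonV (N + 2) n → C}
    {D : Fin d → MonV (N + 2) M → C} {c : Fin d → Fin (M₃ + 1) → C} {z : Fin d → Fin d → C}
    (h : LevIV k₁ f rel G D c z) : LevG k₁ Kb f rel G D c z :=
  fun _ _ _ _ _ _ hd hs => h hd hs

theorem levG_of_levIQ {k₁ k C : Type u} [Field k₁] [Field k] [Field C] [Algebra k₁ k] [Algebra k C]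
    (Kb : Subfield k) {N df n M M₃ : ℕ} {U : Type} [Fintype U] {e : U → ℕ}
    {f : MonV (N + 2) df → k} {rel : ∀ u, MonV (N + 2) (e u) → k} {G : Fin 4 → MonV (N + 2) n → C}
    {D : Fin 4 → MonV (N + 2) M → C} {c : Fin 4 → Fin (M₃ + 1) → C} {z : Fin 4 → Fin 4 → C}
    (h : TQ.LevIQ k₁ f rel G D c z) : LevG k₁ Kb f rel G D c z :=
  fun _ _ _ _ _ _ hd hs => h hd hs

/-- The property of the curve `f = rel = 0` that all certificates over the algebraic closure of the subfield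
`Kb` have constants `z i j`, for the power `T ^ c₀`. -/
def HasLevG (k₁ : Type u) {k : Type u} (C : Type u) [Field k₁] [Field k] [Field C] [Algebra k₁ k]
    [Algebra k C] (Kb : Subfield k) (p c₀ : ℕ) {N d : ℕ} (r : ℕ) {U : Type} [Fintype U] {e : U → ℕ}
    (f : MonV (N + 2) d → k) (rel : ∀ u, MonV (N + 2) (e u) → k) : Prop :=
  ∀ {n M : ℕ}, n ≤ M →
    ∀ {G : Fin d → MonV (N + 2) n → C} {W : MonV (N + 2) (r * n) → C} {a b : ℕ}
      {H : MonV (N + 2) a → C} {H' : U → MonV (N + 2) b → C} {T : k}, T ≠ 0 → T ∈ Kb →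
    (∀ i q, IsAlgebraic (Kb.map (algebraMap k C)) (G i q)) →
    (∀ q, IsAlgebraic (Kb.map (algebraMap k C)) (W q)) →
    ∏ i, pol (G i) = MvPolynomial.C (algebraMap k C T) * pol W ^ p +
      comb (fun q => algebraMap k C (f q)) (fun u q => algebraMap k C (rel u q)) H H' →
    (∀ i j, i ≠ j → Cop (G i) (G j) (fun q => algebraMap k C (f q))
      (fun u q => algebraMap k C (rel u q)) M) →
    ∀ {M₂ M₂' M₃ : ℕ} {D : Fin d → MonV (N + 2) M₂ → C} {D' : Fin d → MonV (N + 2) M₂' → C}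
      {D'' : Fin d → U → MonV (N + 2) M₂' → C} {c : Fin d → Fin (M₃ + 1) → C}, (∀ i, c i ≠ 0) →
    (∀ i q, IsAlgebraic (Kb.map (algebraMap k C)) (D i q)) →
    (∀ i q, IsAlgebraic (Kb.map (algebraMap k C)) (c i q)) →
    (∀ i, pol (D i) * pol (G i) + comb (fun q => algebraMap k C (f q))
      (fun u q => algebraMap k C (rel u q)) (D' i) (D'' i) = polX (c i)) →
    ∃ z : Fin d → Fin d → C, BT.LevZ p G W (T ^ c₀) z ∧ LevG k₁ Kb f rel G D c z

theorem hasLevG_of_hasLevX {k₁ k C : Type u} [Field k₁] [Field k] [Field C] [Algebra k₁ k]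
    [Algebra k C] (Kb : Subfield k) {p c₀ N d r : ℕ} {U : Type} [Fintype U] {e : U → ℕ}
    {f : MonV (N + 2) d → k} {rel : ∀ u, MonV (N + 2) (e u) → k}
    (h : SX.HasLevX k₁ C p c₀ r f rel) : HasLevG k₁ C Kb p c₀ r f rel := by
  intro n M hnM G W a b H H' T hT _ _ _ h1 h2 M₂ M₂' M₃ D D' D'' c hc _ _ h3
  obtain ⟨z, hz1, hz2⟩ := h hnM hT h1 h2 hc h3
  exact ⟨z, hz1, levG_of_levIV Kb hz2⟩

/-- The property of the curve `f = rel = 0` that all certificates over the algebraic closure of the subfield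
`Kb` have constants `z i j`, for two quadrics. -/
def HasLevQG (k₁ : Type u) {k : Type u} (C : Type u) [Field k₁] [Field k] [Field C] [Algebra k₁ k]
    [Algebra k C] (Kb : Subfield k) {N d : ℕ} {U : Type} [Fintype U] {e : U → ℕ}
    (f : MonV (N + 2) d → k) (rel : ∀ u, MonV (N + 2) (e u) → k) : Prop :=
  ∀ {n M : ℕ}, n ≤ M →
    ∀ {G : Fin 4 → MonV (N + 2) n → C} {nW nW₂ : ℕ} {W : MonV (N + 2) nW → C}
      {W₂ : MonV (N + 2) nW₂ → C} {a b a₂ b₂ : ℕ}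
      {H : MonV (N + 2) a → C} {H' : U → MonV (N + 2) b → C}
      {H₂ : MonV (N + 2) a₂ → C} {H₂' : U → MonV (N + 2) b₂ → C} {T : k}, T ≠ 0 → T ∈ Kb →
    (∀ i q, IsAlgebraic (Kb.map (algebraMap k C)) (G i q)) →
    (∀ q, IsAlgebraic (Kb.map (algebraMap k C)) (W q)) →
    (∀ q, IsAlgebraic (Kb.map (algebraMap k C)) (W₂ q)) →
    pol (G 0) * pol (G 1) = MvPolynomial.C (algebraMap k C T) * pol W ^ 2 +
      comb (fun q => algebraMap k C (f q)) (fun u q => algebraMap k C (rel u q)) H H' →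
    pol (G 2) * pol (G 3) = pol W₂ ^ 2 +
      comb (fun q => algebraMap k C (f q)) (fun u q => algebraMap k C (rel u q)) H₂ H₂' →
    Cop (G 0) (G 1) (fun q => algebraMap k C (f q)) (fun u q => algebraMap k C (rel u q)) M →
    Cop (G 2) (G 3) (fun q => algebraMap k C (f q)) (fun u q => algebraMap k C (rel u q)) M →
    ∀ {M₂ M₂' M₃ : ℕ} {D : Fin 4 → MonV (N + 2) M₂ → C} {D' : Fin 4 → MonV (N + 2) M₂' → C}
      {D'' : Fin 4 → U → MonV (N + 2) M₂' → C} {c : Fin 4 → Fin (M₃ + 1) → C}, (∀ i, c i ≠ 0) →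
    (∀ i q, IsAlgebraic (Kb.map (algebraMap k C)) (D i q)) →
    (∀ i q, IsAlgebraic (Kb.map (algebraMap k C)) (c i q)) →
    (∀ i, pol (D i) * pol (G i) + comb (fun q => algebraMap k C (f q))
      (fun u q => algebraMap k C (rel u q)) (D' i) (D'' i) = polX (c i)) →
    ∃ z : Fin 4 → Fin 4 → C, TQ.LevZQ G W T z ∧ LevG k₁ Kb f rel G D c z

theorem hasLevQG_of_hasLevQ {k₁ k C : Type u} [Field k₁] [Field k] [Field C] [Algebra k₁ k]
    [Algebra k C] (Kb : Subfield k) {N d : ℕ} {U : Type} [Fintype U] {e : U → ℕ}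
    {f : MonV (N + 2) d → k} {rel : ∀ u, MonV (N + 2) (e u) → k}
    (h : TQ.HasLevQ k₁ C f rel) : HasLevQG k₁ C Kb f rel := by
  intro n M hnM G nW nW₂ W W₂ a b a₂ b₂ H H' H₂ H₂' T hT _ _ _ _ h1 h1' h2 h2' M₂ M₂' M₃ D D' D'' c
    hc _ _ h3
  obtain ⟨z, hz1, hz2⟩ := h hnM hT h1 h1' h2 h2' hc h3
  exact ⟨z, hz1, levG_of_levIQ Kb hz2⟩

end Pool.Agent.OPG
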