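import Pool.Agent.Helper13.OPN.C
import Pool.Agent.Helper10.RR.TrW

/-!
# Project OPG, uniform version: embeddings into a common algebraically closed field
-/

universe u v w

namespace Pool.Agent.OPG

open IntermediateField Pool.Agent.OPN Pool.Agent.Helper37.UL

/-- embeddings are determined by transcendence bases -/
theorem emb0 {F : Type u} {A : Type v} {C : Type w} [Field F] [Field A] [Field C] [Algebra F A]
    [Algebra F C] [IsAlgClosed C] {ι : Type*} {x : ι → A} (hx : IsTranscendenceBasis F x)
    {y : ι → C} (hy : AlgebraicIndependent F y) : ∃ ψ : A →ₐ[F] C, ∀ i, ψ (x i) = y i := by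
  let K1 := adjoin F (Set.range x)
  let ψ₁ : K1 →ₐ[F] C := (IntermediateField.val _).comp
    (hy.aevalEquivField.toAlgHom.comp hx.1.aevalEquivField.symm.toAlgHom)
  have hψ : ∀ i (h : x i ∈ K1), ψ₁ ⟨x i, h⟩ = y i := by
    intro i hi
    have h1 : (⟨x i, hi⟩ : K1) = hx.1.aevalEquivField (algebraMap (MvPolynomial ι F)
        (FractionRing (MvPolynomial ι F)) (MvPolynomial.X i)) := by
      apply Subtype.ext
      rw [hx.1.aevalEquivField_algebraMap_apply_coe, MvPolynomial.aeval_X]
    have h2 : ψ₁ ⟨x i, hi⟩ = ((hy.aevalEquivField (hx.1.aevalEquivField.symm ⟨x i, hi⟩) :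
        adjoin F (Set.range y)) : C) := rfl
    rw [h2, h1, AlgEquiv.symm_apply_apply, hy.aevalEquivField_algebraMap_apply_coe,
      MvPolynomial.aeval_X]
  let _ : Algebra K1 C := ψ₁.toRingHom.toAlgebra
  have hst : IsScalarTower F K1 C := IsScalarTower.of_algebraMap_eq fun c => (ψ₁.commutes c).symm
  have halg : Algebra.IsAlgebraic K1 A := hx.isAlgebraic_field
  let ψ : A →ₐ[K1] C := IsAlgClosed.lift
  refine ⟨ψ.restrictScalars F, fun i => ?_⟩
  have h1 : x i ∈ K1 := subset_adjoin F _ ⟨i, rfl⟩
  rw [← hψ i h1]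
  exact ψ.commutes ⟨x i, h1⟩

/-- an algebraically closed field with a given transcendence basis -/
theorem exists_std (F : Type u) [Field F] (V : Type) :
    ∃ (C : Type u) (_ : Field C) (_ : Algebra F C) (y : V → C), IsAlgClosed C ∧
      IsTranscendenceBasis F y := by
  let R := MvPolynomial V F
  let K := FractionRing R
  have h1 : IsTranscendenceBasis F (MvPolynomial.X : V → R) := IsTranscendenceBasis.mvPolynomial V F
  have h0 : Algebra.IsAlgebraic R K := IsLocalization.isAlgebraic _ (nonZeroDivisors R)
  have h2 : IsTranscendenceBasis F (algebraMap R K ∘ (MvPolynomial.X : V → R)) :=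
    h1.algebraMap_comp
  have h3 : IsTranscendenceBasis F (algebraMap K (AlgebraicClosure K) ∘
      (algebraMap R K ∘ (MvPolynomial.X : V → R))) := h2.algebraMap_comp
  exact ⟨AlgebraicClosure K, inferInstance, inferInstance, _, inferInstance, h3⟩

/-- finitely generated fields are countable -/
theorem countable_of_fg {F : Type u} [Field F]
    (hF : ∃ S : Finset F, Subfield.closure (S : Set F) = ⊤) : Countable F := by
  obtain ⟨S, hS⟩ := hF
  have h1 := Subfield.cardinalMk_closure_le_max (S : Set F)
  rw [hS] at h1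
  have h2 : Cardinal.mk (S : Set F) ≤ Cardinal.aleph0 := by
    rw [Cardinal.mk_le_aleph0_iff]
    exact (Finset.countable_toSet S)
  rw [max_eq_right h2] at h1
  have h3 : Countable (⊤ : Subfield F) := Cardinal.mk_le_aleph0_iff.1 h1
  exact (Subfield.topEquiv (K := F)).symm.injective.countable

/-- **The embedding of a composite.**  `b` is a transcendence basis of `k₀` over `F₀`, and stays algebraically
independent over `F`; `k = F k₀`. -/
theorem per {F₀ k₀ : Type u} [Field F₀] [Field k₀] [Algebra F₀ k₀] {V : Type} {b : V → k₀}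
    (hb : IsTranscendenceBasis F₀ b) {C : Type u} [Field C] [Algebra F₀ C] [IsAlgClosed C]
    {y : ℕ ⊕ V → C} (hy : AlgebraicIndependent F₀ y) {F k : Type u} [Field F] [Field k]
    [Algebra F₀ F] [Algebra F k] [Algebra k₀ k] [Algebra F₀ k] [IsScalarTower F₀ F k]
    [IsScalarTower F₀ k₀ k] (hF : ∃ S : Finset F, Subfield.closure (S : Set F) = ⊤)
    (hk : adjoin F (Set.range (algebraMap k₀ k)) = ⊤)
    (hfree : AlgebraicIndependent F (algebraMap k₀ k ∘ b)) :
    ∃ ψ : AlgebraicClosure k →+* C,
      (∀ c : F₀, ψ (algebraMap k (AlgebraicClosure k) (algebraMap F₀ k c)) = algebraMap F₀ C c) ∧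
      (∀ c : F, ψ (algebraMap k (AlgebraicClosure k) (algebraMap F k c)) ∈
        acl (gn (algebraMap F₀ C).fieldRange fun i : ℕ => y (Sum.inl i))) ∧
      ∀ i, ψ (algebraMap k (AlgebraicClosure k) (algebraMap k₀ k (b i))) = y (Sum.inr i) := by
  classical
  obtain ⟨t, ht⟩ := exists_isTranscendenceBasis F₀ F
  have hcF : Countable F := countable_of_fg hF
  obtain ⟨g, hg⟩ := Countable.exists_injective_nat t
  -- the transcendence basis of `k` over `F`
  have hb1 : IsTranscendenceBasis F (algebraMap k₀ k ∘ b) := by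
    rw [hfree.isTranscendenceBasis_iff_isAlgebraic]
    have halg0 : Algebra.IsAlgebraic (Algebra.adjoin F₀ (Set.range b)) k₀ := hb.isAlgebraic
    set B := Algebra.adjoin F (Set.range (algebraMap k₀ k ∘ b)) with hB
    -- the elements of `k₀` are algebraic over `B`
    have h1 : ∀ x : k₀, IsAlgebraic B (algebraMap k₀ k x) := by
      intro x
      obtain ⟨P, hP0, hP⟩ := halg0.isAlgebraic x
      have hmap : ∀ z : Algebra.adjoin F₀ (Set.range b), algebraMap k₀ k z ∈ B := by
        intro z
        have h2 : Algebra.adjoin F₀ (Set.range b) ≤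
            (B.restrictScalars F₀).comap (IsScalarTower.toAlgHom F₀ k₀ k) := by
          rw [Algebra.adjoin_le_iff]
          rintro _ ⟨i, rfl⟩
          exact Algebra.subset_adjoin ⟨i, rfl⟩
        exact h2 z.2
      let φ : Algebra.adjoin F₀ (Set.range b) →+* B :=
        ((algebraMap k₀ k).comp (algebraMap (Algebra.adjoin F₀ (Set.range b)) k₀)).codRestrict
          B hmap
      have hφ : Function.Injective φ := by
        intro z z' hzz
        have h3 := congrArg (algebraMap B k) hzz
        exact Subtype.ext ((algebraMap k₀ k).injective h3)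
      refine ⟨P.map φ, (Polynomial.map_ne_zero_iff hφ).2 hP0, ?_⟩
      have h3 := congrArg (algebraMap k₀ k) hP
      rw [map_zero, Polynomial.aeval_def, Polynomial.hom_eval₂] at h3
      rw [Polynomial.aeval_def, Polynomial.eval₂_map, ← h3]
      rfl
    refine ⟨fun x => ?_⟩
    have hx : x ∈ adjoin F (Set.range (algebraMap k₀ k)) := by rw [hk]; trivial
    induction hx using adjoin_induction with
    | mem x hx =>
      obtain ⟨x, rfl⟩ := hx
      exact h1 x
    | algebraMap c => exact isAlgebraic_algebraMap (⟨_, B.algebraMap_mem c⟩ : B)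
    | add x y _ _ hx hy => exact hx.add hy
    | inv x _ hx => exact hx.inv
    | mul x y _ _ hx hy => exact hx.mul hy
  have hst1 : IsScalarTower F k (AlgebraicClosure k) := inferInstance
  have hb2 : IsTranscendenceBasis F (algebraMap k (AlgebraicClosure k) ∘ (algebraMap k₀ k ∘ b)) :=
    hb1.algebraMap_comp
  have hst2 : IsScalarTower F₀ F (AlgebraicClosure k) := by
    refine IsScalarTower.of_algebraMap_eq fun c => ?_
    rw [IsScalarTower.algebraMap_apply F₀ k (AlgebraicClosure k),
      IsScalarTower.algebraMap_apply F₀ F k, ← IsScalarTower.algebraMap_apply F k]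
  have hb3 := ht.sumElim_comp hb2
  have hy' : AlgebraicIndependent F₀ (Sum.elim (fun i => y (Sum.inr i))
      (fun i : t => y (Sum.inl (g i)))) := by
    have h1 := hy.comp (Sum.elim Sum.inr fun i : t => Sum.inl (g i)) (by
      rintro (i | i) (j | j) hij
      · rw [Sum.inr_injective hij]
      · cases hij
      · cases hij
      · rw [hg (Sum.inl_injective hij)])
    convert h1 using 1
    funext i
    rcases i with i | i <;> rfl
  obtain ⟨ψ, hψ⟩ := emb0 hb3 hy'
  refine ⟨ψ.toRingHom, fun c => ?_, fun c => ?_, fun i => hψ (Sum.inl i)⟩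
  · rw [← IsScalarTower.algebraMap_apply]
    exact ψ.commutes c
  · rw [mem_acl]
    have halg := ht.isAlgebraic_field.isAlgebraic c
    obtain ⟨P, hP0, hP⟩ := halg
    set G := gn (algebraMap F₀ C).fieldRange fun i : ℕ => y (Sum.inl i) with hG
    let ψF : F →+* C := (ψ.toRingHom.comp (algebraMap k (AlgebraicClosure k))).comp (algebraMap F k)
    have hψF0 : ∀ c : F₀, ψF (algebraMap F₀ F c) = algebraMap F₀ C c := by
      intro c
      change ψ (algebraMap k (AlgebraicClosure k) (algebraMap F k (algebraMap F₀ F c))) = _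
      rw [← IsScalarTower.algebraMap_apply F₀ F k, ← IsScalarTower.algebraMap_apply F₀ k]
      exact ψ.commutes c
    have hψFt : ∀ i : t, ψF i = y (Sum.inl (g i)) := by
      intro i
      exact hψ (Sum.inr i)
    have hmap : ∀ z : adjoin F₀ (Set.range ((↑) : t → F)), ψF z ∈ G := by
      intro z
      have h2 : (adjoin F₀ (Set.range ((↑) : t → F))).toSubfield ≤ G.comap ψF := by
        rw [adjoin_toSubfield, Subfield.closure_le]
        rintro _ (⟨c, rfl⟩ | ⟨i, rfl⟩)
        · change ψF (algebraMap F₀ F c) ∈ G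
          rw [hψF0]
          exact le_gn ⟨c, rfl⟩
        · change ψF i ∈ G
          rw [hψFt]
          exact mem_gn (x := fun i : ℕ => y (Sum.inl i)) (g i)
      exact h2 z.2
    let φ : adjoin F₀ (Set.range ((↑) : t → F)) →+* G :=
      (ψF.comp (algebraMap _ F)).codRestrict G.toSubring hmap
    refine ⟨P.map φ, (Polynomial.map_ne_zero_iff φ.injective).2 hP0, ?_⟩
    have h3 := congrArg ψF hP
    rw [map_zero, Polynomial.aeval_def, Polynomial.hom_eval₂] at h3
    rw [Polynomial.aeval_def, Polynomial.eval₂_map]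
    exact h3

end Pool.Agent.OPG
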