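import Pool.Agent.Helper13.PL.S1
import Pool.Agent.Helper13.OPN.A
import Pool.Agent.Helper13.OPG.Defs

/-!
# Project OPG: the key statement for generic parameters
-/

universe u v

namespace Pool.Agent.OPG

open IntermediateField Pool.Agent.Helper37.UL UL Pool.Agent.OPN

/-- **The key statement for generic parameters**: the setting of `PL.Key` (`k` finite over `F(T)`, `w 0 = 1`,
`w 1 = T`), and a family `vv` of parameters which is generic over `F` and such that everything which is in
`*F` and algebraic over `F(x)` is in `acl(κ(x (i, e), e ≠ 0))(x)`. -/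
def KeyO (k : Type u) [Field k] {I : Type} (P : (I → k) → Prop) : Prop :=
  ∀ {F : Type u} [Field F] [CharZero F] [Algebra F k]
    (_ : ∃ S : Finset F, Subfield.closure (S : Set F) = ⊤) {T q : k} (_ : Transcendental F T)
    (_ : IsAlgebraic (adjoin F {T}) q) (_ : adjoin F {T, q} = ⊤)
    (_ : FiniteDimensional (adjoin F {T}) k)
    {κ : Subfield (AlgebraicClosure k)}
    (_ : ∀ c : AlgebraicClosure k, c ∈ κ ↔ IsAlgebraic F c)
    (_ : TH.SplitAt κ (algebraMap k (AlgebraicClosure k) T) (algebraMap k (AlgebraicClosure k) q))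
    {m : ℕ} {w : Fin (m + 2) → k} (_ : w 0 = 1) (_ : w 1 = T)
    {J : Type u} {Uf : Ultrafilter J} {S : Type u} [Field S] {π : (J → AlgebraicClosure k) →+* S}
    (h : UP Uf π) {vv : J → I × Fin (m + 2) → F}
    (_ : ∀ Ψ : MvPolynomial (I × Fin (m + 2)) F, Ψ ≠ 0 →
      ∀ᶠ j in (Uf : Filter J), MvPolynomial.eval (vv j) Ψ ≠ 0)
    (_ : ∀ z ∈ h.gsub (algebraMap F (AlgebraicClosure k)).fieldRange,
      IsAlgebraic (gn ((algebraMap F (AlgebraicClosure k)).fieldRange.map (UP.cst π))
        (xg π fun j i => algebraMap F (AlgebraicClosure k) (vv j i))) z →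
      z ∈ gn (acl (hi (κ.map (UP.cst π))
        (xg π fun j i => algebraMap F (AlgebraicClosure k) (vv j i))))
        (xg π fun j i => algebraMap F (AlgebraicClosure k) (vv j i)))
    (_ : ∀ j, P (PL.sysW w (vv j))), False

end Pool.Agent.OPG
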