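import Pool.Agent.Helper13.BT.N6
import Pool.Agent.Helper13.OPG.N3
import Pool.Agent.Helper13.OPG.F2
import Pool.Agent.Helper97.OPG.Geo

/-!
# Project OPG: there is no generic family of curves with constants
-/

universe u v w

namespace Pool.Agent.OPG

open Pool.Agent.Helper37.UL UL TH Pool.Agent.PL Pool.Agent.BT Pool.Agent.OPN

/-- **There is no generic family of curves with constants.** -/
theorem no_familyO {J F k C : Type u} [Field F] [CharZero F] [Field k] [Algebra F k] [Field C]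
    [Algebra k C] [Algebra F C] [IsScalarTower F k C] [IsAlgClosure k C] {k₀ : Type v} [Field k₀]
    (ι : k₀ →+* k) {T q : k} (hT : Transcendental F T)
    (htop : IntermediateField.adjoin F {T, q} = ⊤)
    {κ : Subfield C} (hκ : ∀ c : C, c ∈ κ ↔ IsAlgebraic F c)
    {Fs κs : Subfield C} (hFs : Fs ≤ (algebraMap F C).fieldRange)
    (hκs : ∀ c : C, c ∈ κs ↔ IsAlgebraic Fs c)
    (hq : IsAlgebraic (gen Fs ![algebraMap k C T]) (algebraMap k C q))
    (hι : ∀ a : k₀, algebraMap k C (ι a) ∈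
      Subfield.closure ((Fs : Set C) ∪ {algebraMap k C T, algebraMap k C q}))
    (hs : TH.SplitAt κs (algebraMap k C T) (algebraMap k C q))
    {p ν d r : ℕ} (hp : 0 < p) (hν : ¬ p ∣ ν) (hd : d = p * r) (hd3 : 3 ≤ d) {m : ℕ}
    {w : Fin (m + 2) → k₀} (hw0 : w 0 = 1) (hw1 : ι (w 1) = T) {N t : ℕ} {ds : Fin t → ℕ}
    {U : Type} [Fintype U] {e : U → ℕ} {hh : ∀ u, MonV (N + 2) (e u) → k₀} (hNoe : NoeV ds hh)
    {Uf : Ultrafilter J} {S : Type u} [Field S] {π : (J → C) →+* S} (h : UP Uf π)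
    {vv : J → IxV (N + 2) d ds × Fin (m + 2) → F}
    (hx : AlgebraicIndependent (Fs.map (UP.cst π)) (xg π fun j i => algebraMap F C (vv j i)))
    (hwr : ∀ z ∈ h.gsub (algebraMap F C).fieldRange,
      IsAlgebraic (gn (Fs.map (UP.cst π)) (xg π fun j i => algebraMap F C (vv j i))) z →
      z ∈ gn (acl (hi (κs.map (UP.cst π)) (xg π fun j i => algebraMap F C (vv j i))))
        (xg π fun j i => algebraMap F C (vv j i)))
    {Kb : J → Subfield k} (hKF : ∀ a (y : k), algebraMap k C y ∈ Fs → y ∈ Kb a)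
    (hKT : ∀ a, T ∈ Kb a) (hKq : ∀ a, q ∈ Kb a) (hKv : ∀ a i, algebraMap F k (vv a i) ∈ Kb a)
    (hlev : ∀ a, HasLevG F C (Kb a) p ν r (mainS (sysW (ι ∘ w) (vv a)))
      (relS (othS (sysW (ι ∘ w) (vv a))) fun u q => ι (hh u q))) :
    False := by
  classical
  have hCcl : IsAlgClosed C := IsAlgClosure.isAlgClosed k
  have hC0 : CharZero C := charZero_of_injective_algebraMap (algebraMap F C).injective
  have hSa : IsAlgClosed S := h.isAlgClosed
  have hS0 : CharZero S := h.charZero
  obtain ⟨k0, κ0, hκGκ0, hκ0κ', hκ0cl, hκ0G, hκ0k0, hxκ0, htk0, hqk0, hkk0, hxk0, hk0hi, hk0k00,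
    hqκ0, hk0Kst, hrel, hk0B0, hB0Kg, hrelB⟩ := exists_fieldsO h hT htop hκ hFs hκs hq hwr
  set T₁ : C := algebraMap k C T with hT₁
  set q₁ : C := algebraMap k C q with hq₁
  set t' : S := UP.cst π T₁ with ht'
  set q' : S := UP.cst π q₁ with hq'
  set κG : Subfield S := κs.map (UP.cst π) with hκG
  set x' : IxV (N + 2) d ds × Fin (m + 2) → S := xg π fun j i => algebraMap F C (vv j i) with hx'
  set E : Subfield S := Subfield.closure ((κG : Set S) ∪ {t', q'}) with hE
  set K0 : Subfield S := Subfield.closure ((E : Set S) ∪ Set.range x') with hK0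
  set k00 : Subfield S := Subfield.closure ((Subfield.closure ((Fs.map (UP.cst π) : Set S) ∪
    {t', q'}) : Set S) ∪ Set.range x') with hk00
  set B0 : Subfield S := Subfield.closure ((κ0 : Set S) ∪ {t', q'}) with hB0
  set Kg : Subfield S := h.gsub (Subfield.closure ((κ : Set C) ∪ {T₁, q₁})) with hKg
  -- the field `C`
  have hκcl : ∀ x : C, IsAlgebraic κ x → x ∈ κ := by
    intro x hx
    have h0 : κ = (algebraicClosure F C).toSubfield := by
      ext y
      rw [hκ]
      exact mem_algebraicClosure_iff.symm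
    rw [hκ]
    have h1 : IsAlgebraic (algebraicClosure F C) x := by
      rw [h0] at hx
      exact hx
    exact (isIntegral_trans (R := F) (A := algebraicClosure F C) _ h1.isIntegral).isAlgebraic
  have hFκ : (algebraMap F C).fieldRange ≤ κ := by
    rintro _ ⟨c, rfl⟩
    exact (hκ _).2 (isAlgebraic_algebraMap c)
  have hTκ : Transcendental κ T₁ := Pool.Agent.TD.kappa_transc_one hκ hT
  have hTκ' : AlgebraicIndependent κ ![T₁] := by
    rw [algebraicIndependent_unique_type_iff]
    exact hTκ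
  have hgκ : gen (algebraMap F C).fieldRange ![T₁] ≤
      Subfield.closure ((κ : Set C) ∪ {T₁}) := by
    unfold gen
    rw [Matrix.range_cons, Matrix.range_empty, Set.union_empty]
    exact Subfield.closure_mono (Set.union_subset_union_left _ hFκ)
  have hkC := kC_eq (C := C) htop
  have hqalg : IsAlgebraic (Subfield.closure ((κ : Set C) ∪ {T₁})) q₁ :=
    isAlgebraic_mono hgκ (isAlgebraic_mono (gen_mono_left hFs) hq)
  have halg : ∀ x : C, IsAlgebraic (Subfield.closure ((κ : Set C) ∪ {T₁})) x := by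
    intro x
    refine alg_trans (A := (algebraMap k C).fieldRange) ?_ (C_alg x)
    rw [hkC]
    refine alg_closure ?_
    rintro y (hy | hy)
    · exact isAlgebraic_algebraMap (⟨y, hgκ hy⟩ : Subfield.closure ((κ : Set C) ∪ {T₁}))
    · rw [Set.mem_singleton_iff.1 hy]
      exact hqalg
  have hkκ : ∀ a : k, algebraMap k C a ∈ Subfield.closure ((κ : Set C) ∪ {T₁, q₁}) := by
    intro a
    have h1 : (algebraMap k C).fieldRange ≤ Subfield.closure ((κ : Set C) ∪ {T₁, q₁}) := by
      rw [hkC, Subfield.closure_le]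
      rintro y (hy | hy)
      · refine Subfield.closure_mono ?_ (hgκ hy)
        rintro z (hz | hz)
        · exact Or.inl hz
        · rw [Set.mem_singleton_iff.1 hz]
          exact Or.inr (Or.inl rfl)
      · rw [Set.mem_singleton_iff.1 hy]
        exact Subfield.subset_closure (Or.inr (Or.inr rfl))
    exact h1 ⟨a, rfl⟩
  have hC : ∀ x : C, IsAlgebraic (algebraMap k C).fieldRange x := fun x => C_alg x
  have hkC2 : (algebraMap k C).fieldRange ≤ Subfield.closure ((κ : Set C) ∪ {T₁, q₁}) := by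
    rintro _ ⟨a, rfl⟩
    exact hkκ a
  have hT0 : T ≠ 0 := by
    rintro rfl
    exact hT isAlgebraic_zero
  -- the small field of constants
  have hκscl : ∀ x : C, IsAlgebraic κs x → x ∈ κs := fun x hx =>
    (hκs x).2 (alg_trans (fun y hy => (hκs y).1 hy) hx)
  have hFsκs : Fs ≤ κs := fun x hx => (hκs x).2 (isAlgebraic_algebraMap (⟨x, hx⟩ : Fs))
  have hκsκ : κs ≤ κ := fun x hx => hκcl x (isAlgebraic_mono (hFs.trans hFκ) ((hκs x).1 hx))
  -- the fields of the ultrapower
  have hκGcl : ∀ y : S, IsAlgebraic κG y → y ∈ κG := fun y hy => map_closed hκscl (UP.cst π) hy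
  have hTG : Transcendental κG t' := by
    intro hh
    have h1 : Transcendental (h.gsub κ) t' := (h.algInd hTκ').transcendental 0
    exact h1 (isAlgebraic_mono (hκGκ0.trans hκ0κ') hh)
  have hcE : ∀ x ∈ Subfield.closure ((Fs : Set C) ∪ {T₁, q₁}), UP.cst π x ∈ E := by
    intro x hx
    have h1 : Subfield.closure ((Fs : Set C) ∪ {T₁, q₁}) ≤ E.comap (UP.cst π) := by
      rw [Subfield.closure_le]
      rintro y (hy | hy | hy)
      · exact Subfield.subset_closure (Or.inl ⟨y, hFsκs hy, rfl⟩)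
      · rw [hy]
        exact Subfield.subset_closure (Or.inr (Or.inl rfl))
      · rw [Set.mem_singleton_iff.1 hy]
        exact Subfield.subset_closure (Or.inr (Or.inr rfl))
    exact h1 hx
  have hκGκ' : κG ≤ h.gsub κ := hκGκ0.trans hκ0κ'
  have hTκ'' : Transcendental (h.gsub κ) t' := (h.algInd hTκ').transcendental 0
  have hFsκG : ∀ y ∈ κG, IsAlgebraic (Fs.map (UP.cst π)) y := by
    rintro _ ⟨y, hy, rfl⟩
    exact Pool.Agent.HZ.alg_map (UP.cst π) (L := Fs) (L' := Fs.map (UP.cst π))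
      (fun x hx => ⟨x, hx, rfl⟩) ((hκs y).1 hy)
  have hqκG : IsAlgebraic (Subfield.closure ((κG : Set S) ∪ {t'})) q' := by
    refine Pool.Agent.HZ.alg_map (UP.cst π) (L := gen Fs ![T₁])
      (L' := Subfield.closure ((κG : Set S) ∪ {t'})) (fun x hx => ?_) hq
    have h1 : gen Fs ![T₁] ≤ (Subfield.closure ((κG : Set S) ∪ {t'})).comap (UP.cst π) := by
      conv_lhs => unfold gen
      rw [Matrix.range_cons, Matrix.range_empty, Set.union_empty, Subfield.closure_le]
      rintro y (hy | hy)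
      · exact Subfield.subset_closure (Or.inl ⟨y, hFsκs hy, rfl⟩)
      · rw [Set.mem_singleton_iff.1 hy]
        exact Subfield.subset_closure (Or.inr rfl)
    exact h1 hx
  have hxE : AlgebraicIndependent E x' :=
    indep_E hFsκG hx hκGκ' (fun i => hκ0κ' (hxκ0 i)) hTκ'' hqκG
  let w' : Fin (m + 2) → S := fun e => UP.cst π (algebraMap k C (ι (w e)))
  have hwE : ∀ e, w' e ∈ E := fun e => hcE _ (hι _)
  have hw0' : w' 0 = 1 := by
    change UP.cst π (algebraMap k C (ι (w 0))) = 1
    rw [hw0, map_one, map_one, map_one]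
  have hw1' : w' 1 = t' := by
    change UP.cst π (algebraMap k C (ι (w 1))) = t'
    rw [hw1]
  have hEK0 : E ≤ K0 := fun x hx => Subfield.subset_closure (Or.inl hx)
  have hκGK0 : κG ≤ K0 := fun x hx => hEK0 (Subfield.subset_closure (Or.inl hx))
  have htK0 : t' ∈ K0 := hEK0 (Subfield.subset_closure (Or.inr (Or.inl rfl)))
  have hqK0 : q' ∈ K0 := hEK0 (Subfield.subset_closure (Or.inr (Or.inr rfl)))
  have hk00k0 : k00 ≤ k0 := by
    rw [hk00, Subfield.closure_le]
    rintro z (hz | ⟨i, rfl⟩)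
    · have h1 : Subfield.closure ((Fs.map (UP.cst π) : Set S) ∪ {t', q'}) ≤ k0 := by
        rw [Subfield.closure_le]
        rintro v (⟨y, hy, rfl⟩ | hv | hv)
        · exact hkk0 y (Subfield.subset_closure (Or.inl hy))
        · rw [hv]
          exact htk0
        · rw [Set.mem_singleton_iff.1 hv]
          exact hqk0
      exact h1 hz
    · exact hxk0 i
  have aK00 : ∀ y : S, IsAlgebraic K0 y → IsAlgebraic k00 y := by
    intro y hy
    refine alg_trans (A := K0) ?_ hy
    refine alg_closure ?_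
    rintro z (hz | ⟨i, rfl⟩)
    · refine alg_closure (X := (κG : Set S) ∪ {t', q'}) ?_ z hz
      rintro v (hv | hv | hv)
      · refine isAlgebraic_mono ?_ (hFsκG v hv)
        exact fun x hx => Subfield.subset_closure (Or.inl (Subfield.subset_closure (Or.inl hx)))
      · rw [hv]
        exact isAlgebraic_algebraMap (⟨t', Subfield.subset_closure (Or.inl
          (Subfield.subset_closure (Or.inr (Or.inl rfl))))⟩ : k00)
      · rw [Set.mem_singleton_iff.1 hv]
        exact isAlgebraic_algebraMap (⟨q', Subfield.subset_closure (Or.inl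
          (Subfield.subset_closure (Or.inr (Or.inr rfl))))⟩ : k00)
    · exact isAlgebraic_algebraMap (⟨_, Subfield.subset_closure (Or.inr ⟨i, rfl⟩)⟩ : k00)
  have aK : ∀ y : S, IsAlgebraic K0 y → IsAlgebraic k0 y := fun y hy =>
    isAlgebraic_mono hk00k0 (aK00 y hy)
  have hk00K0 : k00 ≤ K0 := by
    refine Subfield.closure_mono ?_
    rintro z (hz | hz)
    · refine Or.inl (Subfield.closure_mono ?_ hz)
      rintro v (⟨y, hy, rfl⟩ | hv)
      · exact Or.inl ⟨y, hFsκs hy, rfl⟩
      · exact Or.inr hv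
    · exact Or.inr hz
  have aKK : ∀ y : S, IsAlgebraic k0 y → IsAlgebraic K0 y := fun y hy =>
    alg_trans (fun x hx => isAlgebraic_mono hk00K0 (hk0k00 x hx)) hy
  have hrep : k00 ≤ repF h Kb := by
    rw [hk00, Subfield.closure_le]
    rintro z (hz | ⟨i, rfl⟩)
    · have h1 : Subfield.closure ((Fs.map (UP.cst π) : Set S) ∪ {t', q'}) ≤ repF h Kb := by
        rw [Subfield.closure_le]
        rintro v (⟨y, hy, rfl⟩ | hv | hv)
        · obtain ⟨y₀, rfl⟩ := hFs hy
          rw [IsScalarTower.algebraMap_apply F k C] at hy ⊢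
          exact ⟨fun _ => algebraMap F k y₀, fun a => hKF a _ hy, rfl⟩
        · rw [hv]
          exact ⟨fun _ => T, hKT, rfl⟩
        · rw [Set.mem_singleton_iff.1 hv]
          exact ⟨fun _ => q, hKq, rfl⟩
      exact h1 hz
    · refine ⟨fun a => algebraMap F k (vv a i), fun a => hKv a i, ?_⟩
      change (π fun a => algebraMap k C (algebraMap F k (vv a i))) =
        π fun a => algebraMap F C (vv a i)
      congr 1
      funext a
      exact (IsScalarTower.algebraMap_apply F k C _).symm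
  have aC : ∀ y : S, IsAlgebraic k0 y → IsAlgebraic (Subfield.closure ((κ0 : Set S) ∪ {t'})) y := by
    intro y hy
    refine alg_trans (A := B0) ?_ (isAlgebraic_mono hk0B0 hy)
    refine alg_closure ?_
    rintro v (hv | hv | hv)
    · exact isAlgebraic_algebraMap (⟨v, Subfield.subset_closure (Or.inl hv)⟩ :
        Subfield.closure ((κ0 : Set S) ∪ {t'}))
    · rw [hv]
      exact isAlgebraic_algebraMap (⟨t', Subfield.subset_closure (Or.inr rfl)⟩ :
        Subfield.closure ((κ0 : Set S) ∪ {t'}))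
    · rw [Set.mem_singleton_iff.1 hv]
      exact hqκ0
  have aB : ∀ y : S, IsAlgebraic k0 y → IsAlgebraic B0 y := fun y hy => isAlgebraic_mono hk0B0 hy
  have aKst : ∀ y : S, IsAlgebraic k0 y → IsAlgebraic (h.gsub (algebraMap k C).fieldRange) y :=
    fun y hy => isAlgebraic_mono hk0Kst hy
  have aa : ∀ y ∈ k0, IsAlgebraic k0 y := fun y hy => isAlgebraic_algebraMap (⟨y, hy⟩ : k0)
  -- the generic curve
  obtain ⟨g0, cN, hNoe⟩ := hNoe
  let ιE : k₀ →+* E := ((UP.cst π).comp ((algebraMap k C).comp ι)).codRestrict E.toSubring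
    (fun a => hcE _ (hι a))
  have hNoe' : Noe (relS (fun s q => ((g0 s q : ℤ) : E)) (fun u q => ιE (hh u q))) cN := by
    have h1 := hNoe.map ιE
    have h2 : (fun u q => ιE (relS (fun s q => (g0 s q : k₀)) hh u q)) =
        relS (fun s q => ((g0 s q : ℤ) : E)) (fun u q => ιE (hh u q)) := by
      funext u
      rcases u with s | u
      · funext q
        exact map_intCast ιE _
      · rfl
    rw [h2] at h1
    exact h1
  obtain ⟨n, M, G₀, W₀, H₀, H₀', D₀, D₁, D₂, c₀, τ, hnM, hM1, aG, aW, aH, aH', aD, aD', aD'', ac,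
    hprod, hFin, hcop, hnrm, τK0, τκ, τG, τW, τα, htr⟩ := OPG.geo (κ := κG) (E := E) (x := x')
    hκGcl hTG (SplitAt.map (UP.cst π) hs) rfl hp hd hd3 hxE rfl hwE hw0' hw1'
    (fun s q => by
      rw [SubringClass.coe_intCast]
      exact intCast_mem κG _) hNoe'
  let f : J → MonV (N + 2) d → k := fun a => mainS (sysW (ι ∘ w) (vv a))
  let rel : J → ∀ u : Fin t ⊕ U, MonV (N + 2) (Sum.elim ds e u) → k :=
    fun a => relS (othS (sysW (ι ∘ w) (vv a))) fun u q => ι (hh u q)
  let f' : MonV (N + 2) d → S := mainV x' w'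
  let rel' : ∀ u : Fin t ⊕ U, MonV (N + 2) (Sum.elim ds e u) → S :=
    relS (othV x' w') (fun u q => UP.cst π (algebraMap k C (ι (hh u q))))
  have hsys : ∀ i, (π fun j => algebraMap k C (sysW (ι ∘ w) (vv j) i)) =
      ∑ e, x' (i, e) * w' e := by
    intro i
    have h1 : (fun j => algebraMap k C (sysW (ι ∘ w) (vv j) i)) =
        ∑ e : Fin (m + 2), (fun j => algebraMap F C (vv j (i, e))) *
          (fun _ => algebraMap k C (ι (w e))) := by
      funext j
      change algebraMap k C (∑ e, algebraMap F k (vv j (i, e)) * ι (w e)) = _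
      rw [map_sum, Finset.sum_apply]
      refine Finset.sum_congr rfl fun e _ => ?_
      rw [map_mul, ← IsScalarTower.algebraMap_apply]
      rfl
    rw [h1, map_sum]
    refine Finset.sum_congr rfl fun e _ => ?_
    rw [map_mul]
    rfl
  have hf' : ∀ q, (π fun j => algebraMap k C (f j q)) = f' q := fun q => hsys _
  have hrel' : ∀ u q, (π fun j => algebraMap k C (rel j u q)) = rel' u q := by
    rintro (s | u) q
    · exact hsys (Sum.inr ⟨s, q⟩)
    · rfl
  have hxk00 : ∀ i, x' i ∈ k00 := fun i => Subfield.subset_closure (Or.inr ⟨i, rfl⟩)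
  have hkk00 : ∀ a : k₀, UP.cst π (algebraMap k C (ι a)) ∈ k00 := by
    intro a
    refine Subfield.subset_closure (Or.inl ?_)
    have h1 : Subfield.closure ((Fs : Set C) ∪ {T₁, q₁}) ≤
        (Subfield.closure ((Fs.map (UP.cst π) : Set S) ∪ {t', q'})).comap (UP.cst π) := by
      rw [Subfield.closure_le]
      rintro y (hy | hy | hy)
      · exact Subfield.subset_closure (Or.inl ⟨y, hy, rfl⟩)
      · rw [hy]
        exact Subfield.subset_closure (Or.inr (Or.inl rfl))
      · rw [Set.mem_singleton_iff.1 hy]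
        exact Subfield.subset_closure (Or.inr (Or.inr rfl))
    exact h1 (hι a)
  have hf'k0 : ∀ a, f' a ∈ k00 := fun a =>
    Subfield.sum_mem _ fun e _ => Subfield.mul_mem _ (hxk00 _) (hkk00 _)
  have hrel'k0 : ∀ u a, rel' u a ∈ k00 := by
    rintro (s | u) q
    · change ∑ e, x' (Sum.inr ⟨s, q⟩, e) * w' e ∈ k00
      exact Subfield.sum_mem _ fun e _ => Subfield.mul_mem _ (hxk00 _) (hkk00 _)
    · exact hkk00 _
  -- representatives
  obtain ⟨G₁, hG₁⟩ := lift_C h (fun q : Fin d × MonV (N + 2) n => G₀ q.1 q.2)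
  let G : J → Fin d → MonV (N + 2) n → C := fun a i q => G₁ a (i, q)
  have hG : ∀ i q, (π fun a => G a i q) = G₀ i q := fun i q => hG₁ (i, q)
  obtain ⟨W, hW⟩ := lift_C h W₀
  obtain ⟨H, hH⟩ := lift_C h H₀
  obtain ⟨H₁', hH₁'⟩ := lift_C h (fun q : (Fin t ⊕ U) × MonV (N + 2) M => H₀' q.1 q.2)
  let H' : J → Fin t ⊕ U → MonV (N + 2) M → C := fun a i q => H₁' a (i, q)
  have hH' : ∀ i q, (π fun a => H' a i q) = H₀' i q := fun i q => hH₁' (i, q)
  obtain ⟨D₃, hD₃⟩ := lift_C h (fun q : Fin d × MonV (N + 2) M => D₀ q.1 q.2)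
  let D : J → Fin d → MonV (N + 2) M → C := fun a i q => D₃ a (i, q)
  have hD : ∀ i q, (π fun a => D a i q) = D₀ i q := fun i q => hD₃ (i, q)
  obtain ⟨D₄, hD₄⟩ := lift_C h (fun q : Fin d × MonV (N + 2) M => D₁ q.1 q.2)
  let D' : J → Fin d → MonV (N + 2) M → C := fun a i q => D₄ a (i, q)
  have hD' : ∀ i q, (π fun a => D' a i q) = D₁ i q := fun i q => hD₄ (i, q)
  obtain ⟨D₅, hD₅⟩ := lift_C h (fun q : Fin d × (Fin t ⊕ U) × MonV (N + 2) M =>
    D₂ q.1 q.2.1 q.2.2)
  let D'' : J → Fin d → Fin t ⊕ U → MonV (N + 2) M → C := fun a i u q => D₅ a (i, u, q)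
  have hD'' : ∀ i u q, (π fun a => D'' a i u q) = D₂ i u q := fun i u q => hD₅ (i, u, q)
  obtain ⟨c₁, hc₁⟩ := lift_C h (fun q : Fin d × Fin (M + 1) => c₀ q.1 q.2)
  let c : J → Fin d → Fin (M + 1) → C := fun a i q => c₁ a (i, q)
  have hc : ∀ i q, (π fun a => c a i q) = c₀ i q := fun i q => hc₁ (i, q)
  have eG : ∀ i, (fun q => π fun a => G a i q) = G₀ i := fun i => funext (hG i)
  have eW : (fun q => π fun a => W a q) = W₀ := funext hW
  have eH : (fun q => π fun a => H a q) = H₀ := funext hH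
  have eH' : (fun u q => π fun a => H' a u q) = H₀' := funext fun u => funext (hH' u)
  have eD : ∀ i, (fun q => π fun a => D a i q) = D₀ i := fun i => funext (hD i)
  have eD' : ∀ i, (fun q => π fun a => D' a i q) = D₁ i := fun i => funext (hD' i)
  have eD'' : ∀ i, (fun u q => π fun a => D'' a i u q) = D₂ i := fun i =>
    funext fun u => funext (hD'' i u)
  have ec : ∀ i, (fun q => π fun a => c a i q) = c₀ i := fun i => funext (hc i)
  have ef : (fun q => π fun a => algebraMap k C (f a q)) = f' := funext hf'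
  have erel : (fun u q => π fun a => algebraMap k C (rel a u q)) = rel' :=
    funext fun u => funext (hrel' u)
  have hθ : ∀ g : J → C, π g = 0 → ∀ᶠ a in (Uf : Filter J), g a = 0 := fun g hg => (h.eq0 g).1 hg
  have ev1 : ∀ᶠ a in (Uf : Filter J), ∏ i, pol (G a i) =
      MvPolynomial.C (algebraMap k C T) * pol (W a) ^ p +
      comb (fun q => algebraMap k C (f a q)) (fun u q => algebraMap k C (rel a u q))
        (H a) (H' a) := by
    refine ev_prod hθ (f := fun a q => algebraMap k C (f a q))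
      (rel := fun a u q => algebraMap k C (rel a u q)) ?_
    simp only [eG]
    rw [eW, eH, eH', ef, erel]
    exact hprod
  have ev2 : ∀ᶠ a in (Uf : Filter J), ∀ i j, i ≠ j →
      Cop (G a i) (G a j) (fun q => algebraMap k C (f a q))
        (fun u q => algebraMap k C (rel a u q)) M := by
    rw [Filter.eventually_all]
    intro i
    rw [Filter.eventually_all]
    intro j
    by_cases hij : i = j
    · exact Filter.Eventually.of_forall fun a hh => absurd hij hh
    · have h1 : ∀ᶠ a in (Uf : Filter J),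
          Cop (G a i) (G a j) (fun q => algebraMap k C (f a q))
            (fun u q => algebraMap k C (rel a u q)) M := by
        unfold Cop
        rw [Filter.eventually_all]
        intro q
        obtain ⟨A, B, Hc, Hc', hid⟩ := hcop i j hij q
        obtain ⟨A', hA'⟩ := lift_C h A
        obtain ⟨B', hB'⟩ := lift_C h B
        obtain ⟨Hd, hHd⟩ := lift_C h Hc
        obtain ⟨Hd', hHd'⟩ := lift_C h (fun q : (Fin t ⊕ U) × MonV (N + 2) M => Hc' q.1 q.2)
        have h2 := ev_cop hθ (G := fun a => G a i) (G' := fun a => G a j)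
          (f := fun a q => algebraMap k C (f a q)) (rel := fun a u q => algebraMap k C (rel a u q))
          (A := A') (B := B') (H := Hd) (H' := fun a u q => Hd' a (u, q)) (q := q.1) (by
          have h3 : (fun u q => π fun a => Hd' a (u, q)) = Hc' :=
            funext fun u => funext fun q => hHd' (u, q)
          rw [funext hA', funext hB', funext hHd, h3, eG, eG, ef, erel]
          exact hid)
        filter_upwards [h2] with a ha
        exact ⟨A' a, B' a, Hd a, fun u q => Hd' a (u, q), ha⟩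
      filter_upwards [h1] with a ha _
      exact ha
  have hl : ∀ i, ∃ l, c₀ i l ≠ 0 := fun i => Function.ne_iff.1 (hnrm i).1
  have ev3 : ∀ᶠ a in (Uf : Filter J), ∀ i, c a i ≠ 0 := by
    rw [Filter.eventually_all]
    intro i
    obtain ⟨l, hl⟩ := hl i
    rw [← hc, h.ne0] at hl
    filter_upwards [hl] with a ha hh
    apply ha
    rw [hh]
    rfl
  have ev4 : ∀ᶠ a in (Uf : Filter J), ∀ i, pol (D a i) * pol (G a i) +
      comb (fun q => algebraMap k C (f a q)) (fun u q => algebraMap k C (rel a u q))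
        (D' a i) (D'' a i) = polX (c a i) := by
    rw [Filter.eventually_all]
    intro i
    refine ev_nrm hθ (G := fun a => G a i) (f := fun a q => algebraMap k C (f a q))
      (rel := fun a u q => algebraMap k C (rel a u q))
      (D := fun a => D a i) (D' := fun a => D' a i) (D'' := fun a => D'' a i)
      (c := fun a => c a i) ?_
    rw [eD, eG, eD', eD'', ef, erel, ec]
    exact (hnrm i).2
  -- the constants
  have evG : ∀ᶠ a in (Uf : Filter J), ∀ i q,
      IsAlgebraic ((Kb a).map (algebraMap k C)) (G a i q) := by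
    rw [Filter.eventually_all]
    intro i
    rw [Filter.eventually_all]
    intro q
    exact ev_alg h hrep (by rw [hG]; exact aK00 _ (aG i q))
  have evW : ∀ᶠ a in (Uf : Filter J), ∀ q,
      IsAlgebraic ((Kb a).map (algebraMap k C)) (W a q) := by
    rw [Filter.eventually_all]
    intro q
    exact ev_alg h hrep (g := fun a => W a q) (by rw [hW]; exact aK00 _ (aW q))
  have evD : ∀ᶠ a in (Uf : Filter J), ∀ i q,
      IsAlgebraic ((Kb a).map (algebraMap k C)) (D a i q) := by
    rw [Filter.eventually_all]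
    intro i
    rw [Filter.eventually_all]
    intro q
    exact ev_alg h hrep (by rw [hD]; exact aK00 _ (aD i q))
  have evc : ∀ᶠ a in (Uf : Filter J), ∀ i q,
      IsAlgebraic ((Kb a).map (algebraMap k C)) (c a i q) := by
    rw [Filter.eventually_all]
    intro i
    rw [Filter.eventually_all]
    intro q
    exact ev_alg h hrep (by rw [hc]; exact aK00 _ (ac i q))
  have ev5 : ∀ᶠ a in (Uf : Filter J), ∃ z : Fin d → Fin d → C,
      BT.LevZ p (G a) (W a) (T ^ ν) z ∧ LevG F (Kb a) (f a) (rel a) (G a) (D a) (c a) z := by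
    filter_upwards [ev1, ev2, ev3, ev4, evG, evW, evD, evc] with a h1 h2 h3 h4 h5 h6 h7 h8
    exact hlev a hnM hT0 (hKT a) h5 h6 h1 h2 h3 h7 h8 h4
  obtain ⟨z, hz⟩ := ev5.choice
  have aG' : ∀ i q, IsAlgebraic k0 (π fun a => G a i q) := fun i q => by
    rw [hG]; exact aK _ (aG i q)
  have aW' : ∀ q, IsAlgebraic k0 (π fun a => W a q) := fun q => by
    rw [hW]; exact aK _ (aW q)
  obtain ⟨zne, zpow, zcoc, zprod, zequi⟩ := BT.rels h hp.ne' hC (fun i q => aKst _ (aG' i q))
    (fun q => aKst _ (aW' q)) (hz.mono fun a ha => ha.1)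
  -- the equations of the coordinates
  have hfinX : FinX f' rel' M := by
    obtain ⟨FA, FB, FH, FH', -, -, -, -, hF⟩ := hFin
    exact fun q => ⟨FA q, FB q, FH q, FH' q, hF q⟩
  obtain ⟨e₁, e₂, M₁, M₂, ρv, s₀, R₀, V₀, V₀', A₀, B₀, Hd₀, Hd₀', hM₁, hR0, hsk, hRk, hVk, hVk', hAk,
    hBk, hid1, hid2, hid3⟩ := exists_disc (k0 := k00) (f := f') (rel := rel') hf'k0 hrel'k0
      hM1 hfinX
  obtain ⟨s₁, hs₁K, hs₁⟩ := lift_repF h (c := fun q : (Σ v, Fin (ρv v) × Fin (M₂ + 1)) =>
    s₀ q.1 q.2.1 q.2.2) (fun i => hrep (hsk _ _ _))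
  let Sv : J → ∀ v, Fin (ρv v) → Fin (M₂ + 1) → k := fun a v j i => s₁ a ⟨v, j, i⟩
  have hSv : ∀ v j i, (π fun a => algebraMap k C (Sv a v j i)) = s₀ v j i :=
    fun v j i => hs₁ ⟨v, j, i⟩
  obtain ⟨R, hRK, hR⟩ := lift_repF h (fun i => hrep (hRk i))
  obtain ⟨V, hVK, hV⟩ := lift_repF h (fun i => hrep (hVk i))
  obtain ⟨V', hVK', hV'⟩ := lift_repF h (fun i => hrep (hVk' i))
  obtain ⟨A₁, hA₁K, hA₁⟩ := lift_repF h (c := fun q : Fin (N + 2) × Fin (M₂ + 1) × Fin (M₂ + 1) =>
    A₀ q.1 q.2.1 q.2.2) (fun i => hrep (hAk _ _ _))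
  let A : J → Fin (N + 2) → Fin (M₂ + 1) → Fin (M₂ + 1) → k := fun a v j i => A₁ a (v, j, i)
  have hA : ∀ v j i, (π fun a => algebraMap k C (A a v j i)) = A₀ v j i :=
    fun v j i => hA₁ (v, j, i)
  obtain ⟨B₁, hB₁K, hB₁⟩ := lift_repF h (c := fun q : Fin (N + 2) × Fin (M₂ + 1) × Fin (M₂ + 1) =>
    B₀ q.1 q.2.1 q.2.2) (fun i => hrep (hBk _ _ _))
  let B : J → Fin (N + 2) → Fin (M₂ + 1) → Fin (M₂ + 1) → k := fun a v j i => B₁ a (v, j, i)
  have hB : ∀ v j i, (π fun a => algebraMap k C (B a v j i)) = B₀ v j i :=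
    fun v j i => hB₁ (v, j, i)
  obtain ⟨Hd₁, hHd₁⟩ := lift_C h (fun q : Fin (N + 2) × MonV (N + 2) M₂ => Hd₀ q.1 q.2)
  obtain ⟨Hd₁', hHd₁'⟩ := lift_C h (fun q : Fin (N + 2) × (Fin t ⊕ U) × MonV (N + 2) M₂ =>
    Hd₀' q.1 q.2.1 q.2.2)
  let θ : (J → k) →+* S := π.comp
    (RingHom.pi fun a => (algebraMap k C).comp (Pi.evalRingHom (fun _ => k) a))
  have hθe : ∀ g : J → k, θ g = π fun a => algebraMap k C (g a) := fun _ => rfl
  have hθk : ∀ g : J → k, θ g = 0 → ∀ᶠ a in (Uf : Filter J), g a = 0 := by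
    intro g hg
    filter_upwards [(h.eq0 _).1 hg] with a ha
    exact (map_eq_zero (algebraMap k C)).1 ha
  have ev6 : ∀ᶠ a in (Uf : Filter J),
      DiscV (Sv a) (R a) (V a) (V' a) (A a) (B a) e₁ := by
    have h1 : ∀ᶠ a in (Uf : Filter J), R a (Fin.last M₁) ≠ 0 := by
      rw [← hR, h.ne0] at hR0
      filter_upwards [hR0] with a ha hh
      apply ha
      rw [hh, map_zero]
    have h2 := ev_sepU hθk (Q := R) (V := V) (V' := V') (by
      simp only [hθe]
      rw [funext hR, funext hV, funext hV']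
      exact hid1)
    have h3 : ∀ᶠ a in (Uf : Filter J), ∀ v, polYX (A a v) * monYX (Sv a v) +
        polYX (B a v) * Polynomial.derivative (monYX (Sv a v)) =
          Polynomial.C (BT.polU (R a) ^ e₁) := by
      rw [Filter.eventually_all]
      intro v
      refine ev_discU hθk (Q := R) (s := fun a => Sv a v) (A := fun a => A a v)
        (B := fun a => B a v) ?_
      simp only [hθe]
      rw [funext hR, show (fun j i => π fun a => algebraMap k C (A a v j i)) = A₀ v from
        funext fun j => funext fun i => hA v j i,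
        show (fun j i => π fun a => algebraMap k C (B a v j i)) = B₀ v from
        funext fun j => funext fun i => hB v j i,
        show (fun j i => π fun a => algebraMap k C (Sv a v j i)) = s₀ v from
        funext fun j => funext fun i => hSv v j i]
      exact hid2 v
    filter_upwards [h1, h2, h3] with a ha1 ha2 ha3
    exact ⟨hM₁, ha1, ha2, ha3⟩
  have ev7 : ∀ᶠ a in (Uf : Filter J), ∀ v, ∃ (Hc : MonV (N + 2) M₂ → k)
      (Hc' : Fin t ⊕ U → MonV (N + 2) M₂ → k),
      subV N v (monYX (Sv a v)) ^ e₂ = comb (f a) (rel a) Hc Hc' := by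
    rw [Filter.eventually_all]
    intro v
    have h1 := ev_sub hθ (f := fun a q => algebraMap k C (f a q))
      (rel := fun a u q => algebraMap k C (rel a u q)) (v := v)
      (s := fun a j i => algebraMap k C (Sv a v j i)) (H := fun a q => Hd₁ a (v, q))
      (H' := fun a u q => Hd₁' a (v, u, q)) (e₂ := e₂) (by
      rw [ef, erel, show (fun j i => π fun a => algebraMap k C (Sv a v j i)) = s₀ v from
        funext fun j => funext fun i => hSv v j i,
        show (fun q => π fun a => Hd₁ a (v, q)) = Hd₀ v from funext fun q => hHd₁ (v, q),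
        show (fun u q => π fun a => Hd₁' a (v, u, q)) = Hd₀' v from
          funext fun u => funext fun q => hHd₁' (v, u, q)]
      exact hid3 v)
    filter_upwards [h1] with a ha
    refine comb_descend (L := C) (P := subV N v (monYX (Sv a v)) ^ e₂)
      (H := fun q => Hd₁ a (v, q)) (H' := fun u q => Hd₁' a (v, u, q)) ?_
    rw [map_pow, map_subV, map_monYX]
    exact ha
  have hFκ' : ∀ a : F, algebraMap k C (algebraMap F k a) ∈ κ := fun a =>
    hFκ ⟨a, IsScalarTower.algebraMap_apply F k C a⟩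
  -- factorisation
  have heg := OPG.exists_eg h hp hκcl hFκ' hTκ halg hkκ hκ0κ' hκ0cl hκ0k0 htk0
    (G := G) (D := D) (c := c) (z := z) (Sv := Sv) (B := B) (R := R) (V := V)
    (V' := V')
    (fun v j i => by rw [hSv]; exact aC _ (aa _ (hk00k0 (hsk v j i))))
    (fun v j i => by rw [hB]; exact aC _ (aa _ (hk00k0 (hBk v j i))))
    (fun q => by rw [hR]; exact aC _ (aa _ (hk00k0 (hRk q))))
    (fun q => by rw [hV]; exact aC _ (aa _ (hk00k0 (hVk q))))
    (fun q => by rw [hV']; exact aC _ (aa _ (hk00k0 (hVk' q))))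
    (fun i q => aC _ (aG' i q))
    (fun i q => by rw [hD]; exact aC _ (aK _ (aD i q)))
    (fun i q => by rw [hc]; exact aC _ (aK _ (ac i q)))
    hqκ0
    (fun i => by
      obtain ⟨l, hl⟩ := hl i
      exact ⟨l, by rw [hc]; exact hl⟩)
    (by
      filter_upwards [ev6, ev7, hz] with a h1 h2 h3
      choose Hx Hx' hHx using h2
      exact ⟨⟨h3.1.ne, h3.1.pow⟩, h3.2 (fun v j i => hs₁K a ⟨v, j, i⟩) (hRK a) (hVK a) (hVK' a)
        (fun v j i => hA₁K a (v, j, i)) (fun v j i => hB₁K a (v, j, i)) h1 hHx⟩)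
  have heg' : ∀ i j, ∃ e₀ g : S, IsAlgebraic k0 e₀ ∧ (i ≠ j →
      g ∈ Subfield.closure ((h.gsub (Subfield.closure ((κ : Set C) ∪ {T₁})) : Set S) ∪
        insert q' ((Set.range fun q => π fun a => G a i q) ∪
          Set.range fun q => π fun a => G a j q)) ∧
      (π fun a => z a i j) = e₀ * g) := by
    intro i j
    by_cases hij : i = j
    · exact ⟨0, 0, isAlgebraic_zero, fun hh => absurd hij hh⟩
    · obtain ⟨e₀, g, h1, h2, h3⟩ := heg i j hij
      exact ⟨e₀, g, h1, fun _ => ⟨h2, h3⟩⟩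
  choose ee gg haee hegg using heg'
  -- the transpositions
  have htr' : ∀ i j l, ∃ ρ : S ≃+* S, (∀ y ∈ K0, ρ y = y) ∧ (∀ y ∈ k0, ρ y = y) ∧
      (∀ y, IsAlgebraic K0 y → τ (ρ y) = ρ (τ y)) ∧ (i ≠ j → j ≠ l → i ≠ l →
        (∀ a, ρ (G₀ i a) = G₀ j a) ∧ ∀ a, ρ (G₀ l a) = G₀ l a) := by
    intro i j l
    by_cases hh : i ≠ j ∧ j ≠ l ∧ i ≠ l
    · obtain ⟨ρ, h1, h1', h2, h3, h4⟩ := htr i j l hh.1 hh.2.1 hh.2.2
      refine ⟨ρ, h1, fun y hy => ?_, h4, fun _ _ _ => ⟨h2, h3⟩⟩
      refine fix_closure ?_ y (hk0hi hy)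
      rintro v (hv | (hv | hv) | ⟨i, rfl⟩)
      · exact h1' v (mem_acl.1 hv)
      · rw [hv]
        exact h1 _ htK0
      · rw [Set.mem_singleton_iff.1 hv]
        exact h1 _ hqK0
      · exact h1 _ (Subfield.subset_closure (Or.inr ⟨i, rfl⟩))
    · exact ⟨RingEquiv.refl S, fun _ _ => rfl, fun _ _ => rfl, fun _ _ => rfl,
        fun h1 h2 h3 => absurd ⟨h1, h2, h3⟩ hh⟩
  choose ρ ρK0 ρk0 ρc ρG using htr'
  -- the internal automorphisms
  have hTex : ∀ i j l, ∃ T' : S ≃+* S, UP.Internal π (algebraMap k C).fieldRange T' ∧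
      (∀ q, T' (G₀ i q) = ρ i j l (G₀ i q)) ∧ (∀ q, T' (G₀ l q) = ρ i j l (G₀ l q)) ∧
      T' (ee i l) = ρ i j l (ee i l) := by
    intro i j l
    obtain ⟨T', h1, h2⟩ := exists_internal_fin h hC hk0Kst hrel (ρ i j l)
      (fun y hy => ρk0 i j l y hy)
      (ψ := fun o : Option (MonV (N + 2) n ⊕ MonV (N + 2) n) =>
        o.elim (ee i l) (Sum.elim (G₀ i) (G₀ l))) (by
        rintro (_ | (q | q))
        · exact haee i l
        · exact aK _ (aG i q)
        · exact aK _ (aG l q))
    exact ⟨T', h1, fun q => h2 (some (Sum.inl q)), fun q => h2 (some (Sum.inr q)), h2 none⟩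
  choose TT TTI TTi TTl TTe using hTex
  obtain ⟨α, hα⟩ : ∃ α : C, α ^ p = T₁ := IsAlgClosed.exists_pow_nat_eq T₁ hp
  have hα' : UP.cst π α ^ p = t' := by rw [← map_pow, hα]
  -- the automorphism over the large field
  have hτB : ∀ y ∈ B0, τ y = y := by
    refine fix_closure ?_
    rintro v (hv | hv | hv)
    · exact τκ v (hκ0G v hv)
    · rw [hv]
      exact τK0 _ htK0
    · rw [Set.mem_singleton_iff.1 hv]
      exact τK0 _ hqK0
  obtain ⟨τ', hτ'Kg, hτ'⟩ := lift_conj (B := B0) (K' := Kg) hB0Kg hrelB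
    (I := (Fin d × MonV (N + 2) n) ⊕ (MonV (N + 2) (r * n) ⊕ (Unit ⊕ ((Fin d × Fin d) ⊕
      (Fin d × Fin d × Fin d)))))
    (Sum.elim (fun q => G₀ q.1 q.2) (Sum.elim W₀ (Sum.elim (fun _ => UP.cst π α)
      (Sum.elim (fun q => ee q.1 q.2) (fun q => ρ q.1 q.2.1 q.2.2 (ee q.1 q.2.2)))))) (by
      rintro (q | (q | (q | (q | q))))
      · exact aB _ (aK _ (aG _ _))
      · exact aB _ (aK _ (aW _))
      · refine aB _ (IsAlgebraic.of_pow hp ?_)
        change IsAlgebraic k0 (UP.cst π α ^ p)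
        rw [hα']
        exact aa _ htk0
      · exact aB _ (haee _ _)
      · exact aB _ (alg_map (fun y hy => ρk0 _ _ _ y hy) (haee _ _))) τ hτB
  have τ'G : ∀ i q, τ' (G₀ i q) = G₀ i q := fun i q => (hτ' (Sum.inl (i, q))).trans (τG i q)
  have τ'W : ∀ q, τ' (W₀ q) = W₀ q := fun q => (hτ' (Sum.inr (Sum.inl q))).trans (τW q)
  have τ'α : τ' (UP.cst π α) = τ (UP.cst π α) := hτ' (Sum.inr (Sum.inr (Sum.inl ())))
  have τ'e : ∀ i j, τ' (ee i j) = τ (ee i j) := fun i j =>
    hτ' (Sum.inr (Sum.inr (Sum.inr (Sum.inl (i, j)))))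
  have τ'ρ : ∀ i j l, τ' (ρ i j l (ee i l)) = τ (ρ i j l (ee i l)) := fun i j l =>
    hτ' (Sum.inr (Sum.inr (Sum.inr (Sum.inr (i, j, l)))))
  have hκKg : h.gsub (Subfield.closure ((κ : Set C) ∪ {T₁})) ≤ Kg := by
    refine h.gsub_mono (Subfield.closure_mono ?_)
    rintro x (hx | hx)
    · exact Or.inl hx
    · rw [Set.mem_singleton_iff.1 hx]
      exact Or.inr (Or.inl rfl)
  have hqKg : q' ∈ Kg := h.const_mem_gsub.mpr (Subfield.subset_closure (Or.inr (Or.inr rfl)))
  have hmuκ : ∀ ξ ∈ mu C p, ξ ∈ κ := by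
    intro ξ hξ
    apply hκcl
    apply IsAlgebraic.of_pow hp
    have h1 : ξ ^ p = 1 := hξ
    rw [h1]
    exact isAlgebraic_one
  have hFx : Fx k h p τ' := by
    refine ⟨fun y hy => hτ'Kg y (h.gsub_mono hkC2 hy), fun ξ hξ => hτ'Kg _ ?_⟩
    exact h.const_mem_gsub.mpr (Subfield.subset_closure (Or.inl (hmuκ ξ hξ)))
  -- the images of the elements of the fields of pairs
  let FP : Fin d → Fin d → Subfield S := fun i j => Subfield.closure
      ((h.gsub (Subfield.closure ((κ : Set C) ∪ {T₁})) : Set S) ∪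
        insert q' ((Set.range fun q => π fun a => G a i q) ∪
          Set.range fun q => π fun a => G a j q))
  have hfixc : ∀ i j, ∀ y ∈ FP i j, τ' y = y := by
    intro i j
    refine fix_closure ?_
    rintro y (hy | hy | ⟨q, rfl⟩ | ⟨q, rfl⟩)
    · exact hτ'Kg y (hκKg hy)
    · rw [hy]
      exact hτ'Kg q' hqKg
    · simp only [hG]
      exact τ'G i q
    · simp only [hG]
      exact τ'G j q
  have hTTG : ∀ i j l, i ≠ j → j ≠ l → i ≠ l → (∀ q, TT i j l (G₀ i q) = G₀ j q) ∧
      ∀ q, TT i j l (G₀ l q) = G₀ l q := by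
    intro i j l h1 h2 h3
    obtain ⟨h4, h5⟩ := ρG i j l h1 h2 h3
    exact ⟨fun q => (TTi i j l q).trans (h4 q), fun q => (TTl i j l q).trans (h5 q)⟩
  have hTTm : ∀ i j l, i ≠ j → j ≠ l → i ≠ l → ∀ y ∈ FP i l, TT i j l y ∈ FP j l := by
    intro i j l h1 h2 h3
    obtain ⟨h4, h5⟩ := hTTG i j l h1 h2 h3
    have h6 : FP i l ≤ (FP j l).comap (TT i j l : S →+* S) := by
      change Subfield.closure _ ≤ _
      rw [Subfield.closure_le]
      rintro y (hy | hy | ⟨q, rfl⟩ | ⟨q, rfl⟩)
      · refine Subfield.subset_closure (Or.inl ?_)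
        refine UP.Internal.maps h (TTI i j l) ?_ hy
        intro σ hσ x hx
        have hσκ : ∀ y ∈ κ, σ y ∈ κ := by
          intro y hy
          rw [hκ] at hy ⊢
          obtain ⟨P, hP0, hP⟩ := hy
          refine ⟨P, hP0, ?_⟩
          have h7 : σ (Polynomial.aeval y P) = Polynomial.aeval (σ y) P := map_aevalF (fun a =>
            hσ _ ⟨algebraMap F k a, (IsScalarTower.algebraMap_apply F k C a).symm⟩) P y
          rw [← h7, hP, map_zero]
        have h8 : Subfield.closure ((κ : Set C) ∪ {T₁}) ≤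
            (Subfield.closure ((κ : Set C) ∪ {T₁})).comap (σ : C →+* C) := by
          rw [Subfield.closure_le]
          rintro y (hy | hy)
          · exact Subfield.subset_closure (Or.inl (hσκ y hy))
          · rw [Set.mem_singleton_iff.1 hy]
            change σ T₁ ∈ Subfield.closure ((κ : Set C) ∪ {T₁})
            rw [hσ T₁ ⟨T, rfl⟩]
            exact Subfield.subset_closure (Or.inr rfl)
        exact h8 hx
      · rw [hy]
        change TT i j l q' ∈ FP j l
        rw [UP.Internal.fix h (TTI i j l) (hk0Kst hqk0)]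
        exact Subfield.subset_closure (Or.inr (Or.inl rfl))
      · change TT i j l (π fun a => G a i q) ∈ FP j l
        rw [hG, h4, ← hG]
        exact Subfield.subset_closure (Or.inr (Or.inr (Or.inl ⟨q, rfl⟩)))
      · change TT i j l (π fun a => G a l q) ∈ FP j l
        rw [hG, h5, ← hG]
        exact Subfield.subset_closure (Or.inr (Or.inr (Or.inr ⟨q, rfl⟩)))
    exact fun y hy => h6 hy
  -- the contradiction
  have i₀ : Fin d := ⟨0, by omega⟩
  refine no_z (S := S) (p := p) (d := d) hd3 (z := fun i j => π fun a => z a i j) (e := ee)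
    (g := gg) (α := UP.cst π α ^ ν) zne (fun i j hij => (hegg i j hij).2) τ τ'
    (τα _ hα' ν hν) (by rw [map_pow, map_pow, τ'α]) ρ TT
    (fun i j _ => τ'e i j) (fun i j l _ _ _ => τ'ρ i j l)
    (fun i j l _ _ _ => ρc i j l _ (aKK _ (haee i l))) ?_
    (fun i j l _ _ _ => TTe i j l) ?_ ?_ (i₀ := i₀) ?_ ?_ ?_ ?_
  · intro i j l _ _ _ ξ hξ
    apply ρK0
    apply hκGK0
    apply hκGcl
    apply IsAlgebraic.of_pow hp
    rw [hξ]
    exact isAlgebraic_one
  · intro i j hij
    refine zpow i j hij τ' hFx ?_ ?_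
    · intro q
      rw [hG]
      exact τ'G i q
    · intro q
      rw [hG]
      exact τ'G j q
  · intro i j l h1 h2 h3
    refine zcoc i j l h1 h2 h3 τ' hFx ?_ ?_ ?_
    · intro q
      rw [hG]
      exact τ'G i q
    · intro q
      rw [hG]
      exact τ'G j q
    · intro q
      rw [hG]
      exact τ'G l q
  · rw [← map_pow]
    refine zprod (α ^ ν) (by rw [← pow_mul, mul_comm, pow_mul, hα, map_pow]) i₀ τ' hFx ?_ ?_
    · intro i q
      rw [hG]
      exact τ'G i q
    · intro q
      rw [hW]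
      exact τ'W q
  · intro i j hij
    exact hfixc i j _ (hegg i j hij).1
  · intro i j l h1 h2 h3
    exact hfixc j l _ (hTTm i j l h1 h2 h3 _ (hegg i l h3).1)
  · intro i j l h1 h2 h3
    obtain ⟨h4, h5⟩ := hTTG i j l h1 h2 h3
    refine zequi (TT i j l) (TTI i j l) i l j l h3 h2 ?_ ?_ τ' hFx ?_ ?_
    · intro q
      rw [hG, hG]
      exact h4 q
    · intro q
      rw [hG]
      exact h5 q
    · intro q
      rw [hG]
      exact τ'G j q
    · intro q
      rw [hG]
      exact τ'G l q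

end Pool.Agent.OPG
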