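import Pool.Agent.Helper13.OPG.N6
import Pool.Agent.Helper13.OPG.N6Q
import Pool.Agent.Helper13.OPG.Key
import Pool.Agent.Helper13.SX.LevS
import Pool.Agent.Helper10.TQ.LevQ

/-!
# Project OPG: the key statements
-/

universe u

namespace Pool.Agent.OPG

open Pool.Agent.Helper37.UL UL Pool.Agent.PL Pool.Agent.BT Pool.Agent.OPN

/-- the key statement -/
theorem keyO_of_noe {k : Type u} [Field k] {p ν d r : ℕ} (hp : 0 < p) (hν : ¬ p ∣ ν) (hd : d = p * r)
    (hd3 : 3 ≤ d) {N t : ℕ} {ds : Fin t → ℕ} {U : Type} [Fintype U] {e : U → ℕ}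
    {hh : ∀ u, MonV (N + 2) (e u) → k} (hNoe : NoeV ds hh) :
    KeyO k fun a : IxV (N + 2) d ds → k => SX.HasSecX p ν (mainS a) (relS (othS a) hh) := by
  intro F _ _ _ hF T q hT hq htop hfd κ hκ hs m w hw0 hw1 J Uf S _ π h vv hU hwr hP
  have hx : AlgebraicIndependent ((algebraMap F (AlgebraicClosure k)).fieldRange.map (UP.cst π))
      (xg π fun j i => algebraMap F (AlgebraicClosure k) (vv j i)) := by
    refine indep_mono ?_ (algInd_xgC h (gen_extend hU))
    rintro _ ⟨y, -, rfl⟩
    exact ⟨y, rfl⟩
  exact no_familyO (F := F) (k := k) (C := AlgebraicClosure k) (RingHom.id k) hT htop hκ le_rfl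
    (fun c => (hκ c).trans Pool.Agent.TD.isAlgebraic_range_iff.symm) (q_alg hq)
    (fun a => by
      have h1 := kC_eq (C := AlgebraicClosure k) htop
      have h2 : algebraMap k (AlgebraicClosure k) a ∈
          (algebraMap k (AlgebraicClosure k)).fieldRange := ⟨a, rfl⟩
      rw [h1] at h2
      refine (Subfield.closure_le.2 ?_) h2
      rintro y (hy | hy)
      · have h3 : gen (algebraMap F (AlgebraicClosure k)).fieldRange
            ![algebraMap k (AlgebraicClosure k) T] ≤ Subfield.closure
            (((algebraMap F (AlgebraicClosure k)).fieldRange : Set (AlgebraicClosure k)) ∪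
              {algebraMap k (AlgebraicClosure k) T, algebraMap k (AlgebraicClosure k) q}) := by
          unfold gen
          rw [Matrix.range_cons, Matrix.range_empty, Set.union_empty]
          apply Subfield.closure_mono
          rintro z (hz | hz)
          · exact Or.inl hz
          · exact Or.inr (Or.inl hz)
        exact h3 hy
      · exact Subfield.subset_closure (Or.inr (Or.inr hy)))
    hs hp hν hd hd3 hw0 hw1 hNoe h hx hwr (Kb := fun _ => ⊤) (fun _ _ _ => Subfield.mem_top _)
    (fun _ => Subfield.mem_top _) (fun _ => Subfield.mem_top _) (fun _ _ => Subfield.mem_top _)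
    fun a => hasLevG_of_hasLevX ⊤ (SX.hasLevX_of_hasSecX hF T hfd hp hd (hP a) (AlgebraicClosure k))

/-- the key statement for two quadrics -/
theorem keyO_of_cert {k : Type u} [Field k] {N t : ℕ} (ht : t ≤ N) {ds : Fin t → ℕ} {s₀ : Fin t}
    (hs₀ : ds s₀ = 2) {U : Type} [Fintype U] {e : U → ℕ} {hh : ∀ u, MonV (N + 2) (e u) → k}
    {c : ℕ} (hc : 1 ≤ c) (hcert : TQ.CertV ht hh c) :
    KeyO k fun a : IxV (N + 2) 2 ds → k => HasSecV 2 (mainS a) (relS (othS a) hh) := by
  intro F _ _ _ hF T q hT hq htop hfd κ hκ hs m w hw0 hw1 J Uf S _ π h vv hU hwr hP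
  have hx : AlgebraicIndependent ((algebraMap F (AlgebraicClosure k)).fieldRange.map (UP.cst π))
      (xg π fun j i => algebraMap F (AlgebraicClosure k) (vv j i)) := by
    refine indep_mono ?_ (algInd_xgC h (gen_extend hU))
    rintro _ ⟨y, -, rfl⟩
    exact ⟨y, rfl⟩
  exact no_familyQO (F := F) (k := k) (C := AlgebraicClosure k) (RingHom.id k) hT htop hκ le_rfl
    (fun c => (hκ c).trans Pool.Agent.TD.isAlgebraic_range_iff.symm) (q_alg hq)
    (fun a => by
      have h1 := kC_eq (C := AlgebraicClosure k) htop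
      have h2 : algebraMap k (AlgebraicClosure k) a ∈
          (algebraMap k (AlgebraicClosure k)).fieldRange := ⟨a, rfl⟩
      rw [h1] at h2
      refine (Subfield.closure_le.2 ?_) h2
      rintro y (hy | hy)
      · have h3 : gen (algebraMap F (AlgebraicClosure k)).fieldRange
            ![algebraMap k (AlgebraicClosure k) T] ≤ Subfield.closure
            (((algebraMap F (AlgebraicClosure k)).fieldRange : Set (AlgebraicClosure k)) ∪
              {algebraMap k (AlgebraicClosure k) T, algebraMap k (AlgebraicClosure k) q}) := by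
          unfold gen
          rw [Matrix.range_cons, Matrix.range_empty, Set.union_empty]
          apply Subfield.closure_mono
          rintro z (hz | hz)
          · exact Or.inl hz
          · exact Or.inr (Or.inl hz)
        exact h3 hy
      · exact Subfield.subset_closure (Or.inr (Or.inr hy)))
    hs hw0 hw1 ht hs₀ hc hcert h hx hwr (Kb := fun _ => ⊤) (fun _ _ _ => Subfield.mem_top _)
    (fun _ => Subfield.mem_top _) (fun _ => Subfield.mem_top _) (fun _ _ => Subfield.mem_top _)
    fun a => hasLevQG_of_hasLevQ ⊤ (TQ.hasLevQ_of_hasSecV hF T hfd (hP a) (AlgebraicClosure k))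

end Pool.Agent.OPG
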