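import Pool.Agent.Helper13.OPG.KeyG
import Pool.Agent.Helper13.SX.LevS
import Pool.Agent.Helper10.TQ.LevQ

/-!
# Project OPG, uniform version: stubs
-/

universe u v

namespace Pool.Agent.OPG

open IntermediateField Pool.Agent.Helper37.UL UL Pool.Agent.OPN Pool.Agent.BT

/-- **(L') Transport of the constants** to a larger algebraically closed field (stub). -/
theorem transport_stub {k₁ k' C' F k C : Type u} [Field k₁] [Field k'] [Field C'] [CharZero C']
    [Algebra k₁ k'] [Algebra k' C'] [IsAlgClosure k' C'] [Field F] [Field k] [Field C] [Algebra F k]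
    [Algebra k C] [IsAlgClosed C] (ψ : C' →+* C) {Kb : Subfield k}
    (hKb : Kb.map (algebraMap k C) = (ψ.comp (algebraMap k' C')).fieldRange)
    (hk₁ : ∀ a : k₁, ∃ b : F, algebraMap k C (algebraMap F k b) =
      ψ (algebraMap k' C' (algebraMap k₁ k' a)))
    {p c₀ N d r : ℕ} {U : Type} [Fintype U] {e : U → ℕ}
    {f : MonV (N + 2) d → k'} {rel : ∀ u, MonV (N + 2) (e u) → k'}
    {f₂ : MonV (N + 2) d → k} {rel₂ : ∀ u, MonV (N + 2) (e u) → k}
    (hf : ∀ q, algebraMap k C (f₂ q) = ψ (algebraMap k' C' (f q)))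
    (hrel : ∀ u q, algebraMap k C (rel₂ u q) = ψ (algebraMap k' C' (rel u q)))
    (h : SX.HasLevX k₁ C' p c₀ r f rel) : HasLevG F C Kb p c₀ r f₂ rel₂ := by
  sorry

/-- **(L') Transport of the constants** to a larger algebraically closed field, two quadrics (stub). -/
theorem transportQ_stub {k₁ k' C' F k C : Type u} [Field k₁] [Field k'] [Field C'] [CharZero C']
    [Algebra k₁ k'] [Algebra k' C'] [IsAlgClosure k' C'] [Field F] [Field k] [Field C] [Algebra F k]
    [Algebra k C] [IsAlgClosed C] (ψ : C' →+* C) {Kb : Subfield k}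
    (hKb : Kb.map (algebraMap k C) = (ψ.comp (algebraMap k' C')).fieldRange)
    (hk₁ : ∀ a : k₁, ∃ b : F, algebraMap k C (algebraMap F k b) =
      ψ (algebraMap k' C' (algebraMap k₁ k' a)))
    {N d : ℕ} {U : Type} [Fintype U] {e : U → ℕ}
    {f : MonV (N + 2) d → k'} {rel : ∀ u, MonV (N + 2) (e u) → k'}
    {f₂ : MonV (N + 2) d → k} {rel₂ : ∀ u, MonV (N + 2) (e u) → k}
    (hf : ∀ q, algebraMap k C (f₂ q) = ψ (algebraMap k' C' (f q)))
    (hrel : ∀ u q, algebraMap k C (rel₂ u q) = ψ (algebraMap k' C' (rel u q)))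
    (h : TQ.HasLevQ k₁ C' f rel) : HasLevQG F C Kb f₂ rel₂ := by
  sorry

/-- **(D') The reduction to the key statement, uniform version** (stub). -/
theorem closed_of_keyG_stub {F₀ k₀ : Type u} [Field F₀] [CharZero F₀] [Field k₀] [Algebra F₀ k₀]
    {I : Type} [Finite I] {P : ∀ (k' : Type u) [Field k'], (k₀ →+* k') → (I → k') → Prop}
    (hP : ∀ (k' : Type u) [Field k'] (ι : k₀ →+* k') (c : k') (f : I → k'), c ≠ 0 → P k' ι f →
      P k' ι fun q => c * f q) (key : KeyG k₀ P)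
    (hF₀ : ∃ S : Finset F₀, Subfield.closure (S : Set F₀) = ⊤)
    (hk₀ : ∃ S : Finset k₀, Subfield.closure (S : Set k₀) = ⊤) {m : ℕ} {w : Fin (m + 1) → k₀}
    {i j l : Fin (m + 1)} (hT : AlgebraicIndependent F₀ ![w i / w l, w j / w l]) :
    ∃ Ψ : MvPolynomial (I × Fin (m + 1)) F₀, Ψ ≠ 0 ∧
      ∀ (F k : Type u) [Field F] [Field k] [Algebra F₀ F] [Algebra F k] [Algebra k₀ k]
        [Algebra F₀ k] [IsScalarTower F₀ F k] [IsScalarTower F₀ k₀ k],
        (∃ S : Finset F, Subfield.closure (S : Set F) = ⊤) →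
        adjoin F (Set.range (algebraMap k₀ k)) = ⊤ →
        (∀ {n : ℕ} {x : Fin n → k₀}, AlgebraicIndependent F₀ x →
          AlgebraicIndependent F (algebraMap k₀ k ∘ x)) →
        ∀ a : I × Fin (m + 1) → F,
          P k (algebraMap k₀ k) (PL.sysW (algebraMap k₀ k ∘ w) a) → MvPolynomial.aeval a Ψ = 0 := by
  sorry

end Pool.Agent.OPG
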