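import Pool.Agent.Helper13.OPG.Key

/-!
# Project OPG: the reduction to the key statement (stubs)
-/

universe u v w

namespace Pool.Agent.OPG

open Pool.Agent.Helper37.UL UL Pool.Agent.OPN

/-- **The algebraic functions of generic parameters on a pencil** (stub, to be proved by helper13, from `planeI`).
`Fh = Ω` is the field `F(s)`, `u` the last coordinate, `F₁ = F(s)(u)`. -/
theorem wr_stub {J : Type v} {Uf : Ultrafilter J} {C : Type u} [Field C] [CharZero C] [IsAlgClosed C]
    {S : Type w} [Field S] {π : (J → C) →+* S} (h : UP Uf π) {Fh Ω : Subfield C} (hΩ : Fh ≤ Ω)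
    {u : C} (hu : Transcendental Ω u) {I : Type} [Finite I] {m : ℕ}
    {a' : I × Fin (m + 3) → S} (haΩ : ∀ p, a' p ∈ h.gsub Ω)
    (ha : AlgebraicIndependent (Fh.map (UP.cst π)) a') {c : S} (hc : c ∈ Fh.map (UP.cst π))
    {κ : Subfield C} (hκ : Subfield.closure ((Fh : Set C) ∪ {u}) ≤ κ)
    {x' : I × Fin (m + 2) → S}
    (hx0 : ∀ i, x' (i, 0) = a' (i, 0) + c * a' (i, 1) + UP.cst π u * a' (i, Fin.last _))
    (hx1 : ∀ (i : I) (e : Fin (m + 1)), x' (i, e.succ) = a' (i, e.succ.castSucc))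
    {z : S} (hz : z ∈ h.gsub (Subfield.closure ((Ω : Set C) ∪ {u})))
    (hza : IsAlgebraic (gn ((Subfield.closure ((Fh : Set C) ∪ {u})).map (UP.cst π)) x') z) :
    z ∈ gn (acl (hi (κ.map (UP.cst π)) x')) x' := by
  sorry

/-- **The reduction to the key statement** (stub, helper45). -/
theorem closed_of_key_stub {F k : Type u} [Field F] [CharZero F] [Field k] [Algebra F k] {I : Type}
    [Finite I] {P : (I → k) → Prop}
    (hP : ∀ (c : k) (f : I → k), c ≠ 0 → P f → P fun q => c * f q) (key : KeyO k P)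
    (hF : ∃ S : Finset F, Subfield.closure (S : Set F) = ⊤)
    (hk : ∃ S : Finset k, Subfield.closure (S : Set k) = ⊤) {m : ℕ} {w : Fin (m + 1) → k}
    {i j l : Fin (m + 1)} (hT : AlgebraicIndependent F ![w i / w l, w j / w l]) :
    ∃ Ψ : MvPolynomial (I × Fin (m + 1)) F, Ψ ≠ 0 ∧
      ∀ a : I × Fin (m + 1) → F, P (PL.sysW w a) → MvPolynomial.eval a Ψ = 0 := by
  sorry

end Pool.Agent.OPG
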